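import Mathlib

/-!
Monotone triangles and the monotone triangle polynomial.
-/

namespace Pool.Agent.R730.MT

/-- `t` is a monotone triangle with `n` rows and bottom row `k`.  Entries are indexed from 1:
row `i` is `t i 1, ..., t i i` for `1 ≤ i ≤ n`; outside of the index range
`1 ≤ j ≤ i ≤ n` the array is extended by `0`. -/
structure IsMonTri (n : ℕ) (k : Fin n → ℤ) (t : ℕ → ℕ → ℤ) : Prop where
  /-- extension by zero -/
  zero : ∀ i j, ¬ (1 ≤ j ∧ j ≤ i ∧ i ≤ n) → t i j = 0
  /-- the rows are strictly increasing -/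
  strict : ∀ i j, 1 ≤ j → j < i → i ≤ n → t i j < t i (j + 1)
  /-- interlacing -/
  left : ∀ i j, 1 ≤ j → j ≤ i → i < n → t (i + 1) j ≤ t i j
  /-- interlacing -/
  right : ∀ i j, 1 ≤ j → j ≤ i → i < n → t i j ≤ t (i + 1) (j + 1)
  /-- the bottom row is `k` -/
  bottom : ∀ j : Fin n, t n (j + 1) = k j

/-- the number of monotone triangles with bottom row `k` -/
noncomputable def numMT (n : ℕ) (k : Fin n → ℤ) : ℕ := Nat.card {t // IsMonTri n k t}

/-- `p` is the monotone triangle polynomial in `n` variables: its value at every strictly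
increasing integer tuple is the number of monotone triangles with this bottom row -/
def IsMTPoly (n : ℕ) (p : MvPolynomial (Fin n) ℚ) : Prop :=
  ∀ k : Fin n → ℤ, StrictMono k →
    MvPolynomial.eval (fun i => (k i : ℚ)) p = (numMT n k : ℚ)

/-- `valAt α [k₁, ..., kₙ]` is the value `α(n; k₁, ..., kₙ)` -/
noncomputable def valAt (α : ∀ n, MvPolynomial (Fin n) ℚ) (l : List ℤ) : ℚ :=
  MvPolynomial.eval (fun i => ((l.get i : ℤ) : ℚ)) (α l.length)

/-- the list `a, a+1, ..., a+m-1` -/
def up (a : ℤ) (m : ℕ) : List ℤ := (List.range m).map (fun j : ℕ => a + j)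

/-- the list `2, 4, ..., 2n` -/
def evens (n : ℕ) : List ℤ := (List.range n).map (fun j : ℕ => 2 * ((j : ℤ) + 1))

/-- every entry of the list is repeated twice in a row -/
def dbl (l : List ℤ) : List ℤ := l.flatMap (fun j => [j, j])

end Pool.Agent.R730.MT
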