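import Pool.Agent.R730.MT.Poly
import Pool.Agent.R730.MT.Defs

/-!
The functional on strictly increasing words counts monotone triangles.
-/

namespace Pool.Agent.R730.MT

open Finset

open Classical in
/-- possible next rows -/
noncomputable def F {n : ℕ} (k : Fin (n + 1) → ℤ) : Finset (Fin n → ℤ) :=
  (Fintype.piFinset fun i : Fin n => Icc (k i.castSucc) (k i.succ)).filter
    (fun l => StrictMono l)

lemma mem_F {n : ℕ} (k : Fin (n + 1) → ℤ) (l : Fin n → ℤ) :
    l ∈ F k ↔ (∀ i : Fin n, k i.castSucc ≤ l i ∧ l i ≤ k i.succ) ∧ StrictMono l := by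
  classical
  simp [F, Fintype.mem_piFinset]

lemma sum_Icc (i : ℤ) (n : ℕ) : sg (i + n) - sg i = ∑ a ∈ Ico i (i + n), x a := by
  induction n with
  | zero => simp
  | succ n ih =>
    have h1 : Ico i (i + ((n + 1 : ℕ) : ℤ)) = insert (i + n) (Ico i (i + n)) := by
      ext y; simp only [mem_Ico, mem_insert]; push_cast; omega
    rw [h1, Finset.sum_insert (by simp), ← ih]
    have c : i + ((n + 1 : ℕ) : ℤ) = i + n + 1 := by push_cast; ring
    rw [c, sg_succ]
    abel

lemma sum_Icc' {i j : ℤ} (h : i ≤ j) : sg (j + 1) - sg i = ∑ a ∈ Icc i j, x a := by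
  obtain ⟨n, hn⟩ : ∃ n : ℕ, j + 1 = i + n := ⟨(j + 1 - i).toNat, by omega⟩
  rw [hn, sum_Icc]
  apply Finset.sum_congr _ (fun _ _ => rfl)
  ext y; simp only [mem_Ico, mem_Icc]; omega

lemma wd_ofFn_cons {n : ℕ} (a : ℤ) (l : Fin n → ℤ) :
    wd (List.ofFn (Fin.cons a l : Fin (n + 1) → ℤ)) = x a * wd (List.ofFn l) := by
  rw [List.ofFn_succ, wd_cons]
  simp

lemma sm_cons {n : ℕ} (a : ℤ) (l : Fin (n + 1) → ℤ) :
    StrictMono (Fin.cons a l : Fin (n + 2) → ℤ) ↔ a < l 0 ∧ StrictMono l :=
  strictMono_vecCons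

lemma fin01 (i j : Fin (0 + 1)) : i = j := (inferInstance : Subsingleton (Fin 1)).elim i j

lemma sm01 (l : Fin (0 + 1) → ℤ) : StrictMono l := by
  intro i j hij
  rw [fin01 i j] at hij
  exact absurd hij (lt_irrefl _)

lemma sum_F_cons {n : ℕ} (c d : ℤ) (k : Fin (n + 1) → ℤ) (hcd : c ≤ d)
    (hk : StrictMono (Fin.cons d k : Fin (n + 2) → ℤ)) :
    ∑ l ∈ F (Fin.cons c (Fin.cons d k : Fin (n + 2) → ℤ) : Fin (n + 3) → ℤ), wd (List.ofFn l)
      = (∑ a ∈ Icc c d, x a) * (∑ l ∈ F (Fin.cons d k : Fin (n + 2) → ℤ), wd (List.ofFn l))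
        - x d * x d * ∑ l ∈ F k, wd (List.ofFn l) := by
  classical
  have h1 : ∑ l ∈ F (Fin.cons c (Fin.cons d k : Fin (n + 2) → ℤ) : Fin (n + 3) → ℤ),
      wd (List.ofFn l)
      = ∑ p ∈ (Icc c d ×ˢ F (Fin.cons d k : Fin (n + 2) → ℤ)).filter (fun p => p.1 < p.2 0),
        x p.1 * wd (List.ofFn p.2) := by
    apply Finset.sum_nbij' (fun l => (l 0, Fin.tail l))
      (fun p => (Fin.cons p.1 p.2 : Fin (n + 2) → ℤ))
    · intro l hl
      rw [mem_F] at hl
      obtain ⟨h1, h2⟩ := hl
      rw [mem_filter, mem_product, mem_Icc, mem_F]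
      rw [← Fin.cons_self_tail l, sm_cons] at h2
      refine ⟨⟨?_, ⟨?_, h2.2⟩⟩, h2.1⟩
      · have := h1 0
        simpa using this
      · intro i
        have := h1 i.succ
        simpa [Fin.tail] using this
    · intro p hp
      rw [mem_filter, mem_product, mem_Icc, mem_F] at hp
      rw [mem_F, sm_cons]
      refine ⟨?_, hp.2, hp.1.2.2⟩
      intro i
      refine Fin.cases ?_ (fun i => ?_) i
      · simpa using hp.1.1
      · have := hp.1.2.1 i
        simpa using this
    · intro l _; exact Fin.cons_self_tail l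
    · intro p _; simp
    · intro l _
      rw [← wd_ofFn_cons, Fin.cons_self_tail]
  have h2 : ∑ p ∈ (Icc c d ×ˢ F (Fin.cons d k : Fin (n + 2) → ℤ)).filter (fun p => ¬ p.1 < p.2 0),
        x p.1 * wd (List.ofFn p.2) = x d * x d * ∑ l ∈ F k, wd (List.ofFn l) := by
    rw [Finset.mul_sum]
    symm
    apply Finset.sum_nbij' (fun l => (d, (Fin.cons d l : Fin (n + 1) → ℤ)))
      (fun p => Fin.tail p.2)
    · intro l hl
      rw [mem_F] at hl
      rw [mem_filter, mem_product, mem_Icc, mem_F]
      refine ⟨⟨⟨hcd, le_rfl⟩, ⟨?_, ?_⟩⟩, by simp⟩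
      · intro i
        refine Fin.cases ?_ (fun i => ?_) i
        · have : d < k 0 := ((sm_cons d k).mp hk).1
          simpa using this.le
        · have := hl.1 i
          simpa using this
      · rcases n with _ | n
        · exact sm01 _
        · rw [sm_cons]
          refine ⟨?_, hl.2⟩
          have h3 := (hl.1 0).1
          have : d < k 0 := ((sm_cons d k).mp hk).1
          simp only [Fin.castSucc_zero] at h3
          omega
    · intro p hp
      rw [mem_filter, mem_product, mem_Icc, mem_F] at hp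
      rw [mem_F]
      refine ⟨?_, ?_⟩
      · intro i
        have := hp.1.2.1 i.succ
        simpa [Fin.tail] using this
      · intro i j hij
        exact hp.1.2.2 (Fin.succ_lt_succ_iff.mpr hij)
    · intro l _; simp
    · intro p hp
      rw [mem_filter, mem_product, mem_Icc, mem_F] at hp
      have h3 := (hp.1.2.1 0).1
      simp only [Fin.castSucc_zero, Fin.cons_zero] at h3
      have h4 := hp.1.1.2
      have h5 := hp.2
      have h6 : p.2 0 = d := by omega
      have h7 : p.1 = d := by omega
      apply Prod.ext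
      · exact h7.symm
      · change (Fin.cons d (Fin.tail p.2) : Fin (n + 1) → ℤ) = p.2
        rw [← h6]; exact Fin.cons_self_tail _
    · intro l _
      simp only
      rw [wd_ofFn_cons, mul_assoc]
  rw [h1, ← h2]
  have h3 := Finset.sum_filter_add_sum_filter_not (Icc c d ×ˢ F (Fin.cons d k : Fin (n + 2) → ℤ))
    (fun p => p.1 < p.2 0) (fun p => x p.1 * wd (List.ofFn p.2))
  rw [Finset.sum_product] at h3
  have h4 : ∑ y ∈ Icc c d, ∑ z ∈ F (Fin.cons d k : Fin (n + 2) → ℤ),
      x (y, z).1 * wd (List.ofFn (y, z).2)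
      = (∑ a ∈ Icc c d, x a) * (∑ l ∈ F (Fin.cons d k : Fin (n + 2) → ℤ), wd (List.ofFn l)) := by
    rw [Finset.sum_mul_sum]
  rw [h4] at h3
  rw [← h3]
  abel

lemma R_wd : ∀ (n : ℕ) (k : Fin (n + 1) → ℤ), StrictMono k →
    R (wd (List.ofFn k)) = ∑ l ∈ F k, wd (List.ofFn l) := by
  intro n
  induction n using Nat.strong_induction_on with
  | _ n ih =>
  intro k hk
  rcases n with _ | _ | n
  · classical
    have : F k = {Fin.elim0} := by
      ext l
      rw [mem_F, Finset.mem_singleton]
      constructor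
      · intro _; exact Subsingleton.elim _ _
      · intro _; exact ⟨fun i => i.elim0, Subsingleton.strictMono _⟩
    rw [this, Finset.sum_singleton]
    simp [R_x]
  · classical
    have h01 : k 0 < k 1 := hk (by simp)
    have h1 : wd (List.ofFn k) = x (k 0) * x (k 1) := by simp [List.ofFn_succ]
    rw [h1, R_xx, sum_Icc' h01.le]
    apply Finset.sum_nbij' (fun a => (fun _ => a)) (fun l => l 0)
    · intro a ha
      rw [mem_Icc] at ha
      rw [mem_F]
      refine ⟨?_, sm01 _⟩
      intro i
      have : i = 0 := fin01 _ _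
      subst this
      exact ha
    · intro l hl
      rw [mem_F] at hl
      rw [mem_Icc]
      exact hl.1 0
    · intro a _; rfl
    · intro l _; funext i; have : i = 0 := fin01 _ _
      rw [this]
    · intro a _
      simp [List.ofFn_succ]
  · obtain ⟨c, k1, rfl⟩ : ∃ c k1, k = (Fin.cons c k1 : Fin (n + 3) → ℤ) :=
      ⟨k 0, Fin.tail k, (Fin.cons_self_tail k).symm⟩
    obtain ⟨d, k2, rfl⟩ : ∃ d k2, k1 = (Fin.cons d k2 : Fin (n + 2) → ℤ) :=
      ⟨k1 0, Fin.tail k1, (Fin.cons_self_tail k1).symm⟩
    rw [sm_cons] at hk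
    have hk2 := (sm_cons _ _).mp hk.2
    have hcd : c < d := by simpa using hk.1
    rw [sum_F_cons c d k2 hcd.le hk.2, wd_ofFn_cons, wd_ofFn_cons, ← mul_assoc, R_split, R_xx, R_x,
      one_mul, ← wd_ofFn_cons, ih (n + 1) (by omega) _ hk.2, ih n (by omega) _ hk2.2,
      sum_Icc' hcd.le]

/-! ### Counting -/

/-- decomposition along the last row -/
noncomputable def triEquiv (n : ℕ) (k : Fin (n + 1) → ℤ) (hk : StrictMono k) :
    {t // IsMonTri (n + 1) k t} ≃ Σ l : {l // l ∈ F k}, {t // IsMonTri n l.1 t} where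
  toFun t := ⟨⟨fun j => t.1 n (j + 1), by
      have ht := t.2
      rw [mem_F]
      refine ⟨?_, ?_⟩
      · intro i
        have h1 := ht.left n (i + 1) (by omega) (by omega) (by omega)
        have h2 := ht.right n (i + 1) (by omega) (by omega) (by omega)
        have h3 := ht.bottom i.castSucc
        have h4 := ht.bottom i.succ
        simp only [Fin.val_castSucc, Fin.val_succ] at h3 h4
        rw [h3] at h1
        rw [h4] at h2
        exact ⟨h1, h2⟩
      · rcases n with _ | n
        · exact Subsingleton.strictMono _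
        · rw [Fin.strictMono_iff_lt_succ]
          intro i
          have := ht.strict (n + 1) (i + 1) (by omega) (by omega) (by omega)
          simpa using this⟩,
    ⟨fun i j => if i ≤ n then t.1 i j else 0, by
      have ht := t.2
      refine ⟨?_, ?_, ?_, ?_, ?_⟩
      · intro i j h
        by_cases hi : i ≤ n
        · rw [if_pos hi]; exact ht.zero i j (by omega)
        · rw [if_neg hi]
      · intro i j h1 h2 h3
        rw [if_pos h3, if_pos h3]; exact ht.strict i j h1 h2 (by omega)
      · intro i j h1 h2 h3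
        rw [if_pos h3.le, if_pos (by omega)]; exact ht.left i j h1 h2 (by omega)
      · intro i j h1 h2 h3
        rw [if_pos h3.le, if_pos (by omega)]; exact ht.right i j h1 h2 (by omega)
      · intro j
        rw [if_pos le_rfl]⟩⟩
  invFun p := ⟨fun i j => if h : i = n + 1 ∧ 1 ≤ j ∧ j ≤ n + 1 then k ⟨j - 1, by omega⟩ else p.2.1 i j, by
      obtain ⟨⟨l, hl⟩, ⟨t, ht⟩⟩ := p
      rw [mem_F] at hl
      simp only at ht ⊢
      have hz : ∀ j, t (n + 1) j = 0 := fun j => ht.zero _ _ (by omega)
      refine ⟨?_, ?_, ?_, ?_, ?_⟩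
      · intro i j h
        rw [dif_neg (by omega)]
        exact ht.zero i j (by omega)
      · intro i j h1 h2 h3
        by_cases hi : i = n + 1
        · subst hi
          rw [dif_pos ⟨rfl, by omega, by omega⟩, dif_pos ⟨rfl, by omega, by omega⟩]
          apply hk
          rw [Fin.lt_def]
          simp only
          omega
        · rw [dif_neg (by omega), dif_neg (by omega)]
          exact ht.strict i j h1 h2 (by omega)
      · intro i j h1 h2 h3
        rw [dif_neg (show ¬ (i = n + 1 ∧ 1 ≤ j ∧ j ≤ n + 1) by omega)]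
        by_cases hi : i = n
        · subst hi
          rw [dif_pos ⟨rfl, by omega, by omega⟩]
          have h4 := ht.bottom ⟨j - 1, by omega⟩
          simp only [Nat.sub_add_cancel h1] at h4
          rw [h4]
          exact (hl.1 ⟨j - 1, by omega⟩).1
        · rw [dif_neg (by omega)]
          exact ht.left i j h1 h2 (by omega)
      · intro i j h1 h2 h3
        rw [dif_neg (show ¬ (i = n + 1 ∧ 1 ≤ j ∧ j ≤ n + 1) by omega)]
        by_cases hi : i = n
        · subst hi
          rw [dif_pos ⟨rfl, by omega, by omega⟩]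
          have h4 := ht.bottom ⟨j - 1, by omega⟩
          simp only [Nat.sub_add_cancel h1] at h4
          rw [h4]
          have h5 := (hl.1 ⟨j - 1, by omega⟩).2
          have h6 : (⟨j + 1 - 1, by omega⟩ : Fin (i + 1)) = (⟨j - 1, by omega⟩ : Fin i).succ := by
            ext; simp; omega
          rw [h6]
          exact h5
        · rw [dif_neg (by omega)]
          exact ht.right i j h1 h2 (by omega)
      · intro j
        rw [dif_pos ⟨rfl, by omega, by omega⟩]
        congr 1⟩
  left_inv t := by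
    obtain ⟨t, ht⟩ := t
    apply Subtype.ext
    funext i j
    simp only
    by_cases h : i = n + 1 ∧ 1 ≤ j ∧ j ≤ n + 1
    · rw [dif_pos h]
      obtain ⟨h1, h2, h3⟩ := h
      subst h1
      have h4 := ht.bottom ⟨j - 1, by omega⟩
      simp only [Nat.sub_add_cancel h2] at h4
      exact h4.symm
    · rw [dif_neg h]
      by_cases h1 : i ≤ n
      · rw [if_pos h1]
      · rw [if_neg h1]
        exact (ht.zero i j (by omega)).symm
  right_inv p := by
    obtain ⟨⟨l, hl⟩, ⟨t, ht⟩⟩ := p
    simp only at ht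
    have h1 : (fun j : Fin n => (fun i j => if h : i = n + 1 ∧ 1 ≤ j ∧ j ≤ n + 1 then
        k ⟨j - 1, by omega⟩ else t i j) n ((j : ℕ) + 1)) = l := by
      funext j
      simp only
      rw [dif_neg (by omega)]
      exact ht.bottom j
    apply Sigma.ext
    · exact Subtype.ext h1
    · refine (Subtype.heq_iff_coe_eq ?_).mpr ?_
      · intro s
        simp only
        have : (fun j : Fin n => (fun i j => if h : i = n + 1 ∧ 1 ≤ j ∧ j ≤ n + 1 then
          k ⟨j - 1, by omega⟩ else t i j) n ((j : ℕ) + 1)) = l := h1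
        simp only at this
        rw [this]
      · funext i j
        simp only
        by_cases h2 : i ≤ n
        · rw [if_pos h2, dif_neg (by omega)]
        · rw [if_neg h2]
          exact (ht.zero i j (by omega)).symm

theorem count (n : ℕ) : ∀ k : Fin n → ℤ, StrictMono k →
    Finite {t // IsMonTri n k t} ∧ (numMT n k : ℚ) = al n (wd (List.ofFn k)) := by
  induction n with
  | zero =>
    intro k _
    have h1 : ∀ t, IsMonTri 0 k t ↔ t = 0 := by
      intro t
      constructor
      · intro h; funext i j; exact h.zero i j (by omega)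
      · rintro rfl
        exact ⟨fun _ _ _ => rfl, fun _ _ _ _ _ => by omega, fun _ _ _ _ _ => by omega,
          fun _ _ _ _ _ => by omega, fun j => j.elim0⟩
    have h2 : Unique {t // IsMonTri 0 k t} :=
      { default := ⟨0, (h1 0).mpr rfl⟩
        uniq := fun t => Subtype.ext ((h1 _).mp t.2) }
    refine ⟨inferInstance, ?_⟩
    unfold numMT
    rw [Nat.card_unique]
    simp [al_zero]
  | succ n ih =>
    intro k hk
    have e := triEquiv n k hk
    have hf : ∀ l : {l // l ∈ F k}, Finite {t // IsMonTri n l.1 t} := fun l =>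
      (ih l.1 ((mem_F _ _).mp l.2).2).1
    refine ⟨Finite.of_equiv _ e.symm, ?_⟩
    unfold numMT
    rw [Nat.card_congr e, Nat.card_sigma, al_succ, R_wd n k hk, map_sum,
      ← Finset.sum_coe_sort (F k) (fun l => (al n) (wd (List.ofFn l)))]
    push_cast
    apply Finset.sum_congr rfl
    intro l _
    exact (ih l.1 ((mem_F _ _).mp l.2).2).2

theorem mtp_isMTPoly (n : ℕ) : IsMTPoly n (mtp n) := by
  intro k hk
  rw [mtp_eval, (count n k hk).2]

theorem isMTPoly_unique {n : ℕ} {p : MvPolynomial (Fin n) ℚ} (h : IsMTPoly n p) : p = mtp n :=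
  poly_unique p (mtp n) (fun k hk => by rw [h k hk, mtp_isMTPoly n k hk])

theorem isMTPoly_iff (n : ℕ) (p : MvPolynomial (Fin n) ℚ) : IsMTPoly n p ↔ p = mtp n :=
  ⟨isMTPoly_unique, fun h => by rw [h]; exact mtp_isMTPoly n⟩

/-- values of the polynomials are values of the functional -/
theorem valAt_eq {l : List ℤ} {n : ℕ} (hn : l.length = n) : valAt mtp l = al n (wd l) := by
  subst hn
  unfold valAt
  rw [mtp_eval]
  congr 2
  exact List.ofFn_get l

end Pool.Agent.R730.MT
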