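import Pool.Agent.R730.MT.ASMDefs
import Pool.Agent.R730.MT.Count

/-!
Counting alternating sign matrices by monotone triangles.
-/

namespace Pool.Agent.R730.MT

open Finset

/-- extension by zero -/
def zx {n : ℕ} (v : Fin n → ℤ) (m : ℕ) : ℤ := if h : m < n then v ⟨m, h⟩ else 0

/-- partial sums -/
def ps {n : ℕ} (v : Fin n → ℤ) (m : ℕ) : ℤ := ∑ k ∈ range m, zx v k

lemma ps_succ {n : ℕ} (v : Fin n → ℤ) (m : ℕ) : ps v (m + 1) = ps v m + zx v m := by
  simp [ps, Finset.sum_range_succ]

lemma zx_lt {n : ℕ} (v : Fin n → ℤ) (j : Fin n) : zx v (j : ℕ) = v j := by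
  unfold zx; rw [dif_pos j.2]

lemma zx_ge {n : ℕ} (v : Fin n → ℤ) {m : ℕ} (h : n ≤ m) : zx v m = 0 := by
  unfold zx; rw [dif_neg (by omega)]

lemma alt_inv {n : ℕ} {v : Fin n → ℤ} (h : IsAlt v) (m : ℕ) :
    (ps v m = 0 ∧ ((∀ k : Fin n, (k : ℕ) < m → v k = 0) ∨
      (∃ j : Fin n, (j : ℕ) < m ∧ v j = -1 ∧ ∀ k : Fin n, j < k → (k : ℕ) < m → v k = 0))) ∨
    (ps v m = 1 ∧ ∃ j : Fin n, (j : ℕ) < m ∧ v j = 1 ∧
      ∀ k : Fin n, j < k → (k : ℕ) < m → v k = 0) := by
  induction m with
  | zero => left; exact ⟨by simp [ps], Or.inl (fun k hk => by omega)⟩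
  | succ m ih =>
    by_cases hm : m < n
    · set j0 : Fin n := ⟨m, hm⟩ with hj0
      have hz : zx v m = v j0 := zx_lt v j0
      have hlt : ∀ k : Fin n, (k : ℕ) < m + 1 → (k : ℕ) < m ∨ k = j0 := by
        intro k hk
        rcases Nat.lt_succ_iff_lt_or_eq.mp hk with h1 | h1
        · exact Or.inl h1
        · exact Or.inr (Fin.ext h1)
      have hj0lt : ∀ k : Fin n, (k : ℕ) < m → k < j0 := fun k hk => hk
      rcases h.entry j0 with h0 | h1 | h1
      · rcases ih with ⟨i1, i2 | ⟨j, i2, i3, i4⟩⟩ | ⟨i1, j, i2, i3, i4⟩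
        · left
          refine ⟨by rw [ps_succ, i1, hz, h0]; rfl, Or.inl ?_⟩
          intro k hk
          rcases hlt k hk with h5 | h5
          · exact i2 k h5
          · rw [h5, h0]
        · left
          refine ⟨by rw [ps_succ, i1, hz, h0]; rfl, Or.inr ⟨j, by omega, i3, ?_⟩⟩
          intro k hjk hk
          rcases hlt k hk with h5 | h5
          · exact i4 k hjk h5
          · rw [h5, h0]
        · right
          refine ⟨by rw [ps_succ, i1, hz, h0]; rfl, j, by omega, i3, ?_⟩
          intro k hjk hk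
          rcases hlt k hk with h5 | h5
          · exact i4 k hjk h5
          · rw [h5, h0]
      · -- entry 1
        rcases ih with ⟨i1, i2⟩ | ⟨i1, j, i2, i3, i4⟩
        · right
          refine ⟨by rw [ps_succ, i1, hz, h1]; rfl, j0, by simp [hj0], h1, ?_⟩
          intro k hjk hk
          exfalso
          have : m < (k : ℕ) := hjk
          omega
        · exfalso
          have := h.alt j j0 (hj0lt j i2) (by rw [i3]; norm_num) (by rw [h1]; norm_num)
            (fun k hk1 hk2 => i4 k hk1 hk2)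
          rw [h1, i3] at this
          norm_num at this
      · -- entry -1
        rcases ih with ⟨i1, i2 | ⟨j, i2, i3, i4⟩⟩ | ⟨i1, j, i2, i3, i4⟩
        · exfalso
          obtain ⟨j, hj1, hj2⟩ := h.first
          rcases lt_trichotomy j j0 with h5 | h5 | h5
          · have := i2 j h5
            rw [hj1] at this; norm_num at this
          · rw [h5, h1] at hj1; norm_num at hj1
          · have := hj2 j0 h5
            rw [h1] at this; norm_num at this
        · exfalso
          have := h.alt j j0 (hj0lt j i2) (by rw [i3]; norm_num) (by rw [h1]; norm_num)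
            (fun k hk1 hk2 => i4 k hk1 hk2)
          rw [h1, i3] at this
          norm_num at this
        · left
          refine ⟨by rw [ps_succ, i1, hz, h1]; rfl, Or.inr ⟨j0, by simp [hj0], h1, ?_⟩⟩
          intro k hjk hk
          exfalso
          have : m < (k : ℕ) := hjk
          omega
    · have hz : zx v m = 0 := zx_ge v (by omega)
      have hps : ps v (m + 1) = ps v m := by rw [ps_succ, hz, add_zero]
      rw [hps]
      rcases ih with ⟨i1, i2 | ⟨j, i2, i3, i4⟩⟩ | ⟨i1, j, i2, i3, i4⟩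
      · exact Or.inl ⟨i1, Or.inl (fun k _ => i2 k (by omega))⟩
      · exact Or.inl ⟨i1, Or.inr ⟨j, by omega, i3, fun k hk _ => i4 k hk (by omega)⟩⟩
      · exact Or.inr ⟨i1, j, by omega, i3, fun k hk _ => i4 k hk (by omega)⟩

lemma ps_const {n : ℕ} (v : Fin n → ℤ) {a b : ℕ} (hab : a ≤ b)
    (h : ∀ k : Fin n, a ≤ (k : ℕ) → (k : ℕ) < b → v k = 0) : ps v b = ps v a := by
  obtain ⟨d, rfl⟩ : ∃ d, b = a + d := ⟨b - a, by omega⟩
  induction d with
  | zero => rfl
  | succ d ih =>
    rw [← add_assoc, ps_succ, ih (by omega) (fun k h1 h2 => h k h1 (by omega))]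
    have : zx v (a + d) = 0 := by
      by_cases h5 : a + d < n
      · have := h ⟨a + d, h5⟩ (by simp) (by simp)
        rw [← zx_lt v ⟨a + d, h5⟩] at this
        exact this
      · exact zx_ge v (by omega)
    rw [this, add_zero]

theorem isAlt_iff {n : ℕ} (v : Fin n → ℤ) :
    IsAlt v ↔ (∀ m, ps v m = 0 ∨ ps v m = 1) ∧ ps v n = 1 := by
  constructor
  · intro h
    refine ⟨fun m => ?_, ?_⟩
    · rcases alt_inv h m with ⟨h1, _⟩ | ⟨h1, _⟩
      · exact Or.inl h1
      · exact Or.inr h1
    · obtain ⟨j, hj1, hj2⟩ := h.last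
      rcases alt_inv h n with ⟨_, h1 | ⟨j', _, h2, h3⟩⟩ | ⟨h1, _⟩
      · have := h1 j j.2
        rw [hj1] at this; norm_num at this
      · rcases lt_trichotomy j j' with h5 | h5 | h5
        · have := hj2 j' h5
          rw [h2] at this; norm_num at this
        · rw [h5, h2] at hj1; norm_num at hj1
        · have := h3 j h5 j.2
          rw [hj1] at this; norm_num at this
      · exact h1
  · rintro ⟨h1, h2⟩
    have hv : ∀ j : Fin n, v j = ps v (j + 1) - ps v j := by
      intro j; rw [ps_succ, zx_lt]; ring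
    have hex : ∃ j : Fin n, v j ≠ 0 := by
      by_contra hcon
      push_neg at hcon
      have := ps_const v (Nat.zero_le n) (fun k _ _ => hcon k)
      rw [h2] at this
      simp [ps] at this
    refine ⟨?_, ?_, ?_, ?_⟩
    · intro j
      rw [hv j]
      rcases h1 (j + 1) with h3 | h3 <;> rcases h1 j with h4 | h4 <;> rw [h3, h4] <;> norm_num
    · intro i j hij hi hj hk
      have h5 : ps v (j : ℕ) = ps v ((i : ℕ) + 1) := by
        apply ps_const v (by exact hij)
        intro k hk1 hk2
        exact hk k (by rw [Fin.lt_def]; omega) hk2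
      rw [hv i] at hi
      rw [hv j] at hj
      rw [hv i, hv j]
      rcases h1 (i + 1) with h3 | h3 <;> rcases h1 i with h4 | h4 <;>
        rcases h1 (j + 1) with h6 | h6 <;> omega
    · classical
      obtain ⟨j, hj, hmin⟩ := Finset.exists_minimal
        (s := (Finset.univ : Finset (Fin n)).filter (fun j => v j ≠ 0))
        (by obtain ⟨j, hj⟩ := hex; exact ⟨j, by simp [hj]⟩)
      have hz : ∀ k, k < j → v k = 0 := by
        intro k hk
        by_contra hne
        have := hmin (by simp [hne] : k ∈ _) hk.le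
        exact absurd hk (not_lt.mpr this)
      refine ⟨j, ?_, hz⟩
      have hj0 : v j ≠ 0 := by simpa using hj
      have h5 := ps_const v (Nat.zero_le (j : ℕ)) (fun k _ hk => hz k hk)
      have h6 : ps v 0 = 0 := by simp [ps]
      rw [hv j, h5, h6] at hj0 ⊢
      rcases h1 (j + 1) with h3 | h3
      · rw [h3] at hj0; simp at hj0
      · rw [h3]; norm_num
    · classical
      obtain ⟨j, hj, hmax⟩ := Finset.exists_maximal
        (s := (Finset.univ : Finset (Fin n)).filter (fun j => v j ≠ 0))
        (by obtain ⟨j, hj⟩ := hex; exact ⟨j, by simp [hj]⟩)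
      have hz : ∀ k, j < k → v k = 0 := by
        intro k hk
        by_contra hne
        have := hmax (by simp [hne] : k ∈ _) hk.le
        exact absurd hk (not_lt.mpr this)
      refine ⟨j, ?_, hz⟩
      have hj0 : v j ≠ 0 := by simpa using hj
      have h5 := ps_const v (a := (j : ℕ) + 1) (b := n) (by omega)
        (fun k hk _ => hz k (by rw [Fin.lt_def]; omega))
      rw [h2] at h5
      rw [hv j, ← h5] at hj0 ⊢
      rcases h1 j with h3 | h3
      · rw [h3]; norm_num
      · rw [h3] at hj0; simp at hj0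

/-! ### interlacing by counting -/

/-- number of entries at most `m` -/
def Nc {s : ℕ} (k : Fin s → ℤ) (m : ℤ) : ℕ := (univ.filter (fun a => k a ≤ m)).card

lemma le_iff_Nc {s : ℕ} {k : Fin s → ℤ} (hk : StrictMono k) (a : Fin s) (m : ℤ) :
    k a ≤ m ↔ (a : ℕ) + 1 ≤ Nc k m := by
  constructor
  · intro h
    have : Finset.Iic a ⊆ univ.filter (fun b => k b ≤ m) := by
      intro b hb
      rw [mem_Iic] at hb
      simp only [mem_filter, mem_univ, true_and]
      exact (hk.monotone hb).trans h
    have h2 := Finset.card_le_card this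
    rw [Fin.card_Iic] at h2
    exact h2
  · intro h
    by_contra hcon
    push_neg at hcon
    have : univ.filter (fun b => k b ≤ m) ⊆ Finset.Iio a := by
      intro b hb
      simp only [mem_filter, mem_univ, true_and] at hb
      rw [mem_Iio]
      by_contra h5
      have := hk.monotone (not_lt.mp h5)
      omega
    have h2 := Finset.card_le_card this
    rw [Fin.card_Iio] at h2
    unfold Nc at h
    omega

lemma Nc_eq_sum {s : ℕ} (k : Fin s → ℤ) (m : ℤ) :
    (Nc k m : ℤ) = ∑ a, if k a ≤ m then (1 : ℤ) else 0 := by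
  unfold Nc; rw [Finset.card_filter]; push_cast; rfl

lemma Nc_le {s : ℕ} {k : Fin (s + 1) → ℤ} {l : Fin s → ℤ}
    (h : ∀ i : Fin s, k i.castSucc ≤ l i ∧ l i ≤ k i.succ) (m : ℤ) :
    Nc l m ≤ Nc k m ∧ Nc k m ≤ Nc l m + 1 := by
  have h1 := Nc_eq_sum k m
  have h2 := Nc_eq_sum l m
  have h3 : (Nc l m : ℤ) ≤ Nc k m := by
    rw [h1, h2, Fin.sum_univ_castSucc]
    have : ∑ a, (if l a ≤ m then (1 : ℤ) else 0) ≤ ∑ a : Fin s, if k a.castSucc ≤ m then (1 : ℤ) else 0 := by
      apply Finset.sum_le_sum
      intro a _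
      have := (h a).1
      split_ifs <;> first | omega | norm_num
    have h5 : (0 : ℤ) ≤ if k (Fin.last s) ≤ m then (1 : ℤ) else 0 := by split_ifs <;> norm_num
    linarith
  have h4 : (Nc k m : ℤ) ≤ Nc l m + 1 := by
    rw [h1, h2, Fin.sum_univ_succ]
    have : ∑ a : Fin s, (if k a.succ ≤ m then (1 : ℤ) else 0) ≤ ∑ a, if l a ≤ m then (1 : ℤ) else 0 := by
      apply Finset.sum_le_sum
      intro a _
      have := (h a).2
      split_ifs <;> first | omega | norm_num
    have h5 : (if k 0 ≤ m then (1 : ℤ) else 0) ≤ 1 := by split_ifs <;> norm_num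
    linarith
  exact ⟨by exact_mod_cast h3, by exact_mod_cast h4⟩

lemma of_Nc {s : ℕ} {k : Fin (s + 1) → ℤ} {l : Fin s → ℤ} (hk : StrictMono k) (hl : StrictMono l)
    (hk1 : ∀ a, 1 ≤ k a) (hl1 : ∀ a, 1 ≤ l a)
    (h : ∀ m : ℕ, Nc l m ≤ Nc k m ∧ Nc k m ≤ Nc l m + 1) (i : Fin s) :
    k i.castSucc ≤ l i ∧ l i ≤ k i.succ := by
  constructor
  · obtain ⟨m, hm⟩ : ∃ m : ℕ, (m : ℤ) = l i := ⟨(l i).toNat, by have := hl1 i; omega⟩
    rw [← hm, le_iff_Nc hk]
    have h1 := (le_iff_Nc hl i m).mp hm.symm.le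
    have h2 := (h m).1
    simp only [Fin.val_castSucc]
    omega
  · obtain ⟨m, hm⟩ : ∃ m : ℕ, (m : ℤ) = k i.succ :=
      ⟨(k i.succ).toNat, by have := hk1 i.succ; omega⟩
    rw [← hm, le_iff_Nc hl]
    have h1 := (le_iff_Nc hk i.succ m).mp hm.symm.le
    have h2 := (h m).2
    simp only [Fin.val_succ] at h1
    omega

/-- indicator of the values of `k`, position `b` standing for the value `b + 1` -/
def ind {s : ℕ} (k : Fin s → ℤ) (b : ℕ) : ℤ := ∑ a, if k a = (b : ℤ) + 1 then (1 : ℤ) else 0

lemma ind_eq {s : ℕ} {k : Fin s → ℤ} (hk : StrictMono k) (b : ℕ) :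
    (ind k b = 1 ∧ ∃ a, k a = (b : ℤ) + 1) ∨ (ind k b = 0 ∧ ∀ a, k a ≠ (b : ℤ) + 1) := by
  by_cases h : ∃ a, k a = (b : ℤ) + 1
  · left
    refine ⟨?_, h⟩
    obtain ⟨a, ha⟩ := h
    unfold ind
    rw [Finset.sum_eq_single a]
    · rw [if_pos ha]
    · intro c _ hc
      rw [if_neg]
      intro h2
      exact hc (hk.injective (h2.trans ha.symm))
    · intro h2; exact absurd (mem_univ a) h2
  · right
    push_neg at h
    refine ⟨?_, h⟩
    unfold ind
    apply Finset.sum_eq_zero
    intro a _
    rw [if_neg (h a)]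

lemma sum_ind {s : ℕ} (k : Fin s → ℤ) (hk1 : ∀ a, 1 ≤ k a) (m : ℕ) :
    ∑ b ∈ range m, ind k b = Nc k m := by
  rw [Nc_eq_sum]
  unfold ind
  rw [Finset.sum_comm]
  apply Finset.sum_congr rfl
  intro a _
  have h1 := hk1 a
  obtain ⟨c, hc⟩ : ∃ c : ℕ, k a = (c : ℤ) + 1 := ⟨(k a - 1).toNat, by omega⟩
  rw [hc]
  have h2 : ∀ b ∈ range m, (if (c : ℤ) + 1 = (b : ℤ) + 1 then (1 : ℤ) else 0)
      = if c = b then 1 else 0 := by
    intro b _
    by_cases h : c = b
    · rw [if_pos h, if_pos (by omega)]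
    · rw [if_neg h, if_neg (by omega)]
  rw [Finset.sum_congr rfl h2, Finset.sum_ite_eq]
  by_cases h : c < m
  · rw [if_pos (mem_range.mpr h), if_pos (by omega)]
  · rw [if_neg (by rw [mem_range]; exact h), if_neg (by omega)]

lemma ind_inj {s : ℕ} {k l : Fin s → ℤ} (hk : StrictMono k) (hl : StrictMono l)
    (hk1 : ∀ a, 1 ≤ k a) (hl1 : ∀ a, 1 ≤ l a) (h : ∀ b, ind k b = ind l b) : k = l := by
  have key : ∀ {k l : Fin s → ℤ}, StrictMono k → StrictMono l → (∀ a, 1 ≤ k a) →
      (∀ b, ind k b = ind l b) → Set.range k ⊆ Set.range l := by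
    intro k l hk hl hk1 h
    rintro _ ⟨a, rfl⟩
    obtain ⟨c, hc⟩ : ∃ c : ℕ, k a = (c : ℤ) + 1 := ⟨(k a - 1).toNat, by have := hk1 a; omega⟩
    rcases ind_eq hk c with ⟨h1, _⟩ | ⟨_, h2⟩
    · rcases ind_eq hl c with ⟨_, a', ha'⟩ | ⟨h3, _⟩
      · exact ⟨a', by rw [ha', hc]⟩
      · rw [h c, h3] at h1; norm_num at h1
    · exact absurd hc (h2 a)
  have h1 : Set.range k = Set.range l :=
    Set.Subset.antisymm (key hk hl hk1 h) (key hl hk hl1 (fun b => (h b).symm))
  exact (StrictMono.range_inj hk hl).mp h1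

/-- partial alternating sign arrays with `i` rows, `n` columns and column sums `c` -/
structure PA (n i : ℕ) (c : ℕ → ℤ) (f : ℕ → ℕ → ℤ) : Prop where
  zero : ∀ a b, ¬ (a < i ∧ b < n) → f a b = 0
  row : ∀ a, a < i → ∀ m, (∑ k ∈ range m, f a k = 0 ∨ ∑ k ∈ range m, f a k = 1)
  row_tot : ∀ a, a < i → ∑ k ∈ range n, f a k = 1
  col : ∀ m b, (∑ a ∈ range m, f a b = 0 ∨ ∑ a ∈ range m, f a b = 1)
  col_tot : ∀ b, ∑ a ∈ range i, f a b = c b

lemma Nc_top {s : ℕ} (k : Fin s → ℤ) (n : ℕ) (h : ∀ a, k a ≤ n) : Nc k n = s := by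
  unfold Nc
  rw [Finset.filter_true_of_mem (fun a _ => h a)]
  simp

lemma F_bd {i : ℕ} {n : ℕ} {k : Fin (i + 1) → ℤ} (hb : ∀ a, 1 ≤ k a ∧ k a ≤ n)
    {l : Fin i → ℤ} (hl : l ∈ F k) (a : Fin i) : 1 ≤ l a ∧ l a ≤ n := by
  rw [mem_F] at hl
  exact ⟨(hb _).1.trans (hl.1 a).1, (hl.1 a).2.trans (hb _).2⟩

lemma sum_tail {f : ℕ → ℕ → ℤ} {i : ℕ} (hz : ∀ a b, i ≤ a → f a b = 0) {m : ℕ} (hm : i ≤ m) (b : ℕ) :
    ∑ a ∈ range m, f a b = ∑ a ∈ range i, f a b := by
  obtain ⟨d, rfl⟩ : ∃ d, m = i + d := ⟨m - i, by omega⟩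
  rw [Finset.sum_range_add, Finset.sum_eq_zero (s := range d) (fun a _ => hz (i + a) b (by omega)),
    add_zero]

/-- adding a row -/
lemma PA_add {n i : ℕ} {k : Fin (i + 1) → ℤ} (hk : StrictMono k) (hb : ∀ a, 1 ≤ k a ∧ k a ≤ n)
    {l : Fin i → ℤ} (hl : l ∈ F k) {f : ℕ → ℕ → ℤ} (hf : PA n i (ind l) f) :
    PA n (i + 1) (ind k) (fun a b => if a = i then ind k b - ind l b else f a b) := by
  have hlb := F_bd hb hl
  have hl' := (mem_F k l).mp hl
  have hz0 : ∀ {s : ℕ} (k : Fin s → ℤ), (∀ a, 1 ≤ k a ∧ k a ≤ n) → ∀ b, n ≤ b → ind k b = 0 := by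
    intro s k hb b hnb
    unfold ind
    apply Finset.sum_eq_zero
    intro a _
    rw [if_neg]
    have := (hb a).2
    omega
  have hrow : ∀ m, ∑ b ∈ range m, (ind k b - ind l b) = (Nc k m : ℤ) - Nc l m := by
    intro m
    rw [Finset.sum_sub_distrib, sum_ind k (fun a => (hb a).1), sum_ind l (fun a => (hlb a).1)]
  refine ⟨?_, ?_, ?_, ?_, ?_⟩
  · intro a b h
    by_cases ha : a = i
    · rw [if_pos ha, hz0 k hb b (by omega), hz0 l hlb b (by omega), sub_zero]
    · rw [if_neg ha]; exact hf.zero a b (by omega)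
  · intro a ha m
    by_cases hai : a = i
    · simp only [hai, if_true]
      rw [hrow]
      have := Nc_le hl'.1 m
      omega
    · simp only [hai, if_false]
      exact hf.row a (by omega) m
  · intro a ha
    by_cases hai : a = i
    · simp only [hai, if_true]
      rw [hrow, Nc_top k n (fun a => (hb a).2), Nc_top l n (fun a => (hlb a).2)]
      push_cast; ring
    · simp only [hai, if_false]
      exact hf.row_tot a (by omega)
  · intro m b
    by_cases hm : m ≤ i
    · have : ∑ a ∈ range m, (if a = i then ind k b - ind l b else f a b) = ∑ a ∈ range m, f a b := by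
        apply Finset.sum_congr rfl
        intro a ha
        rw [mem_range] at ha
        rw [if_neg (by omega)]
      rw [this]
      exact hf.col m b
    · have h1 : ∑ a ∈ range m, (if a = i then ind k b - ind l b else f a b)
          = ∑ a ∈ range (i + 1), (if a = i then ind k b - ind l b else f a b) :=
        sum_tail (f := fun a b => if a = i then ind k b - ind l b else f a b) (i := i + 1)
          (fun a b ha => by
            rw [if_neg (by omega)]
            exact hf.zero a b (by omega)) (by omega) b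
      have h2 : ∑ a ∈ range i, (if a = i then ind k b - ind l b else f a b) = ind l b := by
        rw [← hf.col_tot b]
        apply Finset.sum_congr rfl
        intro a ha
        rw [mem_range] at ha
        rw [if_neg (by omega)]
      rw [h1, Finset.sum_range_succ, h2, if_pos rfl, add_sub_cancel]
      rcases ind_eq hk b with ⟨h3, _⟩ | ⟨h3, _⟩
      · exact Or.inr h3
      · exact Or.inl h3
  · intro b
    have h2 : ∑ a ∈ range i, (if a = i then ind k b - ind l b else f a b) = ind l b := by
      rw [← hf.col_tot b]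
      apply Finset.sum_congr rfl
      intro a ha
      rw [mem_range] at ha
      rw [if_neg (by omega)]
    rw [Finset.sum_range_succ, h2, if_pos rfl, add_sub_cancel]

/-- removing a row -/
lemma PA_remove {n i : ℕ} {k : Fin (i + 1) → ℤ} (hk : StrictMono k)
    (hb : ∀ a, 1 ≤ k a ∧ k a ≤ n) {f : ℕ → ℕ → ℤ} (hf : PA n (i + 1) (ind k) f) :
    ∃ l, l ∈ F k ∧ PA n i (ind l) (fun a b => if a = i then 0 else f a b) ∧
      ∀ b, f i b = ind k b - ind l b := by
  classical
  set c : ℕ → ℤ := fun b => ∑ a ∈ range i, f a b with hc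
  have hck : ∀ b, c b + f i b = ind k b := by
    intro b
    have := hf.col_tot b
    rw [Finset.sum_range_succ] at this
    exact this
  have hcv : ∀ b, c b = 0 ∨ c b = 1 := fun b => hf.col i b
  have hcz : ∀ b, n ≤ b → c b = 0 := by
    intro b hb'
    apply Finset.sum_eq_zero
    intro a _
    exact hf.zero a b (by omega)
  set S : Finset ℕ := (range n).filter (fun b => c b = 1) with hS
  have hcS : ∀ b, c b = if b ∈ S then 1 else 0 := by
    intro b
    by_cases h : b ∈ S
    · rw [if_pos h]; rw [hS, mem_filter] at h; exact h.2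
    · rw [if_neg h]
      rw [hS, mem_filter, mem_range] at h
      by_cases h2 : b < n
      · rcases hcv b with h3 | h3
        · exact h3
        · exact absurd ⟨h2, h3⟩ h
      · exact hcz b (by omega)
  have hcard : S.card = i := by
    have h1 : ∑ b ∈ range n, c b = (S.card : ℤ) := by
      rw [hS, Finset.card_filter]
      push_cast
      apply Finset.sum_congr rfl
      intro b _
      rcases hcv b with h3 | h3 <;> rw [h3] <;> simp
    have h2 : ∑ b ∈ range n, c b + ∑ b ∈ range n, f i b = ∑ b ∈ range n, ind k b := by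
      rw [← Finset.sum_add_distrib]
      exact Finset.sum_congr rfl (fun b _ => hck b)
    rw [hf.row_tot i (by omega), sum_ind k (fun a => (hb a).1),
      Nc_top k n (fun a => (hb a).2), h1] at h2
    push_cast at h2
    omega
  set l : Fin i → ℤ := fun a => ((S.orderEmbOfFin hcard a : ℕ) : ℤ) + 1 with hl
  have hlm : StrictMono l := by
    intro a b hab
    have : S.orderEmbOfFin hcard a < S.orderEmbOfFin hcard b :=
      (S.orderEmbOfFin hcard).strictMono hab
    simp only [hl]
    omega
  have hl1 : ∀ a, 1 ≤ l a := by intro a; simp only [hl]; omega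
  have hlc : ∀ b, ind l b = c b := by
    intro b
    rw [hcS b]
    have hr := Finset.range_orderEmbOfFin S hcard
    rcases ind_eq hlm b with ⟨h1, a, ha⟩ | ⟨h1, h2⟩
    · rw [h1, if_pos]
      have : S.orderEmbOfFin hcard a = b := by simp only [hl] at ha; omega
      rw [← this]
      exact Finset.orderEmbOfFin_mem S hcard a
    · rw [h1, if_neg]
      intro hbS
      have : b ∈ Set.range (S.orderEmbOfFin hcard) := by rw [hr]; exact hbS
      obtain ⟨a, ha⟩ := this
      apply h2 a
      simp only [hl]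
      rw [ha]
  have hfi : ∀ b, f i b = ind k b - ind l b := by
    intro b; rw [hlc b, ← hck b]; ring
  refine ⟨l, ?_, ?_, hfi⟩
  · rw [mem_F]
    refine ⟨fun a => of_Nc hk hlm (fun a => (hb a).1) hl1 ?_ a, hlm⟩
    intro m
    have h1 := sum_ind k (fun a => (hb a).1) m
    have h2 := sum_ind l hl1 m
    have h3 : ∑ b ∈ range m, f i b = (Nc k m : ℤ) - Nc l m := by
      rw [← h1, ← h2, ← Finset.sum_sub_distrib]
      exact Finset.sum_congr rfl (fun b _ => hfi b)
    have h4 := hf.row i (by omega) m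
    rw [h3] at h4
    omega
  · have hs : ∀ m b, m ≤ i → ∑ a ∈ range m, (if a = i then 0 else f a b) = ∑ a ∈ range m, f a b := by
      intro m b hm
      apply Finset.sum_congr rfl
      intro a ha
      rw [mem_range] at ha
      rw [if_neg (by omega)]
    refine ⟨?_, ?_, ?_, ?_, ?_⟩
    · intro a b h
      by_cases ha : a = i
      · rw [if_pos ha]
      · rw [if_neg ha]; exact hf.zero a b (by omega)
    · intro a ha m
      simp only [show a ≠ i by omega, if_false]
      exact hf.row a (by omega) m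
    · intro a ha
      simp only [show a ≠ i by omega, if_false]
      exact hf.row_tot a (by omega)
    · intro m b
      by_cases hm : m ≤ i
      · rw [hs m b hm]; exact hf.col m b
      · have h1 : ∑ a ∈ range m, (if a = i then 0 else f a b)
          = ∑ a ∈ range i, (if a = i then 0 else f a b) :=
          sum_tail (f := fun a b => if a = i then 0 else f a b) (i := i)
            (fun a b ha => by
              by_cases h5 : a = i
              · rw [if_pos h5]
              · rw [if_neg h5]; exact hf.zero a b (by omega)) (by omega) b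
        rw [h1, hs i b le_rfl]; exact hf.col i b
    · intro b
      rw [hs i b le_rfl, hlc b]

lemma numMT_succ {i : ℕ} (k : Fin (i + 1) → ℤ) (hk : StrictMono k) :
    numMT (i + 1) k = ∑ l ∈ F k, numMT i l := by
  have e := triEquiv i k hk
  have hf : ∀ l : {l // l ∈ F k}, Finite {t // IsMonTri i l.1 t} := fun l =>
    (count i l.1 ((mem_F _ _).mp l.2).2).1
  unfold numMT
  rw [Nat.card_congr e, Nat.card_sigma, ← Finset.sum_coe_sort (F k)
    (fun l => Nat.card {t // IsMonTri i l t})]

theorem PA_count (n : ℕ) (i : ℕ) : ∀ k : Fin i → ℤ, StrictMono k →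
    (∀ a, 1 ≤ k a ∧ k a ≤ n) →
    Finite {f // PA n i (ind k) f} ∧ Nat.card {f // PA n i (ind k) f} = numMT i k := by
  induction i with
  | zero =>
    intro k hk _
    have h0 : ∀ b, ind k b = 0 := by intro b; simp [ind]
    have h1 : ∀ f, PA n 0 (ind k) f ↔ f = 0 := by
      intro f
      constructor
      · intro h; funext a b; exact h.zero a b (by omega)
      · rintro rfl
        exact ⟨fun _ _ _ => rfl, fun _ h => by omega, fun _ h => by omega,
          fun m b => Or.inl (by simp), fun b => by rw [h0]; simp⟩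
    have h2 : Unique {f // PA n 0 (ind k) f} :=
      { default := ⟨0, (h1 0).mpr rfl⟩
        uniq := fun t => Subtype.ext ((h1 _).mp t.2) }
    refine ⟨inferInstance, ?_⟩
    have h3 := (count 0 k hk).2
    simp [al_zero] at h3
    rw [Nat.card_unique]
    exact_mod_cast h3.symm
  | succ i ih =>
    intro k hk hb
    have hF : ∀ l : {l // l ∈ F k}, Finite {f // PA n i (ind l.1) f} := fun l =>
      (ih l.1 ((mem_F _ _).mp l.2).2 (F_bd hb l.2)).1
    let Φ : (Σ l : {l // l ∈ F k}, {f // PA n i (ind l.1) f}) → {f // PA n (i + 1) (ind k) f} :=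
      fun p => ⟨_, PA_add hk hb p.1.2 p.2.2⟩
    have hΦ : Function.Bijective Φ := by
      constructor
      · rintro ⟨⟨l, hl⟩, ⟨f, hf⟩⟩ ⟨⟨l', hl'⟩, ⟨f', hf'⟩⟩ h
        have h1 := congrArg Subtype.val h
        simp only [Φ] at h1 hf hf'
        have h2 : ∀ b, ind l b = ind l' b := by
          intro b
          have := congrFun (congrFun h1 i) b
          simp only [if_true] at this
          linarith
        have h3 : l = l' := ind_inj ((mem_F _ _).mp hl).2 ((mem_F _ _).mp hl').2
          (fun a => (F_bd hb hl a).1) (fun a => (F_bd hb hl' a).1) h2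
        subst h3
        have h4 : f = f' := by
          funext a b
          by_cases ha : a = i
          · rw [hf.zero a b (by omega), hf'.zero a b (by omega)]
          · have := congrFun (congrFun h1 a) b
            simp only [ha, if_false] at this
            exact this
        subst h4
        rfl
      · rintro ⟨f, hf⟩
        obtain ⟨l, hl, hg, hfi⟩ := PA_remove hk hb hf
        refine ⟨⟨⟨l, hl⟩, ⟨_, hg⟩⟩, ?_⟩
        apply Subtype.ext
        funext a b
        simp only [Φ]
        by_cases ha : a = i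
        · rw [if_pos ha, ha, hfi b]
        · rw [if_neg ha, if_neg ha]
    have e := Equiv.ofBijective Φ hΦ
    refine ⟨Finite.of_equiv _ e, ?_⟩
    rw [← Nat.card_congr e, Nat.card_sigma, numMT_succ k hk,
      ← Finset.sum_coe_sort (F k) (fun l => numMT i l)]
    apply Finset.sum_congr rfl
    intro l _
    exact (ih l.1 ((mem_F _ _).mp l.2).2 (F_bd hb l.2)).2

end Pool.Agent.R730.MT
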