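import Pool.Agent.R730.MT.Lists

/-!
Reversal invariance of the functional, and the values at rows with one hole and one descent.
-/

namespace Pool.Agent.R730.MT

open Finset MulOpposite

/-! ### words span -/

lemma io_mul_mem (v : V) (w : A) (hw : w ∈ Submodule.span ℚ (Set.range wd)) :
    io v * w ∈ Submodule.span ℚ (Set.range wd) := by
  induction v using Finsupp.induction_linear with
  | zero => simp
  | add f g hf hg => rw [map_add, add_mul]; exact Submodule.add_mem _ hf hg
  | single j c =>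
    have h1 : (Finsupp.single j c : V) = c • e j := by simp [e]
    rw [h1, map_smul, smul_mul_assoc]
    apply Submodule.smul_mem
    change x j * w ∈ _
    induction hw using Submodule.span_induction with
    | mem y hy =>
      obtain ⟨l, rfl⟩ := hy
      exact Submodule.subset_span ⟨j :: l, by simp⟩
    | zero => simp
    | add y z _ _ hy hz => rw [mul_add]; exact Submodule.add_mem _ hy hz
    | smul a y _ hy => rw [mul_smul_comm]; exact Submodule.smul_mem _ _ hy

lemma mk_mul_mem (t : TensorAlgebra ℚ V) : ∀ w : A, w ∈ Submodule.span ℚ (Set.range wd) →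
    mk t * w ∈ Submodule.span ℚ (Set.range wd) := by
  induction t using TensorAlgebra.induction with
  | algebraMap r =>
    intro w hw
    rw [AlgHom.commutes, ← Algebra.smul_def]
    exact Submodule.smul_mem _ _ hw
  | ι v => intro w hw; exact io_mul_mem v w hw
  | mul a b ha hb => intro w hw; rw [map_mul, mul_assoc]; exact ha _ (hb _ hw)
  | add a b ha hb => intro w hw; rw [map_add, add_mul]; exact Submodule.add_mem _ (ha _ hw) (hb _ hw)

lemma mem_span_wd (a : A) : a ∈ Submodule.span ℚ (Set.range wd) := by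
  obtain ⟨t, rfl⟩ := RingQuot.mkAlgHom_surjective ℚ Rel a
  have h := mk_mul_mem t 1 (Submodule.subset_span ⟨[], by simp⟩)
  rw [mul_one] at h
  exact h

lemma A_ext {M : Type*} [AddCommGroup M] [Module ℚ M] (f g : A →ₗ[ℚ] M)
    (h : ∀ l, f (wd l) = g (wd l)) (a : A) : f a = g a := by
  have := mem_span_wd a
  induction this using Submodule.span_induction with
  | mem y hy => obtain ⟨l, rfl⟩ := hy; exact h l
  | zero => simp
  | add y z _ _ hy hz => rw [map_add, map_add, hy, hz]
  | smul c y _ hy => rw [map_smul, map_smul, hy]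

/-! ### reversal -/

/-- reversal -/
noncomputable def rr (c : ℤ) : A →ₗ[ℚ] A :=
  (opLinearEquiv ℚ).symm.toLinearMap ∘ₗ (rv c).toLinearMap

lemma rr_apply (c : ℤ) (a : A) : rr c a = unop (rv c a) := rfl

lemma rr_mul (c : ℤ) (a b : A) : rr c (a * b) = rr c b * rr c a := by
  simp [rr_apply]

lemma rr_one (c : ℤ) : rr c 1 = 1 := by simp [rr_apply]

lemma rr_x (c j : ℤ) : rr c (x j) = x (c - j) := by simp [rr_apply]

lemma rr_io (c : ℤ) (v : V) : rr c (io v) = io (rho c v) := by
  rw [rr_apply]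
  have : rv c (io v) = op (io (rho c v)) := by unfold rv; rw [lift_io]; rfl
  rw [this]; rfl

lemma rr_run (c a : ℤ) (n : ℕ) : rr c (run a n) = run (c - a - n + 1) n := by
  rw [rr_apply, rv_run]; rfl

lemma rho_sv (c i : ℤ) : rho c (sv (c + 1 - i)) = rho c (sv (c + 1)) - sv i := by
  induction i using Int.induction_on with
  | zero => simp [sv_zero]
  | succ n ih =>
    have h1 := sv_succ (c + 1 - (n + 1 : ℤ))
    have h2 : c + 1 - (n + 1 : ℤ) + 1 = c + 1 - n := by ring
    rw [h2] at h1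
    have h3 : sv (c + 1 - (n + 1 : ℤ)) = sv (c + 1 - n) - e (c + 1 - (n + 1 : ℤ)) := by
      rw [h1]; abel
    rw [h3, map_sub, ih, rho_e, sv_succ (n : ℤ)]
    have h4 : c - (c + 1 - ((n : ℤ) + 1)) = n := by ring
    rw [h4]; abel
  | pred n ih =>
    have h1 := sv_succ (c + 1 - (-(n : ℤ)))
    have h2 : c + 1 - (-(n : ℤ)) + 1 = c + 1 - (-(n : ℤ) - 1) := by ring
    rw [h2] at h1
    rw [h1, map_add, ih, rho_e]
    have h5 := sv_succ (-(n : ℤ) - 1)
    have h6 : -(n : ℤ) - 1 + 1 = -(n : ℤ) := by ring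
    rw [h6] at h5
    have h4 : c - (c + 1 - (-(n : ℤ))) = -(n : ℤ) - 1 := by ring
    rw [h4, h5]; abel

lemma rr_sg (c i j : ℤ) : rr c (sg (j + 1) - sg i) = sg (c - i + 1) - sg (c - j) := by
  have e1 : j + 1 = c + 1 - (c - j) := by ring
  have e2 : i = c + 1 - (c - i + 1) := by ring
  have h1 : rr c (sg (j + 1)) = rr c (io (sv (c + 1))) - sg (c - j) := by
    unfold sg
    rw [rr_io, e1, rho_sv, map_sub, rr_io]
  have h2 : rr c (sg i) = rr c (io (sv (c + 1))) - sg (c - i + 1) := by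
    unfold sg
    rw [rr_io]
    conv_lhs => rw [e2]
    rw [rho_sv, map_sub, rr_io]
  rw [map_sub, h1, h2]; abel

lemma R_rr_wd (c : ℤ) : ∀ (n : ℕ) (l : List ℤ), l.length = n →
    R (rr c (wd l)) = rr c (R (wd l)) := by
  intro n
  induction n using Nat.strong_induction_on with
  | _ n ih =>
  intro l hl
  match l, hl with
  | [], _ => simp [rr_one, R_one]
  | [i], _ => simp [rr_x, R_x, rr_one]
  | i :: j :: l, hl =>
    simp only [List.length_cons] at hl
    have h1 := ih (l.length + 1) (by omega) (j :: l) (by simp)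
    have h2 := ih l.length (by omega) l rfl
    rw [wd_cons] at h1
    rw [wd_cons, wd_cons, ← mul_assoc, R_split, rr_mul, rr_mul, ← mul_assoc, rr_x, rr_x, R_split]
    rw [R_xx, R_xx, R_x, R_x, mul_one, one_mul, map_sub, rr_mul, rr_mul, rr_mul,
      rr_x, rr_sg, h2]
    have h3 : rr c (wd l) * x (c - j) = rr c (x j * wd l) := by rw [rr_mul, rr_x]
    rw [h3, h1]

lemma R_rr (c : ℤ) (a : A) : R (rr c a) = rr c (R a) :=
  A_ext (R ∘ₗ rr c) (rr c ∘ₗ R) (fun l => R_rr_wd c l.length l rfl) a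

lemma ep_rr (c : ℤ) (a : A) : ep (rr c a) = ep a :=
  A_ext (ep.toLinearMap ∘ₗ rr c) ep.toLinearMap (fun l => by
    rcases l with _ | ⟨i, l⟩
    · simp [rr_one]
    · simp [rr_mul, rr_x]) a

theorem al_rr (c : ℤ) (n : ℕ) : ∀ a : A, al n (rr c a) = al n a := by
  induction n with
  | zero => intro a; rw [al_zero, al_zero, ep_rr]
  | succ n ih => intro a; rw [al_succ, al_succ, R_rr, ih]

/-! ### local identities -/

lemma q1 (i : ℤ) : x i * x (i + 1) = x i * x i + x (i + 1) * x (i + 1) := by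
  have := quad (e i)
  rw [Es_e] at this
  exact this

lemma q2 (i : ℤ) : x i * x (i + 2) + x (i + 1) * x (i + 1)
    = x i * x (i + 1) + x (i + 1) * x i + x (i + 1) * x (i + 2) + x (i + 2) * x (i + 1) := by
  have := quad2 (e i) (e (i + 1))
  rw [Es_e, Es_e, add_assoc i 1 1] at this
  exact this

lemma aba (i : ℤ) : x i * x (i + 1) * x i = x (i + 1) * x (i + 1) * x i := by
  rw [q1, add_mul, xxx, zero_add]

lemma bab (i : ℤ) : x (i + 1) * x i * x (i + 1) = x (i + 1) * (x i * x i) := by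
  rw [mul_assoc, q1, mul_add, ← mul_assoc (x (i + 1)) (x (i + 1)), xxx, add_zero]

lemma babaz (i : ℤ) : x (i + 1) * x (i + 1) * (x i * x i)
    = -(x (i + 1) * (x i * x i) * x (i + 1)) := by
  have c := cube2' (e i) (e (i + 1))
  change x i * x i * x (i + 1) = -(x i * x (i + 1) * x i) - x (i + 1) * x i * x i at c
  have h : x (i + 1) * (x i * x i) * x (i + 1) = x (i + 1) * (x i * x i * x (i + 1)) := by
    noncomm_ring
  rw [h, c, aba]
  have h2 : x (i + 1) * (-(x (i + 1) * x (i + 1) * x i) - x (i + 1) * x i * x i)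
      = -(x (i + 1) * x (i + 1) * x (i + 1) * x i) - x (i + 1) * x (i + 1) * (x i * x i) := by
    noncomm_ring
  rw [h2, xxx]; simp

lemma abab (i : ℤ) : x i * x (i + 1) * x i * x (i + 1) = x (i + 1) * x (i + 1) * (x i * x i) := by
  rw [aba, mul_assoc, q1, mul_add, ← mul_assoc (x (i + 1) * x (i + 1)) (x (i + 1)), xxx, zero_mul,
    add_zero]

lemma step_id (i : ℤ) : x i * x (i + 2) * x (i + 1) * x (i + 2)
    - x (i + 1) * x i * x (i + 1) * x (i + 2) = x i * (x (i + 1) * x (i + 1)) * x (i + 2) := by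
  have h1 : x i * x (i + 2) = x i * x (i + 1) + x (i + 1) * x i + x (i + 1) * x (i + 2)
      + x (i + 2) * x (i + 1) - x (i + 1) * x (i + 1) := by
    rw [← q2]; abel
  rw [h1]
  have h2 := abab (i + 1)
  have h3 := babaz (i + 1)
  have e2 : i + 1 + 1 = i + 2 := by ring
  rw [e2] at h2 h3
  have h4 : (x i * x (i + 1) + x (i + 1) * x i + x (i + 1) * x (i + 2)
      + x (i + 2) * x (i + 1) - x (i + 1) * x (i + 1)) * x (i + 1) * x (i + 2)
      - x (i + 1) * x i * x (i + 1) * x (i + 2)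
      = x i * (x (i + 1) * x (i + 1)) * x (i + 2)
        + (x (i + 1) * x (i + 2) * x (i + 1) * x (i + 2)
          + x (i + 2) * (x (i + 1) * x (i + 1)) * x (i + 2))
        - x (i + 1) * x (i + 1) * x (i + 1) * x (i + 2) := by noncomm_ring
  rw [h4, h2, h3, xxx]
  simp

lemma sum_id (i : ℤ) : x (i + 1) * x i * x (i + 1) + x i * x (i + 1) * x i
    = -(x i * x i * x (i + 1)) := by
  rw [bab]
  have c := cube2' (e i) (e (i + 1))
  change x i * x i * x (i + 1) = -(x i * x (i + 1) * x i) - x (i + 1) * x i * x i at c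
  rw [c]; noncomm_ring

/-- value at the row with one hole and one descent -/
noncomputable def Hv (p q : ℕ) : ℚ :=
  al (p + q + 3) (run 1 p * x (p + 2) * run (p + 1) (q + 2))

lemma run2 (a : ℤ) (q : ℕ) : run a (q + 2) = x a * x (a + 1) * run (a + 2) q := by
  rw [run_left, run_left, ← mul_assoc, add_assoc a 1 1]; rfl

lemma Hv_step (p q : ℕ) : Hv (p + 1) q = Hv p (q + 1) + al (p + q + 3) (run 1 (p + q + 3)) := by
  have h := al_T 1 (p + 1) 1 (q + 1)
  have e0 : p + 1 + 2 * 1 + (q + 1) = p + q + 4 := by ring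
  have e1 : p + 1 + 1 + (q + 1) = p + q + 3 := by ring
  rw [e0, e1] at h
  rw [← h, ← sub_eq_iff_eq_add']
  unfold Hv
  have e2 : p + 1 + q + 3 = p + q + 4 := by ring
  have e3 : p + (q + 1) + 3 = p + q + 4 := by ring
  rw [e2, e3, ← map_sub]
  congr 1
  set i : ℤ := (p : ℤ) + 1 with hi
  have a1 : ((p + 1 : ℕ) : ℤ) + 2 = i + 2 := by rw [hi]; push_cast; ring
  have a2 : ((p + 1 : ℕ) : ℤ) + 1 = i + 1 := by rw [hi]; push_cast; ring
  have a3 : (p : ℤ) + 2 = i + 1 := by rw [hi]; ring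
  have a4 : (1 : ℤ) + ((p + 1 : ℕ) : ℤ) = i + 1 := by rw [hi]; push_cast; ring
  have a5 : (1 : ℤ) + (p : ℤ) = i := by rw [hi]; ring
  have a6 : i + 1 + ((1 : ℕ) : ℤ) = i + 2 := by push_cast; ring
  rw [a1, a2, a3, a4, a6, run2 (i + 1) q, run_succ 1 p, a5]
  have r1 : run i (q + 1 + 2) = x i * x (i + 1) * (x (i + 2) * run (i + 3) q) := by
    rw [run2 i (q + 1), run_left, add_assoc i 2 1]; rfl
  have r2 : run (i + 2) (q + 1) = x (i + 2) * run (i + 3) q := by
    rw [run_left, add_assoc i 2 1]; rfl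
  have r3 : i + 1 + 2 = i + 3 := by ring
  have r4 : i + 1 + 1 = i + 2 := by ring
  rw [r1, r2, r3, r4]
  simp only [T, Nat.cast_zero, add_zero, mul_one]
  have s := step_id i
  have : run 1 p * x i * x (i + 2) * (x (i + 1) * x (i + 2) * run (i + 3) q)
      - run 1 p * x (i + 1) * (x i * x (i + 1) * (x (i + 2) * run (i + 3) q))
      = run 1 p * (x i * x (i + 2) * x (i + 1) * x (i + 2)
    - x (i + 1) * x i * x (i + 1) * x (i + 2)) * run (i + 3) q := by noncomm_ring
  rw [this, s]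
  noncomm_ring

lemma Hv_sum (p q : ℕ) : Hv p q + Hv q p = -al (p + q + 2) (run 1 (p + q + 2)) := by
  have h := al_T 1 p 1 (q + 1)
  have e0 : p + 2 * 1 + (q + 1) = p + q + 3 := by ring
  have e1 : p + 1 + (q + 1) = p + q + 2 := by ring
  rw [e0, e1] at h
  rw [← h]
  unfold Hv
  have e2 : q + p + 3 = p + q + 3 := by ring
  rw [e2, ← al_rr ((p : ℤ) + q + 3) _ (run 1 q * x (q + 2) * run (q + 1) (p + 2)), ← map_add,
    ← map_neg]
  congr 1
  rw [run2, run2, rr_mul, rr_mul, rr_mul, rr_mul, rr_run, rr_run, rr_x, rr_x, rr_x]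
  set i : ℤ := (p : ℤ) + 1 with hi
  have a1 : (p : ℤ) + 2 = i + 1 := by rw [hi]; ring
  have a2 : (p : ℤ) + q + 3 - ((q : ℤ) + 1 + 2) - p + 1 = 1 := by ring
  have a3 : (p : ℤ) + q + 3 - ((q : ℤ) + 1 + 1) = i := by rw [hi]; ring
  have a4 : (p : ℤ) + q + 3 - ((q : ℤ) + 1) = i + 1 := by rw [hi]; ring
  have a5 : (p : ℤ) + q + 3 - ((q : ℤ) + 2) = i := by rw [hi]; ring
  have a6 : (p : ℤ) + q + 3 - 1 - q + 1 = i + 2 := by rw [hi]; ring
  have a7 : (1 : ℤ) + (p : ℤ) = i := by rw [hi]; ring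
  rw [a1, a2, a3, a4, a5, a6, a7]
  have a8 : i + ((1 : ℕ) : ℤ) = i + 1 := by push_cast; ring
  rw [a8, run_left (i + 1) q]
  have a9 : i + 1 + 1 = i + 2 := by ring
  rw [a9]
  simp only [T, Nat.cast_zero, add_zero, mul_one]
  have s := sum_id i
  have : run 1 p * x (i + 1) * (x i * x (i + 1) * run (i + 2) q)
      + run 1 p * (x i * x (i + 1)) * (x i * run (i + 2) q)
      = run 1 p * (x (i + 1) * x i * x (i + 1) + x i * x (i + 1) * x i) * run (i + 2) q := by
    noncomm_ring
  have t1 : run 1 p * x (i + 1) * (x i * x (i + 1) * run (i + 2) q) +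
      run 1 p * (x i * x (i + 1)) * (x i * run (i + 2) q)
      = -(run 1 p * (x i * x i) * (x (i + 1) * run (i + 2) q)) := by
    rw [this, s]; noncomm_ring
  rw [← t1]

theorem Hv_eq (p q : ℕ) : Hv p q
    = ((p : ℚ) - q - 1) / 2 * al (p + q + 2) (run 1 (p + q + 2)) := by
  have h1 : ∀ p q : ℕ, Hv p q = Hv 0 (p + q) + p * al (p + q + 2) (run 1 (p + q + 2)) := by
    intro p
    induction p with
    | zero => intro q; simp
    | succ p ih =>
      intro q
      rw [Hv_step, ih (q + 1)]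
      have e1 : p + (q + 1) = p + 1 + q := by ring
      have e2 : p + q + 3 = p + 1 + q + 2 := by ring
      rw [e1, e2]
      push_cast
      ring
  have h2 := Hv_sum (p + q) 0
  have h3 := h1 (p + q) 0
  have h4 := h1 p q
  simp only [add_zero] at h2 h3
  rw [h3] at h2
  rw [h4]
  have h5 : Hv 0 (p + q) = -((p + q + 1 : ℕ) : ℚ) / 2 * al (p + q + 2) (run 1 (p + q + 2)) := by
    push_cast at h2 ⊢
    linarith
  rw [h5]
  push_cast
  ring

end Pool.Agent.R730.MT
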