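import Pool.Agent.R730.MT.ASM
import Pool.Agent.R730.MT.Hole

/-!
The total number of alternating sign matrices and the refined numbers.
-/

namespace Pool.Agent.R730.MT

open Finset

/-- the row `1, ..., n` -/
def k0 (n : ℕ) : Fin n → ℤ := fun a => 1 + (a : ℕ)

lemma k0_mono (n : ℕ) : StrictMono (k0 n) := by
  intro a b hab
  have : (a : ℕ) < b := hab
  simp only [k0]
  omega

lemma k0_bd (n : ℕ) (a : Fin n) : 1 ≤ k0 n a ∧ k0 n a ≤ n := by
  simp only [k0]
  omega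

lemma ind_k0 (n b : ℕ) : ind (k0 n) b = if b < n then 1 else 0 := by
  rcases ind_eq (k0_mono n) b with ⟨h1, a, ha⟩ | ⟨h1, h2⟩
  · rw [h1, if_pos]
    simp only [k0] at ha
    omega
  · rw [h1, if_neg]
    intro hb
    apply h2 ⟨b, hb⟩
    simp only [k0]
    ring

lemma ps_of {n : ℕ} (g : ℕ → ℤ) (hg : ∀ k, n ≤ k → g k = 0) (m : ℕ) :
    ps (fun j : Fin n => g j) m = ∑ k ∈ range m, g k := by
  unfold ps
  apply Finset.sum_congr rfl
  intro k _
  unfold zx
  by_cases h : k < n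
  · rw [dif_pos h]
  · rw [dif_neg h, hg k (by omega)]

/-- matrices as arrays -/
def mf {n : ℕ} (M : Matrix (Fin n) (Fin n) ℤ) (a b : ℕ) : ℤ :=
  if h : a < n ∧ b < n then M ⟨a, h.1⟩ ⟨b, h.2⟩ else 0

lemma mf_row {n : ℕ} (M : Matrix (Fin n) (Fin n) ℤ) (a : Fin n) (m : ℕ) :
    ∑ k ∈ range m, mf M a k = ps (fun j => M a j) m := by
  have : (fun j : Fin n => M a j) = fun j : Fin n => mf M a j := by
    funext j; unfold mf; rw [dif_pos ⟨a.2, j.2⟩]
  rw [this, ps_of (fun k => mf M a k)]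
  intro k hk
  unfold mf; rw [dif_neg (by omega)]

lemma mf_col {n : ℕ} (M : Matrix (Fin n) (Fin n) ℤ) (b : Fin n) (m : ℕ) :
    ∑ k ∈ range m, mf M k b = ps (fun i => M i b) m := by
  have : (fun j : Fin n => M j b) = fun j : Fin n => mf M j b := by
    funext j; unfold mf; rw [dif_pos ⟨j.2, b.2⟩]
  rw [this, ps_of (fun k => mf M k b)]
  intro k hk
  unfold mf; rw [dif_neg (by omega)]

/-- alternating sign matrices as arrays -/
noncomputable def asmEquiv (n : ℕ) :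
    {M : Matrix (Fin n) (Fin n) ℤ // IsASM M} ≃ {f // PA n n (ind (k0 n)) f} where
  toFun M := ⟨mf M.1, by
    obtain ⟨M, hM⟩ := M
    refine ⟨?_, ?_, ?_, ?_, ?_⟩
    · intro a b h; unfold mf; rw [dif_neg h]
    · intro a ha m
      rw [mf_row M ⟨a, ha⟩]
      exact ((isAlt_iff _).mp (hM.1 ⟨a, ha⟩)).1 m
    · intro a ha
      rw [mf_row M ⟨a, ha⟩]
      exact ((isAlt_iff _).mp (hM.1 ⟨a, ha⟩)).2
    · intro m b
      by_cases hb : b < n
      · rw [mf_col M ⟨b, hb⟩]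
        exact ((isAlt_iff _).mp (hM.2 ⟨b, hb⟩)).1 m
      · left
        apply Finset.sum_eq_zero
        intro a _
        unfold mf; rw [dif_neg (by omega)]
    · intro b
      rw [ind_k0]
      by_cases hb : b < n
      · rw [mf_col M ⟨b, hb⟩, if_pos hb]
        exact ((isAlt_iff _).mp (hM.2 ⟨b, hb⟩)).2
      · rw [if_neg hb]
        apply Finset.sum_eq_zero
        intro a _
        unfold mf; rw [dif_neg (by omega)]⟩
  invFun f := ⟨fun i j => f.1 i j, by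
    obtain ⟨f, hf⟩ := f
    simp only
    constructor
    · intro i
      rw [isAlt_iff]
      have h := ps_of (n := n) (fun k => f i k) (fun k hk => hf.zero _ _ (by omega))
      exact ⟨fun m => by rw [h]; exact hf.row i i.2 m, by rw [h]; exact hf.row_tot i i.2⟩
    · intro j
      rw [isAlt_iff]
      have h := ps_of (n := n) (fun k => f k j) (fun k hk => hf.zero _ _ (by omega))
      refine ⟨fun m => by rw [h]; exact hf.col m j, ?_⟩
      rw [h, hf.col_tot, ind_k0, if_pos j.2]⟩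
  left_inv M := by
    obtain ⟨M, hM⟩ := M
    apply Subtype.ext
    funext i j
    simp only [mf]
    rw [dif_pos ⟨i.2, j.2⟩]
  right_inv f := by
    obtain ⟨f, hf⟩ := f
    apply Subtype.ext
    funext a b
    simp only [mf]
    by_cases h : a < n ∧ b < n
    · rw [dif_pos h]
    · rw [dif_neg h, hf.zero a b h]

lemma ofFn_k0 (n : ℕ) : List.ofFn (k0 n) = up 1 n := by
  unfold up k0
  rw [List.ofFn_eq_map, ← List.map_coe_finRange_eq_range, List.map_map]
  rfl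

theorem card_ASM (n : ℕ) : Finite {M : Matrix (Fin n) (Fin n) ℤ // IsASM M} ∧
    (Nat.card {M : Matrix (Fin n) (Fin n) ℤ // IsASM M} : ℚ) = al n (run 1 n) := by
  have h := PA_count n n (k0 n) (k0_mono n) (k0_bd n)
  have hf := h.1
  refine ⟨Finite.of_equiv _ (asmEquiv n).symm, ?_⟩
  rw [Nat.card_congr (asmEquiv n), h.2, (count n _ (k0_mono n)).2, ofFn_k0, wd_up]

lemma first_row {n : ℕ} {M : Matrix (Fin n) (Fin n) ℤ} (hM : IsASM M) (hn : 0 < n) (j : Fin n) :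
    M ⟨0, hn⟩ j = 0 ∨ M ⟨0, hn⟩ j = 1 := by
  have h := ((isAlt_iff _).mp (hM.2 j)).1 1
  have h2 : ps (fun i => M i j) 1 = M ⟨0, hn⟩ j := by
    have h3 : ps (fun i => M i j) 0 = 0 := by simp [ps]
    rw [show (1 : ℕ) = 0 + 1 from rfl, ps_succ, h3, zero_add]
    exact zx_lt (fun i => M i j) ⟨0, hn⟩
  rw [h2] at h
  exact h

lemma first_row_sum {n : ℕ} {M : Matrix (Fin n) (Fin n) ℤ} (hM : IsASM M) (hn : 0 < n) :
    ∑ j, M ⟨0, hn⟩ j = 1 := by
  have h := ((isAlt_iff _).mp (hM.1 ⟨0, hn⟩)).2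
  rw [← h]
  unfold ps
  rw [← Fin.sum_univ_eq_sum_range (fun k => zx (fun j => M ⟨0, hn⟩ j) k)]
  apply Finset.sum_congr rfl
  intro j _
  exact (zx_lt (fun j => M ⟨0, hn⟩ j) j).symm

lemma first_row_unique {n : ℕ} {M : Matrix (Fin n) (Fin n) ℤ} (hM : IsASM M) (hn : 0 < n)
    {j j' : Fin n} (h : M ⟨0, hn⟩ j = 1) (h' : M ⟨0, hn⟩ j' = 1) : j = j' := by
  by_contra hne
  have h1 := first_row_sum hM hn
  rw [← Finset.add_sum_erase _ _ (mem_univ j), h] at h1
  have h2 : M ⟨0, hn⟩ j' ≤ ∑ x ∈ univ.erase j, M ⟨0, hn⟩ x := by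
    apply Finset.single_le_sum (f := fun x => M ⟨0, hn⟩ x)
    · intro i _
      rcases first_row hM hn i with h3 | h3 <;> simp [h3]
    · simp [Ne.symm hne]
  rw [h'] at h2
  linarith

theorem sum_refASM (n : ℕ) (hn : 0 < n) : (∑ j, (refASM n j : ℚ)) = al n (run 1 n) := by
  have hfin := (card_ASM n).1
  rw [← (card_ASM n).2]
  have hF : ∀ j : Fin n, Finite {M : Matrix (Fin n) (Fin n) ℤ // IsASM M ∧ M ⟨0, j.pos⟩ j = 1} := by
    intro j
    exact Finite.of_injective (fun M => (⟨M.1, M.2.1⟩ : {M : Matrix (Fin n) (Fin n) ℤ // IsASM M}))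
      (fun a b h => by
        simp only [Subtype.mk.injEq] at h
        exact Subtype.ext h)
  let Φ : (Σ j : Fin n, {M : Matrix (Fin n) (Fin n) ℤ // IsASM M ∧ M ⟨0, j.pos⟩ j = 1}) →
    {M : Matrix (Fin n) (Fin n) ℤ // IsASM M} := fun p => ⟨p.2.1, p.2.2.1⟩
  have hΦ : Function.Bijective Φ := by
    constructor
    · rintro ⟨j, M, hM⟩ ⟨j', M', hM'⟩ h
      simp only [Φ, Subtype.mk.injEq] at h
      subst h
      have := first_row_unique hM.1 hn hM.2 hM'.2
      subst this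
      rfl
    · rintro ⟨M, hM⟩
      obtain ⟨j, hj, _⟩ := (hM.1 ⟨0, hn⟩).first
      exact ⟨⟨j, M, hM, hj⟩, rfl⟩
  have e := Equiv.ofBijective Φ hΦ
  rw [← Nat.card_congr e, Nat.card_sigma]
  push_cast
  rfl

lemma IsAlt.rev {n : ℕ} {v : Fin n → ℤ} (h : IsAlt v) : IsAlt (fun j => v (Fin.rev j)) := by
  refine ⟨fun j => h.entry _, ?_, ?_, ?_⟩
  · intro i j hij hi hj hk
    have := h.alt (Fin.rev j) (Fin.rev i) (Fin.rev_lt_rev.mpr hij) hj hi (fun k h1 h2 => by
      have := hk (Fin.rev k) (by rw [← Fin.rev_lt_rev, Fin.rev_rev]; exact h2)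
        (by rw [← Fin.rev_lt_rev, Fin.rev_rev]; exact h1)
      rwa [Fin.rev_rev] at this)
    show v (Fin.rev j) = -v (Fin.rev i)
    omega
  · obtain ⟨j, hj, hk⟩ := h.last
    refine ⟨Fin.rev j, by simp [hj], ?_⟩
    intro k h1
    apply hk
    rw [← Fin.rev_lt_rev, Fin.rev_rev]
    exact h1
  · obtain ⟨j, hj, hk⟩ := h.first
    refine ⟨Fin.rev j, by simp [hj], ?_⟩
    intro k h1
    apply hk
    rw [← Fin.rev_lt_rev, Fin.rev_rev]
    exact h1

lemma IsASM.refl {n : ℕ} {M : Matrix (Fin n) (Fin n) ℤ} (h : IsASM M) :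
    IsASM (fun i j => M i (Fin.rev j) : Matrix (Fin n) (Fin n) ℤ) :=
  ⟨fun i => (h.1 i).rev, fun j => h.2 (Fin.rev j)⟩

lemma refASM_rev (n : ℕ) (j : Fin n) : refASM n (Fin.rev j) = refASM n j := by
  unfold refASM
  apply Nat.card_congr
  refine ⟨fun M => ⟨fun i j => M.1 i (Fin.rev j), M.2.1.refl, M.2.2⟩,
    fun M => ⟨fun i j => M.1 i (Fin.rev j), M.2.1.refl, ?_⟩, ?_, ?_⟩
  · simp only [Fin.rev_rev]; exact M.2.2
  · intro M; apply Subtype.ext; funext i j; simp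
  · intro M; apply Subtype.ext; funext i j; simp

theorem sum_linear (n : ℕ) (hn : 0 < n) (c : ℚ) :
    ∑ j : Fin n, (c - ((j : ℕ) + 1)) * (refASM n j : ℚ)
      = (2 * c - n - 1) / 2 * al n (run 1 n) := by
  have h1 : ∑ j : Fin n, (((j : ℕ) : ℚ) + 1) * (refASM n j : ℚ)
      = ∑ j : Fin n, ((n : ℚ) - (j : ℕ)) * (refASM n j : ℚ) := by
    rw [← Equiv.sum_comp Fin.revPerm]
    apply Finset.sum_congr rfl
    intro j _
    simp only [Fin.revPerm_apply, refASM_rev, Fin.val_rev]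
    congr 1
    have : (j : ℕ) + 1 ≤ n := j.2
    push_cast [this]
    ring
  have h2 := sum_refASM n hn
  have h3 : ∑ j : Fin n, (c - ((j : ℕ) + 1)) * (refASM n j : ℚ)
      = c * ∑ j : Fin n, (refASM n j : ℚ) - ∑ j : Fin n, (((j : ℕ) : ℚ) + 1) * (refASM n j : ℚ) := by
    rw [Finset.mul_sum, ← Finset.sum_sub_distrib]
    apply Finset.sum_congr rfl; intro j _; ring
  have h4 : ∑ j : Fin n, ((n : ℚ) - (j : ℕ)) * (refASM n j : ℚ)
      = (n + 1) * ∑ j : Fin n, (refASM n j : ℚ)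
        - ∑ j : Fin n, (((j : ℕ) : ℚ) + 1) * (refASM n j : ℚ) := by
    rw [Finset.mul_sum, ← Finset.sum_sub_distrib]
    apply Finset.sum_congr rfl; intro j _; ring
  rw [h3, h2]
  rw [h4, h2] at h1
  linarith

end Pool.Agent.R730.MT
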