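import Pool.Agent.R730.MT.ASM2

/-!
Refined counts of alternating sign matrices: first column and last row.
-/

namespace Pool.Agent.R730.MT

open Finset

/-- recursion for counts with a side condition -/
lemma PA_card_pred {n i : ℕ} {k : Fin (i + 1) → ℤ} (hk : StrictMono k)
    (hb : ∀ a, 1 ≤ k a ∧ k a ≤ n) (p : (ℕ → ℕ → ℤ) → Prop) :
    Nat.card {f // PA n (i + 1) (ind k) f ∧ p f}
      = ∑ l ∈ F k, Nat.card {f // PA n i (ind l) f ∧
        p (fun a b => if a = i then ind k b - ind l b else f a b)} := by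
  have hF0 : ∀ l : {l // l ∈ F k}, Finite {f // PA n i (ind l.1) f} := fun l =>
    (PA_count n i l.1 ((mem_F _ _).mp l.2).2 (F_bd hb l.2)).1
  have hF : ∀ l : {l // l ∈ F k}, Finite {f // PA n i (ind l.1) f ∧
      p (fun a b => if a = i then ind k b - ind l.1 b else f a b)} := fun l =>
    Finite.of_injective (fun f => (⟨f.1, f.2.1⟩ : {f // PA n i (ind l.1) f}))
      (fun a b h => by
        simp only [Subtype.mk.injEq] at h
        exact Subtype.ext h)
  let Φ : (Σ l : {l // l ∈ F k}, {f // PA n i (ind l.1) f ∧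
      p (fun a b => if a = i then ind k b - ind l.1 b else f a b)}) →
      {f // PA n (i + 1) (ind k) f ∧ p f} :=
    fun q => ⟨_, PA_add hk hb q.1.2 q.2.2.1, q.2.2.2⟩
  have hΦ : Function.Bijective Φ := by
    constructor
    · rintro ⟨⟨l, hl⟩, ⟨f, hf⟩⟩ ⟨⟨l', hl'⟩, ⟨f', hf'⟩⟩ h
      have h1 := congrArg Subtype.val h
      simp only [Φ] at h1 hf hf'
      have h2 : ∀ b, ind l b = ind l' b := by
        intro b
        have := congrFun (congrFun h1 i) b
        simp only [if_true] at this
        linarith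
      have h3 : l = l' := ind_inj ((mem_F _ _).mp hl).2 ((mem_F _ _).mp hl').2
        (fun a => (F_bd hb hl a).1) (fun a => (F_bd hb hl' a).1) h2
      subst h3
      have h4 : f = f' := by
        funext a b
        by_cases ha : a = i
        · rw [hf.1.zero a b (by omega), hf'.1.zero a b (by omega)]
        · have := congrFun (congrFun h1 a) b
          simp only [ha, if_false] at this
          exact this
      subst h4
      rfl
    · rintro ⟨f, hf, hp⟩
      obtain ⟨l, hl, hg, hfi⟩ := PA_remove hk hb hf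
      have heq : (fun a b => if a = i then ind k b - ind l b
          else (fun a b => if a = i then 0 else f a b) a b) = f := by
        funext a b
        by_cases ha : a = i
        · rw [if_pos ha, ha, hfi b]
        · rw [if_neg ha]
          show (if a = i then 0 else f a b) = f a b
          rw [if_neg ha]
      refine ⟨⟨⟨l, hl⟩, ⟨_, hg, ?_⟩⟩, ?_⟩
      · rw [heq]; exact hp
      · apply Subtype.ext
        exact heq
  have e := Equiv.ofBijective Φ hΦ
  rw [← Nat.card_congr e, Nat.card_sigma]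
  exact Finset.sum_coe_sort (F k) (fun l => Nat.card {f // PA n i (ind l) f ∧
    p (fun a b => if a = i then ind k b - ind l b else f a b)})

lemma ind_zero_iff {s : ℕ} {l : Fin (s + 1) → ℤ} (hl : StrictMono l) (h1 : 1 ≤ l 0) :
    (l 0 = 1 → ind l 0 = 1) ∧ (l 0 ≠ 1 → ind l 0 = 0) := by
  constructor
  · intro h
    rcases ind_eq hl 0 with ⟨h2, _⟩ | ⟨_, h3⟩
    · exact h2
    · exact absurd (by simpa using h) (h3 0)
  · intro h
    rcases ind_eq hl 0 with ⟨_, a, ha⟩ | ⟨h2, _⟩
    · exfalso
      have h4 : l 0 ≤ l a := hl.monotone (Fin.zero_le a)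
      simp only [Nat.cast_zero, zero_add] at ha
      omega
    · exact h2

lemma mem_F_one {q : ℕ} {k' : Fin (q + 1) → ℤ}
    (hk : StrictMono (Fin.cons 1 k' : Fin (q + 2) → ℤ)) (l' : Fin q → ℤ) :
    (Fin.cons 1 l' : Fin (q + 1) → ℤ) ∈ F (Fin.cons 1 k' : Fin (q + 2) → ℤ) ↔ l' ∈ F k' := by
  have h0 : (1 : ℤ) < k' 0 := ((sm_cons 1 k').mp hk).1
  rw [mem_F, mem_F]
  constructor
  · rintro ⟨h1, h2⟩
    refine ⟨fun i => ?_, fun i j hij => ?_⟩
    · have := h1 i.succ
      simpa using this
    · have := h2 (Fin.succ_lt_succ_iff.mpr hij)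
      simpa using this
  · rintro ⟨h1, h2⟩
    refine ⟨fun i => ?_, ?_⟩
    · refine Fin.cases ?_ (fun i => ?_) i
      · simpa using h0.le
      · have := h1 i
        simpa using this
    · rcases q with _ | q
      · exact sm01 _
      · rw [sm_cons]
        refine ⟨?_, h2⟩
        have h3 := (h1 0).1
        simp only [Fin.castSucc_zero] at h3
        omega

/-- splitting off the rows beginning with 1 -/
lemma sum_F_one {q : ℕ} {k' : Fin (q + 1) → ℤ}
    (hk : StrictMono (Fin.cons 1 k' : Fin (q + 2) → ℤ)) (H : (Fin (q + 1) → ℤ) → ℚ) :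
    ∑ l ∈ (F (Fin.cons 1 k' : Fin (q + 2) → ℤ)).filter (fun l => l 0 = 1), H l
      = ∑ l' ∈ F k', H (Fin.cons 1 l') := by
  classical
  apply Finset.sum_nbij' (fun l => Fin.tail l) (fun l' => (Fin.cons 1 l' : Fin (q + 1) → ℤ))
  · intro l hl
    rw [mem_filter] at hl
    rw [← mem_F_one hk, ← hl.2, Fin.cons_self_tail, hl.2]
    exact hl.1
  · intro l' hl'
    rw [mem_filter, mem_F_one hk]
    exact ⟨hl', by simp⟩
  · intro l hl
    rw [mem_filter] at hl
    rw [← hl.2]; exact Fin.cons_self_tail l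
  · intro l' _; simp
  · intro l hl
    rw [mem_filter] at hl
    congr 1
    rw [← hl.2]; exact (Fin.cons_self_tail l).symm

/-- counting arrays by the position of the 1 in the first column -/
theorem col_count (n i0 : ℕ) (hn : 0 < n) : ∀ (d : ℕ) (k' : Fin (i0 + d) → ℤ),
    StrictMono (Fin.cons 1 k' : Fin (i0 + d + 1) → ℤ) →
    (∀ a, 1 ≤ (Fin.cons 1 k' : Fin (i0 + d + 1) → ℤ) a ∧ (Fin.cons 1 k' : Fin (i0 + d + 1) → ℤ) a ≤ n) →
    (Nat.card {f // PA n (i0 + d + 1) (ind (Fin.cons 1 k' : Fin (i0 + d + 1) → ℤ)) f ∧ f i0 0 = 1} : ℚ)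
      = al (i0 + 1) (x 2 * (R ^ d) (wd (List.ofFn k'))) := by
  intro d
  induction d with
  | zero =>
    intro k' hk hb
    rw [PA_card_pred hk hb (fun f => f i0 0 = 1)]
    simp only [add_zero, if_true, pow_zero, Module.End.one_apply]
    push_cast
    rcases i0 with _ | i0
    · classical
      have hF : F (Fin.cons 1 k' : Fin (0 + 0 + 1) → ℤ) = {Fin.elim0} := by
        ext l
        rw [mem_F, Finset.mem_singleton]
        constructor
        · intro _; exact Subsingleton.elim _ _
        · intro _; exact ⟨fun i => i.elim0, fun i => i.elim0⟩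
      have h1 : ind (Fin.cons 1 k' : Fin (0 + 0 + 1) → ℤ) 0 = 1 := by
        apply (ind_zero_iff hk _).1
        · simp
        · simp
      have hsum : ∀ l ∈ F (Fin.cons 1 k' : Fin (0 + 0 + 1) → ℤ),
          (Nat.card {f // PA n 0 (ind l) f ∧ ind (Fin.cons 1 k' : Fin (0 + 0 + 1) → ℤ) 0
            - ind l 0 = 1} : ℚ) = 1 := by
        intro l _
        have h2 : ind l 0 = 0 := by simp [ind]
        rw [h1, h2]
        have h3 := PA_count n 0 l (fun a => a.elim0) (fun a => a.elim0)
        have h4 := (count 0 l (fun a => a.elim0)).2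
        have h5 : Nat.card {f // PA n 0 (ind l) f ∧ (1 : ℤ) - 0 = 1}
            = Nat.card {f // PA n 0 (ind l) f} := by
          apply Nat.card_congr
          exact Equiv.subtypeEquivRight (fun f => by simp)
        rw [h5, h3.2, h4]
        simp [al_zero]
      rw [Finset.sum_congr rfl hsum, hF]
      simp [al_succ, R_x, al_zero]
    · have hk0 := (sm_cons 1 k').mp hk
      have h1 : ind (Fin.cons 1 k' : Fin (i0 + 1 + 0 + 1) → ℤ) 0 = 1 := by
        apply (ind_zero_iff hk _).1
        · simp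
        · simp
      classical
      have hsum : ∀ l ∈ F (Fin.cons 1 k' : Fin (i0 + 1 + 0 + 1) → ℤ),
          (Nat.card {f // PA n (i0 + 1) (ind l) f ∧
            ind (Fin.cons 1 k' : Fin (i0 + 1 + 0 + 1) → ℤ) 0 - ind l 0 = 1} : ℚ)
          = al (i0 + 1) (wd (List.ofFn l)) - if l 0 = 1 then al (i0 + 1) (wd (List.ofFn l)) else 0 := by
        intro l hl
        have hlm := ((mem_F _ _).mp hl).2
        have hlb := F_bd hb hl
        rw [h1]
        by_cases h0 : l 0 = 1
        · rw [if_pos h0, sub_self, (ind_zero_iff hlm (hlb 0).1).1 h0]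
          have : IsEmpty {f // PA n (i0 + 1) (ind l) f ∧ (1 : ℤ) - 1 = 1} :=
            ⟨fun f => by have := f.2.2; omega⟩
          rw [Nat.card_of_isEmpty]; simp
        · rw [if_neg h0, sub_zero, (ind_zero_iff hlm (hlb 0).1).2 h0]
          have h5 : Nat.card {f // PA n (i0 + 1) (ind l) f ∧ (1 : ℤ) - 0 = 1}
              = Nat.card {f // PA n (i0 + 1) (ind l) f} := by
            apply Nat.card_congr
            exact Equiv.subtypeEquivRight (fun f => by simp)
          rw [h5, (PA_count n _ l hlm hlb).2, (count _ l hlm).2]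
      have hR := R_wd _ (Fin.cons 1 k' : Fin (i0 + 1 + 0 + 1) → ℤ) hk
      have hR' := R_wd i0 k' hk0.2
      have hs1 := sum_F_one hk (fun l => al (i0 + 1) (wd (List.ofFn l)))
      rw [Finset.sum_filter] at hs1
      have hgoal : ∑ l ∈ F (Fin.cons 1 k' : Fin (i0 + 1 + 0 + 1) → ℤ),
          (Nat.card {f // PA n (i0 + 1) (ind l) f ∧
            ind (Fin.cons 1 k' : Fin (i0 + 1 + 0 + 1) → ℤ) 0 - ind l 0 = 1} : ℚ)
          = al (i0 + 1 + 1) (x 2 * wd (List.ofFn k')) := by
        rw [Finset.sum_congr rfl hsum, Finset.sum_sub_distrib, ← map_sum]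
        have e1 : ∑ l ∈ F (Fin.cons 1 k' : Fin (i0 + 1 + 0 + 1) → ℤ), wd (List.ofFn l)
            = R (x 1 * wd (List.ofFn k')) := by
          rw [← hR, wd_ofFn_cons]
        have e2 : ∑ l ∈ F (Fin.cons 1 k' : Fin (i0 + 1 + 0 + 1) → ℤ),
            (if l 0 = 1 then al (i0 + 1) (wd (List.ofFn l)) else 0)
            = al (i0 + 1) (x 1 * R (wd (List.ofFn k'))) := by
          refine hs1.trans ?_
          rw [hR', Finset.mul_sum, map_sum]
          apply Finset.sum_congr rfl
          intro l _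
          rw [wd_ofFn_cons]
        have e3 : (1 : ℤ) + 1 = 2 := by norm_num
        rw [e1, e2, al_succ (i0 + 1), R_inc (wd (List.ofFn k')) 1, map_add, e3]
        ring
      exact hgoal
  | succ d ih =>
    intro k' hk hb
    have hkk : StrictMono (Fin.cons 1 k' : Fin (i0 + d + 1 + 1) → ℤ) := hk
    have hk0 := (sm_cons 1 k').mp hkk
    have h := PA_card_pred (n := n) (i := i0 + d + 1) (k := (Fin.cons 1 k' : Fin (i0 + d + 1 + 1) → ℤ))
      hkk hb (fun f => f i0 0 = 1)
    have hne : i0 ≠ i0 + d + 1 := by omega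
    simp only [hne, if_false] at h
    have h' : (Nat.card {f // PA n (i0 + (d + 1) + 1)
        (ind (Fin.cons 1 k' : Fin (i0 + (d + 1) + 1) → ℤ)) f ∧ f i0 0 = 1} : ℚ)
        = ∑ l ∈ F (Fin.cons 1 k' : Fin (i0 + d + 1 + 1) → ℤ),
          (Nat.card {f // PA n (i0 + d + 1) (ind l) f ∧ f i0 0 = 1} : ℚ) := by
      have := congrArg (fun z : ℕ => (z : ℚ)) h
      push_cast at this
      exact this
    rw [h']
    classical
    have hz : ∀ l ∈ F (Fin.cons 1 k' : Fin (i0 + d + 1 + 1) → ℤ), l 0 ≠ 1 →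
        (Nat.card {f // PA n (i0 + d + 1) (ind l) f ∧ f i0 0 = 1} : ℚ) = 0 := by
      intro l hl h0
      have hlm := ((mem_F _ _).mp hl).2
      have hlb := F_bd hb hl
      have h2 := (ind_zero_iff hlm (hlb 0).1).2 h0
      have : IsEmpty {f // PA n (i0 + d + 1) (ind l) f ∧ f i0 0 = 1} := by
        refine ⟨fun f => ?_⟩
        obtain ⟨f, hf, hf1⟩ := f
        have h3 := hf.col_tot 0
        rw [h2] at h3
        have hnn : ∀ a ∈ range (i0 + d + 1), 0 ≤ f a 0 := by
          intro a ha
          rw [mem_range] at ha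
          have := hf.row a ha 1
          rw [Finset.sum_range_one] at this
          omega
        have h4 := (Finset.sum_eq_zero_iff_of_nonneg hnn).mp h3 i0 (by rw [mem_range]; omega)
        rw [h4] at hf1
        norm_num at hf1
      rw [Nat.card_of_isEmpty]; simp
    have e1 : ∑ l ∈ F (Fin.cons 1 k' : Fin (i0 + d + 1 + 1) → ℤ),
          (Nat.card {f // PA n (i0 + d + 1) (ind l) f ∧ f i0 0 = 1} : ℚ)
        = ∑ l ∈ (F (Fin.cons 1 k' : Fin (i0 + d + 1 + 1) → ℤ)).filter (fun l => l 0 = 1),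
          (Nat.card {f // PA n (i0 + d + 1) (ind l) f ∧ f i0 0 = 1} : ℚ) := by
      rw [Finset.sum_filter]
      apply Finset.sum_congr rfl
      intro l hl
      by_cases h0 : l 0 = 1
      · rw [if_pos h0]
      · rw [if_neg h0, hz l hl h0]
    rw [e1]
    refine (sum_F_one hkk (fun l => (Nat.card {f // PA n (i0 + d + 1) (ind l) f ∧
      f i0 0 = 1} : ℚ))).trans ?_
    have e2 : ∀ l' ∈ F k', (Nat.card {f // PA n (i0 + d + 1)
        (ind (Fin.cons 1 l' : Fin (i0 + d + 1) → ℤ)) f ∧ f i0 0 = 1} : ℚ)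
        = al (i0 + 1) (x 2 * (R ^ d) (wd (List.ofFn l'))) := by
      intro l' hl'
      have h5 := (mem_F_one hkk l').mpr hl'
      exact ih l' ((mem_F _ _).mp h5).2 (F_bd hb h5)
    rw [Finset.sum_congr rfl e2, ← map_sum, ← Finset.mul_sum, ← map_sum, ← R_wd _ k' hk0.2, pow_succ,
      Module.End.mul_apply]

end Pool.Agent.R730.MT
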