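import Mathlib

/-!
Alternating sign matrices and their refined enumeration.
-/

namespace Pool.Agent.R730.MT

/-- the entries of `v` are 0, 1 or -1, its nonzero entries alternate in sign, and the first and
the last of them exist and are equal to 1 -/
structure IsAlt {n : ℕ} (v : Fin n → ℤ) : Prop where
  /-- entries -/
  entry : ∀ j, v j = 0 ∨ v j = 1 ∨ v j = -1
  /-- two consecutive nonzero entries have opposite signs -/
  alt : ∀ i j, i < j → v i ≠ 0 → v j ≠ 0 → (∀ k, i < k → k < j → v k = 0) → v j = -v i
  /-- the first nonzero entry is 1 -/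
  first : ∃ j, v j = 1 ∧ ∀ k, k < j → v k = 0
  /-- the last nonzero entry is 1 -/
  last : ∃ j, v j = 1 ∧ ∀ k, j < k → v k = 0

/-- alternating sign matrices -/
def IsASM {n : ℕ} (M : Matrix (Fin n) (Fin n) ℤ) : Prop :=
  (∀ i, IsAlt (fun j => M i j)) ∧ (∀ j, IsAlt (fun i => M i j))

/-- the number of `n × n` alternating sign matrices whose first row has its 1 in column `j`
(columns are numbered from 0 here) -/
noncomputable def refASM (n : ℕ) (j : Fin n) : ℕ :=
  Nat.card {M : Matrix (Fin n) (Fin n) ℤ // IsASM M ∧ M ⟨0, j.pos⟩ j = 1}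

end Pool.Agent.R730.MT
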