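import Mathlib

/-!
The word algebra behind the monotone triangle polynomial.
Letters are indexed by integers.  For every linear combination `w` of letters, with shift
`Es w`, we impose `w * Es w = w * w + Es w * Es w` and `w * w * w = 0`.
-/

namespace Pool.Agent.R730.MT

open Finset

/-- the space of linear combinations of letters -/
abbrev V := ℤ →₀ ℚ

/-- the letter `j` -/
noncomputable def e (j : ℤ) : V := Finsupp.single j 1

/-- the shift `e j ↦ e (j+1)` -/
noncomputable def Es : V →ₗ[ℚ] V := Finsupp.lmapDomain ℚ ℚ (fun j => j + 1)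

/-- the augmentation `e j ↦ 1` -/
noncomputable def ev : V →ₗ[ℚ] ℚ := Finsupp.linearCombination ℚ (fun _ => (1 : ℚ))

@[simp] lemma Es_e (j : ℤ) : Es (e j) = e (j + 1) := by
  simp [Es, e, Finsupp.lmapDomain_apply, Finsupp.mapDomain_single]

@[simp] lemma ev_e (j : ℤ) : ev (e j) = 1 := by
  simp [ev, e]

lemma V_ext {M : Type*} [AddCommMonoid M] [Module ℚ M] {f g : V →ₗ[ℚ] M}
    (h : ∀ j, f (e j) = g (e j)) : f = g := by
  apply Finsupp.lhom_ext'
  intro j
  apply LinearMap.ext_ring
  exact h j

@[simp] lemma ev_Es (v : V) : ev (Es v) = ev v := by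
  have : ev ∘ₗ Es = ev := V_ext (fun j => by simp)
  exact LinearMap.congr_fun this v

/-- partial sums of letters: `sv (j+1) = sv j + e j`, `sv 0 = 0` -/
noncomputable def sv (j : ℤ) : V := ∑ l ∈ Ico 0 j, e l - ∑ l ∈ Ico j 0, e l

lemma sv_zero : sv 0 = 0 := by simp [sv]

lemma sv_succ (j : ℤ) : sv (j + 1) = sv j + e j := by
  unfold sv
  rcases le_or_gt 0 j with h | h
  · have h1 : Ico (j + 1) 0 = ∅ := Finset.Ico_eq_empty (by omega)
    have h2 : Ico j 0 = ∅ := Finset.Ico_eq_empty (by omega)
    have h3 : Ico 0 (j + 1) = insert j (Ico 0 j) := by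
      ext x; simp only [mem_Ico, mem_insert]; omega
    rw [h1, h2, h3, Finset.sum_insert (by simp)]
    simp
    abel
  · have h1 : Ico 0 (j + 1) = ∅ := Finset.Ico_eq_empty (by omega)
    have h2 : Ico 0 j = ∅ := Finset.Ico_eq_empty (by omega)
    have h3 : Ico j 0 = insert j (Ico (j + 1) 0) := by
      ext x; simp only [mem_Ico, mem_insert]; omega
    rw [h1, h2, h3, Finset.sum_insert (by simp)]
    simp

/-- the linear summation operator `e j ↦ sv j` -/
noncomputable def Sm : V →ₗ[ℚ] V := Finsupp.linearCombination ℚ sv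

@[simp] lemma Sm_e (j : ℤ) : Sm (e j) = sv j := by simp [Sm, e]

lemma Sm_Es (v : V) : Sm (Es v) = Sm v + v := by
  have : Sm ∘ₗ Es = Sm + LinearMap.id := V_ext (fun j => by simp [sv_succ])
  exact LinearMap.congr_fun this v

lemma Es_sv (j : ℤ) : Es (sv j) = sv j + e j - e 0 := by
  induction j using Int.induction_on with
  | zero => simp [sv_zero]
  | succ n ih =>
    rw [sv_succ, map_add, ih, Es_e]
    abel
  | pred n ih =>
    have h := sv_succ (-(n:ℤ) - 1)
    have h' : (-(n:ℤ) - 1 + 1) = -(n:ℤ) := by ring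
    rw [h'] at h
    have h2 : sv (-(n:ℤ) - 1) = sv (-(n:ℤ)) - e (-(n:ℤ) - 1) := by rw [h]; abel
    rw [h2, map_sub, ih, Es_e, h']
    abel

lemma Es_Sm (v : V) : Es (Sm v) = Sm v + v - ev v • e 0 := by
  have : Es ∘ₗ Sm = Sm + LinearMap.id - (ev.smulRight (e 0)) := V_ext (fun j => by
    simp [Es_sv])
  exact LinearMap.congr_fun this v

/-- `θ = 1 - E` on letters -/
noncomputable def th : V →ₗ[ℚ] V := LinearMap.id - Es

lemma th_apply (v : V) : th v = v - Es v := rfl

lemma th_Es (v : V) : th (Es v) = Es (th v) := by simp [th_apply]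

/-! ### The algebra -/

open TensorAlgebra in
/-- defining relations -/
inductive Rel : TensorAlgebra ℚ V → TensorAlgebra ℚ V → Prop
  | quad (w : V) : Rel (ι ℚ w * ι ℚ (Es w)) (ι ℚ w * ι ℚ w + ι ℚ (Es w) * ι ℚ (Es w))
  | cube (w : V) : Rel (ι ℚ w * ι ℚ w * ι ℚ w) 0

/-- the word algebra -/
def A : Type := RingQuot Rel

noncomputable instance : Ring A := inferInstanceAs (Ring (RingQuot Rel))
noncomputable instance : Algebra ℚ A := inferInstanceAs (Algebra ℚ (RingQuot Rel))

/-- the quotient map -/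
noncomputable def mk : TensorAlgebra ℚ V →ₐ[ℚ] A := RingQuot.mkAlgHom ℚ Rel

/-- the inclusion of the letters -/
noncomputable def io : V →ₗ[ℚ] A := mk.toLinearMap ∘ₗ TensorAlgebra.ι ℚ

/-- the letter `j` in the algebra -/
noncomputable def x (j : ℤ) : A := io (e j)

lemma quad (w : V) : io w * io (Es w) = io w * io w + io (Es w) * io (Es w) := by
  have h : mk (TensorAlgebra.ι ℚ w * TensorAlgebra.ι ℚ (Es w))
      = mk (TensorAlgebra.ι ℚ w * TensorAlgebra.ι ℚ w
        + TensorAlgebra.ι ℚ (Es w) * TensorAlgebra.ι ℚ (Es w)) :=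
    RingQuot.mkAlgHom_rel ℚ (Rel.quad w)
  rw [map_mul, map_add, map_mul, map_mul] at h
  exact h

lemma cube (w : V) : io w * io w * io w = 0 := by
  have h : mk (TensorAlgebra.ι ℚ w * TensorAlgebra.ι ℚ w * TensorAlgebra.ι ℚ w) = mk 0 :=
    RingQuot.mkAlgHom_rel ℚ (Rel.cube w)
  rw [map_mul, map_mul, map_zero] at h
  exact h

/-- universal property -/
noncomputable def lift {B : Type*} [Ring B] [Algebra ℚ B] (f : V →ₗ[ℚ] B)
    (hq : ∀ w, f w * f (Es w) = f w * f w + f (Es w) * f (Es w))
    (hc : ∀ w, f w * f w * f w = 0) : A →ₐ[ℚ] B :=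
  RingQuot.liftAlgHom ℚ ⟨TensorAlgebra.lift ℚ f, by
    intro a b h
    cases h with
    | quad w => simp [hq]
    | cube w => simp [hc]⟩

@[simp] lemma lift_io {B : Type*} [Ring B] [Algebra ℚ B] (f : V →ₗ[ℚ] B) (hq) (hc) (v : V) :
    lift f hq hc (io v) = f v := by
  have h := RingQuot.liftAlgHom_mkAlgHom_apply ℚ (TensorAlgebra.lift ℚ f) (s := Rel) (by
    intro a b h
    cases h with
    | quad w => simp [hq]
    | cube w => simp [hc]) (TensorAlgebra.ι ℚ v)
  rw [TensorAlgebra.lift_ι_apply] at h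
  exact h

/-- polarised quadratic relation -/
lemma quad2 (a b : V) : io a * io (Es b) + io b * io (Es a)
    = io a * io b + io b * io a + io (Es a) * io (Es b) + io (Es b) * io (Es a) := by
  have h1 := quad (a + b)
  have h2 := quad a
  have h3 := quad b
  simp only [map_add, add_mul, mul_add] at h1
  have h4 : io a * io (Es b) + io b * io (Es a)
      = (io a * io (Es a) + io b * io (Es a) + (io a * io (Es b) + io b * io (Es b)))
        - io a * io (Es a) - io b * io (Es b) := by abel
  rw [h4, h1, h2, h3]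
  abel

/-- polarised cubic relation -/
lemma cube2 (a b : V) : io a * io a * io b + io a * io b * io a + io b * io a * io a = 0 := by
  have h1 := cube (a + b)
  have h2 := cube (a - b)
  have h3 := cube a
  have h4 := cube b
  simp only [map_add, map_sub, add_mul, mul_add, sub_mul, mul_sub] at h1 h2
  have h5 : (2 : ℚ) • (io a * io a * io b + io a * io b * io a + io b * io a * io a) = 0 := by
    rw [two_smul]
    have := congrArg₂ (· - ·) h1 h2
    simp only [sub_zero, h3, h4] at this
    rw [← this]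
    abel_nf
  exact (smul_eq_zero.mp h5).resolve_left (by norm_num)

end Pool.Agent.R730.MT
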