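import Pool.Agent.R730.MT.Step

/-!
Polynomiality of the functional on words, and uniqueness of the polynomial.
-/

namespace Pool.Agent.R730.MT

open Finset

/-- word of a list of letters -/
noncomputable def wd (l : List ℤ) : A := (l.map x).prod

@[simp] lemma wd_nil : wd [] = 1 := by simp [wd]
@[simp] lemma wd_cons (j : ℤ) (l : List ℤ) : wd (j :: l) = x j * wd l := by simp [wd]
@[simp] lemma wd_append (l m : List ℤ) : wd (l ++ m) = wd l * wd m := by simp [wd]

@[simp] lemma ep_io (v : V) : ep (io v) = 0 := by unfold ep; rw [lift_io]; rfl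

lemma R_mid (a b : A) (w : V) :
    R (a * io (th w) * b) = Th a 0 0 * io w * R b
      + Th a 0 1 * x 0 * io (Es w) * R b
      - Th a 0 1 * io (th w) * (x 0 * R b)
      - R a * io (Es w) * Th b 1 1 := by
  have h1 : ev (th w) = 0 := by rw [th_apply, map_sub, ev_Es, sub_self]
  have h2 : io (Sm (th w)) = -(io w) := by
    rw [th_apply, map_sub, Sm_Es, ← map_neg]; congr 1; abel
  have h3 : io (Sm (th w)) + io (th w) = -(io (Es w)) := by
    rw [← map_add, th_apply, map_sub, Sm_Es, ← map_neg]; congr 1; abel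
  rw [R_def (a * io (th w) * b), map_mul, map_mul, Th_io, Xm_apply, yy, h3, h2, h1, R_def, R_def]
  simp only [Matrix.mul_apply, Fin.sum_univ_two, Matrix.of_apply, Matrix.cons_val',
    Matrix.cons_val_zero, Matrix.cons_val_one, Matrix.cons_val_fin_one, zero_smul]
  noncomm_ring

lemma th_pow_Es (N : ℕ) (v : V) : (th ^ N) (Es v) = Es ((th ^ N) v) := by
  induction N with
  | zero => simp
  | succ N ih => rw [pow_succ', Module.End.mul_apply, Module.End.mul_apply, ih, th_Es]

lemma th_pow_th (N : ℕ) (v : V) : (th ^ N) (th v) = th ((th ^ N) v) := by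
  rw [← Module.End.mul_apply, ← Module.End.mul_apply, ← pow_succ, ← pow_succ']

/-- the functional kills high differences -/
theorem al_kill (N : ℕ) : ∀ (a b : A) (v : V), al N (a * io ((th ^ N) v) * b) = 0 := by
  induction N with
  | zero => intro a b v; rw [al_zero, map_mul, map_mul, ep_io]; simp
  | succ N ih =>
    intro a b v
    rw [al_succ, pow_succ', Module.End.mul_apply, R_mid, ← th_pow_Es, ← th_pow_th]
    simp only [map_add, map_sub, ih]
    simp

/-- binomial polynomials -/
noncomputable def bp (m : ℕ) : Polynomial ℚ :=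
  Polynomial.C ((m.factorial : ℚ)⁻¹) * descPochhammer ℚ m

lemma bp_succ (m : ℕ) (j : ℚ) :
    (bp (m + 1)).eval (j + 1) = (bp (m + 1)).eval j + (bp m).eval j := by
  have h := congrArg (Polynomial.eval (j + 1)) (descPochhammer_succ_comp_X_sub_one (R := ℚ) m)
  simp only [Polynomial.eval_comp, Polynomial.eval_sub, Polynomial.eval_X, Polynomial.eval_one,
    Polynomial.eval_smul, add_sub_cancel_right, nsmul_eq_mul, Polynomial.eval_mul] at h
  unfold bp
  simp only [Polynomial.eval_mul, Polynomial.eval_C]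
  have h2 : (descPochhammer ℚ (m + 1)).eval (j + 1)
      = (descPochhammer ℚ (m + 1)).eval j + (m + 1) * (descPochhammer ℚ m).eval j := by
    rw [h]; simp
  rw [h2, Nat.factorial_succ]
  have : (m.factorial : ℚ) ≠ 0 := by positivity
  push_cast
  field_simp

lemma bp_zero (j : ℚ) : (bp 0).eval j = 1 := by simp [bp]

lemma bp_succ_zero (m : ℕ) : (bp (m + 1)).eval 0 = 0 := by
  unfold bp
  rw [Polynomial.eval_mul, descPochhammer_ne_zero_eval_zero ℚ (Nat.succ_ne_zero m), mul_zero]

/-- Newton expansion -/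
noncomputable def pj (N : ℕ) (j : ℤ) : V :=
  ∑ m ∈ range N, ((bp m).eval (j : ℚ)) • (((-th) ^ m) (e 0))

lemma pj_succ (N : ℕ) (j : ℤ) : pj (N + 1) (j + 1) = pj (N + 1) j + (-th) (pj N j) := by
  unfold pj
  rw [Finset.sum_range_succ', Finset.sum_range_succ' _ N, map_sum]
  simp only [bp_zero]
  have : ∀ m ∈ range N, (Polynomial.eval (((j + 1 : ℤ)) : ℚ) (bp (m + 1))) • (((-th) ^ (m + 1)) (e 0))
      = (Polynomial.eval (j : ℚ) (bp (m + 1))) • (((-th) ^ (m + 1)) (e 0))
        + (-th) ((Polynomial.eval (j : ℚ) (bp m)) • (((-th) ^ m) (e 0))) := by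
    intro m _
    push_cast
    rw [bp_succ, add_smul, map_smul, pow_succ' (-th) m, Module.End.mul_apply]
  rw [Finset.sum_congr rfl this, Finset.sum_add_distrib]
  abel

lemma e_succ (j : ℤ) : e (j + 1) = e j + (-th) (e j) := by
  rw [LinearMap.neg_apply, th_apply, Es_e]; abel

lemma pj_zero (N : ℕ) : pj (N + 1) 0 = e 0 := by
  unfold pj
  rw [Finset.sum_range_succ']
  simp only [Int.cast_zero, bp_zero, bp_succ_zero, zero_smul, Finset.sum_const_zero, pow_zero,
    one_smul, zero_add, Module.End.one_apply]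

lemma newton (N : ℕ) : ∀ j : ℤ, ∃ v, e j = pj N j + (th ^ N) v := by
  induction N with
  | zero => intro j; exact ⟨e j, by simp [pj]⟩
  | succ N ih =>
    intro j
    induction j using Int.induction_on with
    | zero => exact ⟨0, by rw [pj_zero]; simp⟩
    | succ n ihn =>
      obtain ⟨v, hv⟩ := ihn
      obtain ⟨w, hw⟩ := ih n
      refine ⟨v - w, ?_⟩
      rw [e_succ, pj_succ, map_sub]
      have h2 : (-th) (e (n : ℤ)) = (-th) (pj N n) - (th ^ (N + 1)) w := by
        conv_lhs => rw [hw]
        rw [map_add, LinearMap.neg_apply, pow_succ', Module.End.mul_apply]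
        simp only [LinearMap.neg_apply]
        abel
      rw [h2]
      conv_lhs => rw [hv]
      abel
    | pred n ihn =>
      obtain ⟨v, hv⟩ := ihn
      obtain ⟨w, hw⟩ := ih (-(n : ℤ) - 1)
      refine ⟨v + w, ?_⟩
      have h1 := e_succ (-(n : ℤ) - 1)
      have h2 := pj_succ N (-(n : ℤ) - 1)
      rw [sub_add_cancel] at h1 h2
      have h3 : (-th) (e (-(n : ℤ) - 1)) = (-th) (pj N (-(n : ℤ) - 1)) - (th ^ (N + 1)) w := by
        conv_lhs => rw [hw]
        rw [map_add, LinearMap.neg_apply, pow_succ', Module.End.mul_apply]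
        simp only [LinearMap.neg_apply]
        abel
      have h4 : e (-(n : ℤ) - 1) = e (-(n : ℤ)) - (-th) (e (-(n : ℤ) - 1)) := by
        rw [h1]; abel
      have h5 : pj (N + 1) (-(n : ℤ) - 1) = pj (N + 1) (-(n : ℤ)) - (-th) (pj N (-(n : ℤ) - 1)) := by
        rw [h2]; abel
      rw [h4, h5, h3, hv, map_add]
      abel

lemma al_replace (N : ℕ) : ∀ (l : List ℤ) (a : A),
    al N (a * wd l) = al N (a * (l.map (fun j => io (pj N j))).prod) := by
  intro l
  induction l with
  | nil => intro a; simp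
  | cons j l ih =>
    intro a
    obtain ⟨v, hv⟩ := newton N j
    rw [wd_cons, ← mul_assoc, List.map_cons, List.prod_cons, ← mul_assoc, ← ih]
    have : x j = io (pj N j) + io ((th ^ N) v) := by
      rw [← map_add, ← hv]; rfl
    rw [this, mul_add, add_mul, map_add, al_kill, add_zero]

/-- the polynomial -/
noncomputable def mtp (N : ℕ) : MvPolynomial (Fin N) ℚ :=
  ∑ m : Fin N → Fin N,
    MvPolynomial.C (al N (List.ofFn fun i => io (((-th) ^ (m i : ℕ)) (e 0))).prod)
      * ∏ i, Polynomial.aeval (MvPolynomial.X i) (bp (m i))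

lemma mtp_eval (N : ℕ) (k : Fin N → ℤ) :
    MvPolynomial.eval (fun i => (k i : ℚ)) (mtp N) = al N (wd (List.ofFn k)) := by
  have h1 := al_replace N (List.ofFn k) 1
  rw [one_mul, one_mul] at h1
  rw [h1, List.map_ofFn]
  have h2 : ((fun j => io (pj N j)) ∘ k) = fun i => ∑ m : Fin N,
      ((bp (m : ℕ)).eval (k i : ℚ)) • io (((-th) ^ (m : ℕ)) (e 0)) := by
    funext i
    simp only [Function.comp, pj]
    rw [map_sum, ← Fin.sum_univ_eq_sum_range
      (fun m => io (((bp m).eval (k i : ℚ)) • (((-th) ^ m) (e 0))))]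
    apply Finset.sum_congr rfl
    intro m _
    rw [map_smul]
  rw [h2, ← MultilinearMap.mkPiAlgebraFin_apply (R := ℚ), MultilinearMap.map_sum, map_sum, mtp,
    map_sum]
  apply Finset.sum_congr rfl
  intro m _
  rw [MultilinearMap.map_smul_univ, MultilinearMap.mkPiAlgebraFin_apply, map_smul, smul_eq_mul,
    map_mul, MvPolynomial.eval_C, map_prod, mul_comm]
  congr 1
  apply Finset.prod_congr rfl
  intro i _
  have := Polynomial.hom_eval₂ (bp (m i)) (algebraMap ℚ (MvPolynomial (Fin N) ℚ))
    (MvPolynomial.eval (fun i => (k i : ℚ))) (MvPolynomial.X i)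
  rw [Polynomial.aeval_def, this, MvPolynomial.eval_X]
  rw [Polynomial.eval₂_eq_eval_map]
  congr 1
  have h3 : (MvPolynomial.eval (fun i => (k i : ℚ))).comp (algebraMap ℚ (MvPolynomial (Fin N) ℚ))
      = RingHom.id ℚ := by
    ext; simp
  rw [h3, Polynomial.map_id]

/-- uniqueness of polynomials given on strictly increasing integer tuples -/
theorem poly_unique {N : ℕ} (p q : MvPolynomial (Fin N) ℚ)
    (h : ∀ k : Fin N → ℤ, StrictMono k →
      MvPolynomial.eval (fun i => (k i : ℚ)) p = MvPolynomial.eval (fun i => (k i : ℚ)) q) :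
    p = q := by
  rw [← sub_eq_zero]
  set P := p - q with hP
  set D := P.totalDegree + 1 with hD
  let S : Fin N → Finset ℚ := fun i =>
    (Finset.range D).image (fun r : ℕ => (((D * (i : ℕ) + r : ℕ) : ℤ) : ℚ))
  have hcard : ∀ i, (S i).card = D := by
    intro i
    simp only [S]
    rw [Finset.card_image_of_injective, Finset.card_range]
    intro a b hab
    simpa using hab
  apply MvPolynomial.eq_zero_of_eval_zero_at_prod_finset P S
  · intro i
    rw [hcard]
    have := MvPolynomial.degreeOf_le_totalDegree P i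
    omega
  · intro y hy
    have hy' : ∀ i, ∃ r : ℕ, r < D ∧ y i = (((D * (i : ℕ) + r : ℕ) : ℤ) : ℚ) := by
      intro i
      have := hy i
      simp only [S, Finset.mem_image, Finset.mem_range] at this
      obtain ⟨r, hr, h2⟩ := this
      exact ⟨r, hr, h2.symm⟩
    choose r hr hyr using hy'
    have hmono : StrictMono (fun i : Fin N => (((D * (i : ℕ) + r i : ℕ)) : ℤ)) := by
      intro i j hij
      have h1 := hr i
      have h2 : (i : ℕ) + 1 ≤ (j : ℕ) := hij
      have h3 : D * (i : ℕ) + r i < D * (j : ℕ) + r j := by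
        calc D * (i : ℕ) + r i < D * ((i : ℕ) + 1) := by rw [mul_add, mul_one]; omega
          _ ≤ D * (j : ℕ) := Nat.mul_le_mul_left _ h2
          _ ≤ _ := Nat.le_add_right _ _
      exact Int.ofNat_lt.mpr h3
    have h4 := h _ hmono
    have h5 : y = fun i : Fin N => ((((D * (i : ℕ) + r i : ℕ)) : ℤ) : ℚ) := funext hyr
    rw [h5, hP, map_sub, h4, sub_self]

end Pool.Agent.R730.MT
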