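import Pool.Agent.R730.MT.Lin
import Pool.Agent.R730.MT.Poly

/-!
The explicit solution of the symmetry equations.
-/

namespace Pool.Agent.R730.MT

open Finset

lemma alt_rec (k : ℕ) (a : ℕ → ℚ) :
    ∑ i ∈ range (k + 2), (-1) ^ i * ((k + 1).choose i : ℚ) * a i
      = ∑ i ∈ range (k + 1), (-1) ^ i * (k.choose i : ℚ) * a i
        - ∑ i ∈ range (k + 1), (-1) ^ i * (k.choose i : ℚ) * a (i + 1) := by
  rw [Finset.sum_range_succ' _ (k + 1)]
  rw [Finset.sum_range_succ' (fun i => (-1 : ℚ) ^ i * (k.choose i : ℚ) * a i) k]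
  rw [Finset.sum_range_succ (fun i => (-1 : ℚ) ^ i * (k.choose i : ℚ) * a (i + 1)) k]
  rw [Finset.sum_range_succ (fun i => (-1 : ℚ) ^ (i + 1) * ((k + 1).choose (i + 1) : ℚ)
    * a (i + 1)) k]
  have h2 : ∑ i ∈ range k, (-1 : ℚ) ^ (i + 1) * ((k + 1).choose (i + 1) : ℚ) * a (i + 1)
      = ∑ i ∈ range k, (-1 : ℚ) ^ (i + 1) * (k.choose (i + 1) : ℚ) * a (i + 1)
        - ∑ i ∈ range k, (-1 : ℚ) ^ i * (k.choose i : ℚ) * a (i + 1) := by
    rw [← Finset.sum_sub_distrib]
    apply Finset.sum_congr rfl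
    intro i _
    rw [Nat.choose_succ_succ]
    push_cast
    ring
  rw [h2]
  simp only [Nat.choose_self, Nat.choose_zero_right]
  push_cast
  ring

lemma fd (M : ℕ) : ∀ x r : ℕ, ∑ i ∈ range (M + 1), (-1 : ℚ) ^ i * (M.choose i : ℚ)
    * ((x + i).choose (r + M) : ℚ) = (-1) ^ M * (x.choose r : ℚ) := by
  induction M with
  | zero => intro x r; simp
  | succ M ih =>
    intro x r
    rw [alt_rec M (fun i => ((x + i).choose (r + (M + 1)) : ℚ))]
    have h1 := ih x (r + 1)
    have h2 := ih (x + 1) (r + 1)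
    have e1 : r + 1 + M = r + (M + 1) := by ring
    rw [e1] at h1 h2
    have e2 : ∀ i, x + 1 + i = x + (i + 1) := fun i => by ring
    simp only [e2] at h2
    rw [h1, h2, Nat.choose_succ_succ x r]
    push_cast
    ring

/-- the explicit numbers, up to the normalisation -/
noncomputable def Cx (n m : ℕ) : ℚ :=
  if m < n then ((n - 1 + m).choose (n - 1) : ℚ) * ((2 * n - 2 - m).choose (n - 1) : ℚ) else 0

lemma Cx_ge {n m : ℕ} (h : n ≤ m) : Cx n m = 0 := by unfold Cx; rw [if_neg (by omega)]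

lemma Cx_rev {n m : ℕ} (h : m < n) : Cx n (n - 1 - m) = Cx n m := by
  unfold Cx
  rw [if_pos h, if_pos (by omega)]
  have e1 : n - 1 + (n - 1 - m) = 2 * n - 2 - m := by omega
  have e2 : 2 * n - 2 - (n - 1 - m) = n - 1 + m := by omega
  rw [e1, e2, mul_comm]

lemma Cx_sum {n m : ℕ} (h : m < n) : ∑ i ∈ range (2 * n - 2 - m + 1),
    (-1 : ℚ) ^ i * ((2 * n - 2 - m).choose i : ℚ) * Cx n (m + i) = (-1) ^ (n + 1 + m) * Cx n m := by
  obtain ⟨M, rfl⟩ : ∃ M, n = M + m + 1 := ⟨n - m - 1, by omega⟩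
  have e0 : 2 * (M + m + 1) - 2 - m = 2 * M + m := by omega
  rw [e0]
  have h1 : ∑ i ∈ range (2 * M + m + 1), (-1 : ℚ) ^ i * ((2 * M + m).choose i : ℚ)
      * Cx (M + m + 1) (m + i) = ∑ i ∈ range (M + 1), (-1 : ℚ) ^ i * ((2 * M + m).choose i : ℚ)
      * Cx (M + m + 1) (m + i) := by
    symm
    apply Finset.sum_subset
    · intro i hi; rw [mem_range] at hi ⊢; omega
    · intro i _ hi
      rw [mem_range] at hi
      rw [Cx_ge (by omega), mul_zero]
  rw [h1]
  have h2 : ∀ i ∈ range (M + 1), (-1 : ℚ) ^ i * ((2 * M + m).choose i : ℚ) * Cx (M + m + 1) (m + i)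
      = ((2 * M + m).choose (M + m) : ℚ) * ((-1) ^ i * (M.choose i : ℚ)
        * ((M + 2 * m + i).choose (m + M) : ℚ)) := by
    intro i hi
    rw [mem_range] at hi
    unfold Cx
    rw [if_pos (by omega)]
    have a1 : M + m + 1 - 1 + (m + i) = M + 2 * m + i := by omega
    have a2 : M + m + 1 - 1 = m + M := by omega
    have a3 : 2 * (M + m + 1) - 2 - (m + i) = 2 * M + m - i := by omega
    rw [a1, a2, a3]
    have b1 := Nat.choose_mul (n := 2 * M + m) (k := M) (s := i) (by omega)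
    have b2 : (2 * M + m).choose M = (2 * M + m).choose (M + m) := by
      rw [← Nat.choose_symm (by omega : M + m ≤ 2 * M + m)]
      congr 1; omega
    have b3 : (2 * M + m - i).choose (M - i) = (2 * M + m - i).choose (m + M) := by
      rw [← Nat.choose_symm (by omega : m + M ≤ 2 * M + m - i)]
      congr 1; omega
    rw [b2, b3] at b1
    have b4 : ((2 * M + m).choose (M + m) : ℚ) * (M.choose i : ℚ)
        = ((2 * M + m).choose i : ℚ) * ((2 * M + m - i).choose (m + M) : ℚ) := by exact_mod_cast b1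
    linear_combination (-((-1 : ℚ) ^ i * ((M + 2 * m + i).choose (m + M) : ℚ))) * b4
  rw [Finset.sum_congr rfl h2, ← Finset.mul_sum, fd M (M + 2 * m) m]
  unfold Cx
  rw [if_pos (by omega)]
  have a1 : M + m + 1 - 1 + m = M + 2 * m := by omega
  have a2 : M + m + 1 - 1 = M + m := by omega
  rw [a1, a2, e0]
  have b5 : (M + 2 * m).choose m = (M + 2 * m).choose (M + m) := by
    rw [← Nat.choose_symm (by omega : M + m ≤ M + 2 * m)]
    congr 1; omega
  rw [b5]
  have b6 : (-1 : ℚ) ^ (M + m + 1 + 1 + m) = (-1) ^ M := by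
    have : M + m + 1 + 1 + m = M + 2 * (m + 1) := by ring
    rw [this, pow_add, pow_mul]; simp
  rw [b6]
  ring

/-- the table of the explicit solution -/
noncomputable def GC (n m : ℕ) (j : ℤ) : ℚ :=
  ∑ i ∈ range n, Cx n (m + i) * (-1) ^ i * (bp i).eval ((j : ℚ) - 2)

lemma GC_rec {n : ℕ} (hn : 1 ≤ n) (m : ℕ) (j : ℤ) : GC n m j = GC n m (j + 1) + GC n (m + 1) j := by
  obtain ⟨n', rfl⟩ : ∃ n', n = n' + 1 := ⟨n - 1, by omega⟩
  unfold GC
  rw [Finset.sum_range_succ' _ n', Finset.sum_range_succ' _ n',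
    Finset.sum_range_succ (fun i => Cx (n' + 1) (m + 1 + i) * (-1) ^ i
      * (bp i).eval ((j : ℚ) - 2)) n', Cx_ge (by omega : n' + 1 ≤ m + 1 + n')]
  have h : ∀ i ∈ range n', Cx (n' + 1) (m + (i + 1)) * (-1) ^ (i + 1)
      * (bp (i + 1)).eval ((j : ℚ) - 2)
      = Cx (n' + 1) (m + (i + 1)) * (-1) ^ (i + 1) * (bp (i + 1)).eval (((j + 1 : ℤ) : ℚ) - 2)
        + Cx (n' + 1) (m + 1 + i) * (-1) ^ i * (bp i).eval ((j : ℚ) - 2) := by
    intro i _
    have e1 : ((j + 1 : ℤ) : ℚ) - 2 = ((j : ℚ) - 2) + 1 := by push_cast; ring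
    have e2 : m + (i + 1) = m + 1 + i := by ring
    rw [e1, bp_succ, e2]
    ring
  rw [Finset.sum_congr rfl h, Finset.sum_add_distrib]
  simp only [bp_zero]
  ring

lemma GC_ge {n m : ℕ} (h : n ≤ m) (j : ℤ) : GC n m j = 0 := by
  unfold GC
  apply Finset.sum_eq_zero
  intro i _
  rw [Cx_ge (by omega)]; ring

lemma GC_two {n : ℕ} (hn : 1 ≤ n) (m : ℕ) : GC n m 2 = Cx n m := by
  obtain ⟨n', rfl⟩ : ∃ n', n = n' + 1 := ⟨n - 1, by omega⟩
  unfold GC
  rw [Finset.sum_range_succ' _ n']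
  have : ((2 : ℤ) : ℚ) - 2 = 0 := by norm_num
  rw [this]
  simp only [bp_succ_zero, bp_zero, mul_zero, Finset.sum_const_zero]
  simp

/-- a table with vanishing high differences and vanishing differences at one point vanishes -/
lemma D_zero {D : ℕ → ℤ → ℚ} {n : ℕ} (hD : ∀ m j, D m j = D m (j + 1) + D (m + 1) j)
    (h0 : ∀ m j, n ≤ m → D m j = 0) (c : ℤ) (h1 : ∀ m, m < n → D m c = 0) :
    ∀ d m j, n ≤ m + d → D m j = 0 := by
  intro d
  induction d with
  | zero => intro m j h; exact h0 m j (by omega)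
  | succ d ih =>
    intro m j h
    have hc : ∀ j, D m j = D m (j + 1) := by
      intro j
      rw [hD m j, ih (m + 1) j (by omega), add_zero]
    have hcc : D m c = 0 := by
      by_cases hm : m < n
      · exact h1 m hm
      · exact h0 m c (by omega)
    have hup : ∀ k : ℕ, D m (c + k) = 0 := by
      intro k
      induction k with
      | zero => simpa using hcc
      | succ k ihk =>
        have e : c + ((k + 1 : ℕ) : ℤ) = c + k + 1 := by push_cast; ring
        rw [e, ← hc, ihk]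
    have hdown : ∀ k : ℕ, D m (c - k) = 0 := by
      intro k
      induction k with
      | zero => simpa using hcc
      | succ k ihk =>
        have e : c - ((k + 1 : ℕ) : ℤ) + 1 = c - k := by push_cast; ring
        rw [hc, e, ihk]
    rcases le_total c j with h5 | h5
    · have := hup (j - c).toNat
      have e : c + ((j - c).toNat : ℤ) = j := by omega
      rwa [e] at this
    · have := hdown (c - j).toNat
      have e : c - ((c - j).toNat : ℤ) = j := by omega
      rwa [e] at this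

lemma refl_rec {G : ℕ → ℤ → ℚ} {n : ℕ} (hG : ∀ m j, G m j = G m (j + 1) + G (m + 1) j) (m : ℕ)
    (j : ℤ) : (G m j - (-1) ^ (n + 1 + m) * G m (2 * n + 2 - j - m))
      = (G m (j + 1) - (-1) ^ (n + 1 + m) * G m (2 * n + 2 - (j + 1) - m))
        + (G (m + 1) j - (-1) ^ (n + 1 + (m + 1)) * G (m + 1) (2 * n + 2 - j - ((m + 1 : ℕ) : ℤ))) := by
  have h1 := hG m j
  have h2 := hG m (2 * n + 2 - (j + 1) - m)
  have e1 : (2 * n + 2 - (j + 1) - m + 1 : ℤ) = 2 * n + 2 - j - m := by ring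
  have e2 : (2 * n + 2 - j - ((m + 1 : ℕ) : ℤ) : ℤ) = 2 * n + 2 - (j + 1) - m := by push_cast; ring
  rw [e1] at h2
  rw [e2, h1, h2, ← add_assoc (n + 1) m 1, pow_succ]
  ring

lemma GC_refl {n : ℕ} (hn : 1 ≤ n) (m : ℕ) (j : ℤ) :
    GC n m j = (-1) ^ (n + 1 + m) * GC n m (2 * n + 2 - j - m) := by
  have h := D_zero (D := fun m j => GC n m j - (-1) ^ (n + 1 + m) * GC n m (2 * n + 2 - j - m))
    (n := n) (fun m j => refl_rec (GC_rec hn) m j)
    (fun m j h => by rw [GC_ge h, GC_ge h]; ring) 2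
    (fun m hm => by
      have e1 : (2 * n + 2 - 2 - m : ℤ) = 2 + ((2 * n - 2 - m : ℕ) : ℤ) := by omega
      rw [e1, G_shift (GC_rec hn), GC_two hn]
      have h2 := Cx_sum hm
      have h3 : ∑ i ∈ range (2 * n - 2 - m + 1), (-1 : ℚ) ^ i * ((2 * n - 2 - m).choose i : ℚ)
          * GC n (m + i) 2 = ∑ i ∈ range (2 * n - 2 - m + 1),
            (-1 : ℚ) ^ i * ((2 * n - 2 - m).choose i : ℚ) * Cx n (m + i) := by
        apply Finset.sum_congr rfl
        intro i _
        rw [GC_two hn]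
      rw [h3, h2, ← mul_assoc, ← pow_add, Even.neg_one_pow ⟨n + 1 + m, rfl⟩]
      ring) n m j (by omega)
  linarith

/-- every symmetric table is a multiple of the explicit one -/
theorem G_explicit {G : ℕ → ℤ → ℚ} {n : ℕ} (hn : 1 ≤ n)
    (hG : ∀ m j, G m j = G m (j + 1) + G (m + 1) j)
    (h0 : ∀ m j, n ≤ m → G m j = 0)
    (h1 : ∀ (m : ℕ) (j : ℤ), G m j = (-1) ^ (n + 1 + m) * G m (2 * n + 2 - j - m))
    (h2 : ∀ m, m < n → G m 2 = G (n - 1 - m) 2) (m : ℕ) :
    Cx n 0 * G m 2 = G 0 2 * Cx n m := by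
  have h := G_unique (G := fun m j => Cx n 0 * G m j - G 0 2 * GC n m j) hn
    (fun m j => by rw [hG m j, GC_rec hn m j]; ring)
    (fun m j h => by rw [h0 m j h, GC_ge h]; ring)
    (fun m j => by
      rw [h1 m j, GC_refl hn m j]; ring)
    (fun m hm => by
      rw [h2 m hm, GC_two hn, GC_two hn, Cx_rev hm])
    (by rw [GC_two hn]; ring) m
  rw [GC_two hn] at h
  linarith

end Pool.Agent.R730.MT
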