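import Pool.Agent.R730.MT.Lists

/-!
The words `GG a m = x_{a+2(m-1)}^2 ⋯ x_{a+2}^2 x_a^2`.
-/

namespace Pool.Agent.R730.MT

open Finset

/-- squares of every second letter, largest first -/
noncomputable def GG (a : ℤ) : ℕ → A
  | 0 => 1
  | m + 1 => x (a + 2 * m) * x (a + 2 * m) * GG a m

lemma GG_zero (a : ℤ) : GG a 0 = 1 := rfl
lemma GG_succ (a : ℤ) (m : ℕ) : GG a (m + 1) = x (a + 2 * m) * x (a + 2 * m) * GG a m := rfl

lemma GG_right (a : ℤ) (m : ℕ) : GG a (m + 1) = GG (a + 2) m * (x a * x a) := by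
  induction m with
  | zero => simp [GG]
  | succ m ih =>
    rw [GG_succ, ih, ← mul_assoc, GG_succ (a + 2)]
    have : a + 2 + 2 * (m : ℤ) = a + 2 * ((m + 1 : ℕ) : ℤ) := by push_cast; ring
    rw [this]

/-- the letter combination `θ^m e_j` -/
noncomputable def te (m : ℕ) (j : ℤ) : V := (th ^ m) (e j)

lemma te_zero (j : ℤ) : te 0 j = e j := by simp [te]

lemma Es_te (m : ℕ) (j : ℤ) : Es (te m j) = te m (j + 1) := by
  unfold te; rw [← th_pow_Es, Es_e]

lemma te_succ (m : ℕ) (j : ℤ) : te (m + 1) j = te m j - te m (j + 1) := by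
  rw [← Es_te]; unfold te; rw [pow_succ', Module.End.mul_apply, th_apply]

lemma th_te (m : ℕ) (j : ℤ) : te (m + 1) j = th (te m j) := by
  unfold te; rw [pow_succ', Module.End.mul_apply]

lemma GG_core (H : A) (a : ℤ) (s t : V) (hst : t = Es s)
    (h : H * (io s * x (a + 2) - x (a + 1) * io s - x (a + 2) * io t) = 0) :
    H * (io t * (x a + x (a + 1) + x (a + 2)) * x a) = H * (x a * x a) * (io s - io t) := by
  have c1 := cube2' (e a) t
  have c2 := cube2' (e a) s
  change x a * x a * io t = -(x a * io t * x a) - io t * x a * x a at c1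
  change x a * x a * io s = -(x a * io s * x a) - io s * x a * x a at c2
  have q1 := quad2 (e a) s
  have q2 := quad2 (e (a + 1)) s
  rw [Es_e, ← hst] at q1 q2
  change x a * io t + io s * x (a + 1) = x a * io s + io s * x a + x (a + 1) * io t
    + io t * x (a + 1) at q1
  have a2 : a + 1 + 1 = a + 2 := by ring
  rw [a2] at q2
  change x (a + 1) * io t + io s * x (a + 2) = x (a + 1) * io s + io s * x (a + 1)
    + x (a + 2) * io t + io t * x (a + 2) at q2
  have e1 : H * (io t * (x a + x (a + 1) + x (a + 2)) * x a) - H * (x a * x a) * (io s - io t)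
      = H * (io t * (x a + x (a + 1) + x (a + 2)) * x a
        - x a * x a * io s + x a * x a * io t) := by noncomm_ring
  rw [← sub_eq_zero, e1, c1, c2]
  have e2 : H * (io t * (x a + x (a + 1) + x (a + 2)) * x a
        - (-(x a * io s * x a) - io s * x a * x a) + (-(x a * io t * x a) - io t * x a * x a))
      = H * ((x a * io s + io s * x a + x (a + 1) * io t
        + io t * x (a + 1)) - x a * io t + io t * x (a + 2) - x (a + 1) * io t) * x a := by
    noncomm_ring
  rw [e2, ← q1]
  have e3 : H * (x a * io t + io s * x (a + 1) - x a * io t + io t * x (a + 2)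
      - x (a + 1) * io t) * x a
      = H * ((x (a + 1) * io s + io s * x (a + 1) + x (a + 2) * io t + io t * x (a + 2))
        - x (a + 1) * io s - x (a + 2) * io t - x (a + 1) * io t) * x a := by
    noncomm_ring
  rw [e3, ← q2]
  have e4 : H * (x (a + 1) * io t + io s * x (a + 2) - x (a + 1) * io s - x (a + 2) * io t
      - x (a + 1) * io t) * x a
      = H * (io s * x (a + 2) - x (a + 1) * io s - x (a + 2) * io t) * x a := by
    noncomm_ring
  rw [e4, h, zero_mul]

lemma GG_core2 (H : A) (a : ℤ) (k : V) (hk : H * io k = 0) (hx : H * x (a + 2) = 0) :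
    H * (io (k - Es k) * x (a + 2) - x (a + 1) * io (k - Es k)
      - x (a + 2) * io (Es (k - Es k))) = 0 := by
  have q := quad2 (e (a + 1)) k
  rw [Es_e] at q
  have a2 : a + 1 + 1 = a + 2 := by ring
  rw [a2] at q
  change x (a + 1) * io (Es k) + io k * x (a + 2) = x (a + 1) * io k + io k * x (a + 1)
    + x (a + 2) * io (Es k) + io (Es k) * x (a + 2) at q
  have q2 := congrArg (fun z => H * z) q
  simp only [mul_add] at q2
  rw [← mul_assoc H (io k), ← mul_assoc H (io k), ← mul_assoc H (x (a + 2)), hk, hx] at q2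
  simp only [zero_mul, add_zero] at q2
  rw [map_sub]
  have e1 : H * ((io k - io (Es k)) * x (a + 2) - x (a + 1) * (io k - io (Es k))
      - x (a + 2) * io (Es (k - Es k)))
      = H * io k * x (a + 2) - (H * (x (a + 1) * io k) + H * (io (Es k) * x (a + 2)))
        + H * (x (a + 1) * io (Es k)) - H * x (a + 2) * io (Es (k - Es k)) := by noncomm_ring
  rw [e1, hk, hx, ← q2]
  noncomm_ring

theorem GG_YK (m : ℕ) : (∀ a : ℤ, R (GG a (m + 1)) = (-1) ^ m * (GG a m * io (te m (a + m)))) ∧
    (∀ (a : ℤ) (j : ℕ), j < m → GG a m * io (te j (a + j)) = 0) := by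
  induction m using Nat.strong_induction_on with
  | _ m ih =>
  -- the kill statement first
  have hK : ∀ (a : ℤ) (j : ℕ), j < m → GG a m * io (te j (a + j)) = 0 := by
    intro a j hj
    obtain ⟨m, rfl⟩ : ∃ m', m = m' + 1 := ⟨m - 1, by omega⟩
    by_cases hjm : j < m
    · rw [GG_succ, mul_assoc, (ih m (by omega)).2 a j hjm, mul_zero]
    · have hj' : j = m := by omega
      subst hj'
      have hY := (ih j (by omega)).1 a
      have e1 : GG a j * io (te j (a + j)) = (-1) ^ j * R (GG a (j + 1)) := by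
        rw [hY, ← mul_assoc, ← pow_add, Even.neg_one_pow ⟨j, rfl⟩, one_mul]
      rw [GG_succ, mul_assoc, e1, GG_succ, R_sq_left]
      set y := x (a + 2 * (j : ℤ)) with hy
      have h3 : y * y * y = 0 := xxx _
      have hc : ∀ z : A, y * y * ((-1) ^ j * z) = (-1) ^ j * (y * y * z) := by
        intro z
        have : Commute ((-1 : A) ^ j) (y * y) := (Commute.neg_one_left _).pow_left j
        calc y * y * ((-1) ^ j * z) = (y * y * (-1) ^ j) * z := (mul_assoc _ _ _).symm
          _ = ((-1) ^ j * (y * y)) * z := by rw [this.eq]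
          _ = (-1) ^ j * (y * y * z) := mul_assoc _ _ _
      rw [hc]
      have e2 : y * y * (y * R (y * GG a j) - y * y * R (GG a j))
        = (y * y * y) * R (y * GG a j) - (y * y * y) * (y * R (GG a j)) := by noncomm_ring
      rw [e2, h3]
      simp
  refine ⟨?_, hK⟩
  intro a
  rcases Nat.eq_zero_or_pos m with h0 | h0
  · subst h0
    simp only [GG]
    simp [R_xx, sg_succ, te_zero]
    rfl
  · obtain ⟨m, rfl⟩ : ∃ m', m = m' + 1 := ⟨m - 1, by omega⟩
    have hY := (ih m (by omega)).1 (a + 2)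
    have e0 : GG a (m + 1 + 1) = GG (a + 2 + 2) m * (x (a + 2) * x (a + 2)) * (x a * x a) := by
      rw [GG_right, GG_right]
    have e3 : R (x (a + 2 + 1) * (x a * x a)) = -((x a + x (a + 1) + x (a + 2)) * x a) := by
      rw [R_sq, R_xx, sub_add_cancel, sg_succ (a + 2)]
      have : a + 2 = a + 1 + 1 := by ring
      rw [this, sg_succ, sg_succ]
      noncomm_ring
    rw [e0, R_pull_right, ← GG_right, hY, e3]
    have hidx : a + 2 + (m : ℤ) = a + ((m + 1 : ℕ) : ℤ) + 1 := by push_cast; ring
    rw [hidx]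
    set p : ℤ := a + ((m + 1 : ℕ) : ℤ) with hp
    have hcore : GG (a + 2) m * (io (te m p) * x (a + 2) - x (a + 1) * io (te m p)
        - x (a + 2) * io (te m (p + 1))) = 0 := by
      rcases Nat.eq_zero_or_pos m with h1 | h1
      · subst h1
        have hp1 : p = a + 1 := by rw [hp]; simp
        have q := quad (e (a + 1))
        rw [Es_e] at q
        have a2 : a + 1 + 1 = a + 2 := by ring
        rw [te_zero, te_zero, hp1, a2]
        rw [a2] at q
        change x (a + 1) * x (a + 2) = x (a + 1) * x (a + 1) + x (a + 2) * x (a + 2) at q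
        change GG (a + 2) 0 * (x (a + 1) * x (a + 2) - x (a + 1) * x (a + 1)
          - x (a + 2) * x (a + 2)) = 0
        rw [q]; noncomm_ring
      · obtain ⟨m, rfl⟩ : ∃ m', m = m' + 1 := ⟨m - 1, by omega⟩
        have k1 := (ih (m + 1) (by omega)).2 (a + 2) m (by omega)
        have k2 := (ih (m + 1) (by omega)).2 (a + 2) 0 (by omega)
        simp only [Nat.cast_zero, add_zero, te_zero] at k2
        have hpp : a + 2 + (m : ℤ) = p := by rw [hp]; push_cast; ring
        rw [hpp] at k1
        have h := GG_core2 (GG (a + 2) (m + 1)) a (te m p) k1 k2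
        rw [Es_te, ← te_succ, Es_te] at h
        exact h
    have h := GG_core (GG (a + 2) m) a (te m p) (te m (p + 1)) (Es_te m p).symm hcore
    rw [te_succ, map_sub, GG_right, ← h, pow_succ]
    noncomm_ring

lemma R_GG (a : ℤ) (m : ℕ) : R (GG a (m + 1)) = (-1) ^ m * (GG a m * io (te m (a + m))) :=
  (GG_YK m).1 a

/-- product of `io (te m (p + 2 i))` for `i < j` -/
noncomputable def UU (m : ℕ) (p : ℤ) : ℕ → A
  | 0 => 1
  | j + 1 => UU m p j * io (te m (p + 2 * j))

lemma UU_left (m : ℕ) (p : ℤ) (j : ℕ) : UU m p (j + 1) = io (te m p) * UU m (p + 2) j := by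
  induction j with
  | zero => simp [UU]
  | succ j ih =>
    rw [UU, ih, mul_assoc, UU]
    have : p + 2 + 2 * (j : ℤ) = p + 2 * ((j + 1 : ℕ) : ℤ) := by push_cast; ring
    rw [this]

lemma R_UU (a : A) (m : ℕ) (q : ℤ) (j : ℕ) :
    R (a * UU (m + 1) q j) = (-1) ^ j * (R a * UU m (q + 1) j) := by
  induction j with
  | zero => simp [UU]
  | succ j ih =>
    rw [UU, ← mul_assoc, th_te, R_mul_th, ih, Es_te, UU, pow_succ]
    have : q + 1 + 2 * (j : ℤ) = q + 2 * (j : ℤ) + 1 := by ring
    rw [this]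
    noncomm_ring

lemma R_chain (a : ℤ) (m j : ℕ) :
    R (GG a (m + 1) * UU (m + 1) (a + m + 1) j) = (-1) ^ (m + j) * (GG a m * UU m (a + m) (j + 1)) := by
  rw [R_UU, R_GG, UU_left, pow_add]
  have : a + (m : ℤ) + 1 + 1 = a + m + 2 := by ring
  rw [this]
  have hc : Commute ((-1 : A) ^ m) ((-1) ^ j) := (Commute.refl _).pow_pow m j
  rw [hc.eq]
  noncomm_ring

lemma neg_one_pow_mul_al (N j : ℕ) (a : A) : al N ((-1) ^ j * a) = (-1) ^ j * al N a := by
  induction j with
  | zero => simp
  | succ j ih =>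
    rw [pow_succ', mul_assoc]
    simp only [neg_mul, one_mul, map_neg, ih, pow_succ']

theorem al_chain (N : ℕ) (a : ℤ) (m j : ℕ) :
    al (N + m) (GG a m * UU m (a + m) j) = (-1) ^ (m * (m + j + 1)) * al N (UU 0 a (m + j)) := by
  induction m generalizing j with
  | zero => simp [GG]
  | succ m ih =>
    have h := R_chain a m j
    have e1 : a + ((m + 1 : ℕ) : ℤ) = a + m + 1 := by push_cast; ring
    rw [← add_assoc N m 1, al_succ, e1, h, neg_one_pow_mul_al, ih, ← mul_assoc, ← pow_add]
    have e2 : m + (j + 1) = m + 1 + j := by ring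
    rw [e2]
    congr 1
    have e3 : (m + 1) * (m + 1 + j + 1) = (m + j + m * (m + 1 + j + 1)) + 2 := by ring
    rw [e3, pow_add _ _ 2]
    norm_num

@[simp] lemma length_evens (n : ℕ) : (evens n).length = n := by simp [evens]

lemma evens_succ (n : ℕ) : evens (n + 1) = evens n ++ [2 * ((n : ℤ) + 1)] := by
  simp [evens, List.range_succ]

lemma wd_evens (n : ℕ) : wd (evens n) = UU 0 2 n := by
  induction n with
  | zero => simp [evens, UU]
  | succ n ih =>
    rw [evens_succ, wd_append, ih, UU, te_zero, wd_cons, wd_nil, mul_one]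
    have : 2 * ((n : ℤ) + 1) = 2 + 2 * n := by ring
    rw [this]; rfl

lemma wd_dbl_evens (n : ℕ) : wd (dbl (evens n).reverse) = GG 2 n := by
  induction n with
  | zero => simp [evens, dbl, GG]
  | succ n ih =>
    rw [evens_succ, List.reverse_append, List.reverse_singleton, List.singleton_append, dbl_cons,
      wd_cons, wd_cons, ih, GG_succ, ← mul_assoc]
    have : 2 * ((n : ℤ) + 1) = 2 + 2 * n := by ring
    rw [this]

theorem al_GG (n : ℕ) : al (2 * n) (GG 2 n) = al n (wd (evens n)) := by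
  have h := al_chain n 2 n 0
  simp only [UU, mul_one, add_zero] at h
  have e1 : 2 * n = n + n := by ring
  rw [e1, h, wd_evens]
  have : (-1 : ℚ) ^ (n * (n + 1)) = 1 := (Nat.even_mul_succ_self n).neg_one_pow
  rw [this, one_mul]

lemma R_desc (i : ℤ) (c : A) : R (x (i + 1) * x i * c) = -(x i * x i * R c) := by
  rw [R_split, R_xx, R_x]; noncomm_ring

lemma R_down (n : ℕ) : R (wd (up 1 (2 * n + 1)).reverse) = (-1) ^ n * GG 2 n := by
  induction n with
  | zero => simp [up, R_x, GG]
  | succ n ih =>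
    have e1 : 2 * (n + 1) + 1 = (2 * n + 1) + 1 + 1 := by ring
    rw [e1, up_succ, up_succ, List.reverse_append, List.reverse_append, List.reverse_singleton,
      List.reverse_singleton, List.singleton_append, List.singleton_append, wd_cons, wd_cons,
      ← mul_assoc]
    have e2 : (1 : ℤ) + ((2 * n + 1 + 1 : ℕ) : ℤ) = (1 + ((2 * n + 1 : ℕ) : ℤ)) + 1 := by
      push_cast; ring
    rw [e2, R_desc, ih, GG_succ, pow_succ]
    have e3 : (1 : ℤ) + ((2 * n + 1 : ℕ) : ℤ) = 2 + 2 * n := by push_cast; ring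
    rw [e3]
    have hc : Commute ((-1 : A) ^ n) (x (2 + 2 * (n : ℤ)) * x (2 + 2 * (n : ℤ))) :=
      (Commute.neg_one_left _).pow_left n
    have e4 : x (2 + 2 * (n : ℤ)) * x (2 + 2 * (n : ℤ)) * ((-1) ^ n * GG 2 n)
        = (-1) ^ n * (x (2 + 2 * (n : ℤ)) * x (2 + 2 * (n : ℤ)) * GG 2 n) := by
      rw [← mul_assoc, ← hc.eq, mul_assoc]
    rw [e4]
    noncomm_ring

theorem al_down (n : ℕ) :
    al (2 * n + 1) (wd (up 1 (2 * n + 1)).reverse) = (-1) ^ n * al n (wd (evens n)) := by
  rw [al_succ, R_down, neg_one_pow_mul_al, al_GG]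

end Pool.Agent.R730.MT
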