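import Mathlib

/-!
The linear algebra of the refined enumeration of alternating sign matrices: tables `G m j`
(differences of a polynomial of degree less than `n`), symmetric under the reflection of the
argument and with palindromic differences, are determined up to a factor.
-/

namespace Pool.Agent.R730.MT

open Finset

/-- positive shifts -/
lemma G_shift {G : ℕ → ℤ → ℚ} (hG : ∀ m j, G m j = G m (j + 1) + G (m + 1) j) (k : ℕ) :
    ∀ (m : ℕ) (j : ℤ), G m (j + k) = ∑ i ∈ range (k + 1), (-1) ^ i * (k.choose i : ℚ) * G (m + i) j := by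
  induction k with
  | zero => intro m j; simp
  | succ k ih =>
    intro m j
    have h1 : G m (j + ((k + 1 : ℕ) : ℤ)) = G m (j + k) - G (m + 1) (j + k) := by
      have := hG m (j + k)
      have e : j + ((k + 1 : ℕ) : ℤ) = j + k + 1 := by push_cast; ring
      rw [e]; linarith
    rw [h1, ih m j, ih (m + 1) j, Finset.sum_range_succ' _ (k + 1)]
    rw [Finset.sum_range_succ' (fun i => (-1 : ℚ) ^ i * (k.choose i : ℚ) * G (m + i) j) k]
    rw [Finset.sum_range_succ (fun i => (-1 : ℚ) ^ i * (k.choose i : ℚ) * G (m + 1 + i) j) k]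
    rw [Finset.sum_range_succ (fun i => (-1 : ℚ) ^ (i + 1) * ((k + 1).choose (i + 1) : ℚ)
      * G (m + (i + 1)) j) k]
    have h2 : ∑ i ∈ range k, (-1 : ℚ) ^ (i + 1) * ((k + 1).choose (i + 1) : ℚ) * G (m + (i + 1)) j
        = ∑ i ∈ range k, (-1 : ℚ) ^ (i + 1) * (k.choose (i + 1) : ℚ) * G (m + (i + 1)) j
          - ∑ i ∈ range k, (-1 : ℚ) ^ i * (k.choose i : ℚ) * G (m + 1 + i) j := by
      rw [← Finset.sum_sub_distrib]
      apply Finset.sum_congr rfl
      intro i _
      rw [Nat.choose_succ_succ]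
      have : m + (i + 1) = m + 1 + i := by ring
      rw [this]
      push_cast
      ring
    rw [h2]
    have h3 : m + (k + 1) = m + 1 + k := by ring
    rw [h3]
    simp only [Nat.choose_self, Nat.choose_zero_right]
    push_cast
    ring

/-- differences from values -/
lemma G_diff {G : ℕ → ℤ → ℚ} (hG : ∀ m j, G m j = G m (j + 1) + G (m + 1) j) (k : ℕ) :
    ∀ (m : ℕ) (j : ℤ), G (m + k) j = ∑ i ∈ range (k + 1), (-1) ^ i * (k.choose i : ℚ) * G m (j + i) := by
  induction k with
  | zero => intro m j; simp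
  | succ k ih =>
    intro m j
    have h1 : G (m + (k + 1)) j = G (m + k) j - G (m + k) (j + 1) := by
      have := hG (m + k) j
      have e : m + (k + 1) = m + k + 1 := by ring
      rw [e]; linarith
    rw [h1, ih m j, ih m (j + 1), Finset.sum_range_succ' _ (k + 1)]
    rw [Finset.sum_range_succ' (fun i => (-1 : ℚ) ^ i * (k.choose i : ℚ) * G m (j + (i : ℤ))) k]
    rw [Finset.sum_range_succ (fun i => (-1 : ℚ) ^ i * (k.choose i : ℚ) * G m (j + 1 + (i : ℤ))) k]
    rw [Finset.sum_range_succ (fun i => (-1 : ℚ) ^ (i + 1) * ((k + 1).choose (i + 1) : ℚ)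
      * G m (j + ((i + 1 : ℕ) : ℤ))) k]
    have h2 : ∑ i ∈ range k, (-1 : ℚ) ^ (i + 1) * ((k + 1).choose (i + 1) : ℚ)
        * G m (j + ((i + 1 : ℕ) : ℤ))
        = ∑ i ∈ range k, (-1 : ℚ) ^ (i + 1) * (k.choose (i + 1) : ℚ) * G m (j + ((i + 1 : ℕ) : ℤ))
          - ∑ i ∈ range k, (-1 : ℚ) ^ i * (k.choose i : ℚ) * G m (j + 1 + (i : ℤ)) := by
      rw [← Finset.sum_sub_distrib]
      apply Finset.sum_congr rfl
      intro i _
      rw [Nat.choose_succ_succ]
      have : j + ((i + 1 : ℕ) : ℤ) = j + 1 + i := by push_cast; ring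
      rw [this]
      push_cast
      ring
    rw [h2]
    have h3 : j + ((k + 1 : ℕ) : ℤ) = j + 1 + k := by push_cast; ring
    rw [h3]
    simp only [Nat.choose_self, Nat.choose_zero_right, Nat.cast_zero, add_zero]
    push_cast
    ring

/-- negative shifts -/
lemma G_back {G : ℕ → ℤ → ℚ} (hG : ∀ m j, G m j = G m (j + 1) + G (m + 1) j) {n : ℕ}
    (h0 : ∀ m j, n ≤ m → G m j = 0) (r : ℕ) :
    ∀ (d m : ℕ), n ≤ m + d → ∀ j : ℤ,
      G m j = ∑ k ∈ range n, ((r + k).choose k : ℚ) * G (m + k) (j + r + 1) := by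
  induction r with
  | zero =>
    intro d
    induction d with
    | zero =>
      intro m hm j
      rw [h0 m j (by omega)]
      symm
      apply Finset.sum_eq_zero
      intro k _
      rw [h0 (m + k) _ (by omega), mul_zero]
    | succ d ih =>
      intro m hm j
      rw [hG m j, ih (m + 1) (by omega) j]
      rcases Nat.eq_zero_or_pos n with hn | hn
      · subst hn
        simp [h0 m (j + 1) (Nat.zero_le _)]
      · obtain ⟨n', rfl⟩ : ∃ n', n = n' + 1 := ⟨n - 1, by omega⟩
        rw [Finset.sum_range_succ, Finset.sum_range_succ' _ n', h0 (m + 1 + n') _ (by omega)]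
        simp only [Nat.choose_self, zero_add, Nat.cast_zero, add_zero]
        rw [mul_zero, add_zero, add_comm]
        congr 1
        · apply Finset.sum_congr rfl
          intro k _
          have : m + (k + 1) = m + 1 + k := by ring
          rw [this]
        · simp
  | succ r ihr =>
    intro d
    induction d with
    | zero =>
      intro m hm j
      rw [h0 m j (by omega)]
      symm
      apply Finset.sum_eq_zero
      intro k _
      rw [h0 (m + k) _ (by omega), mul_zero]
    | succ d ih =>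
      intro m hm j
      rw [hG m j, ih (m + 1) (by omega) j, ihr (d + 1) m hm (j + 1)]
      rcases Nat.eq_zero_or_pos n with hn | hn
      · subst hn; simp
      · obtain ⟨n', rfl⟩ : ∃ n', n = n' + 1 := ⟨n - 1, by omega⟩
        have e1 : j + 1 + (r : ℤ) + 1 = j + ((r + 1 : ℕ) : ℤ) + 1 := by push_cast; ring
        rw [e1]
        rw [Finset.sum_range_succ (fun k => (((r + 1 + k).choose k : ℕ) : ℚ)
          * G (m + 1 + k) (j + ((r + 1 : ℕ) : ℤ) + 1)) n', h0 (m + 1 + n') _ (by omega), mul_zero,
          add_zero, Finset.sum_range_succ' _ n', Finset.sum_range_succ' _ n']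
        have h2 : ∑ k ∈ range n', (((r + 1 + (k + 1)).choose (k + 1) : ℕ) : ℚ)
            * G (m + (k + 1)) (j + ((r + 1 : ℕ) : ℤ) + 1)
            = ∑ k ∈ range n', (((r + (k + 1)).choose (k + 1) : ℕ) : ℚ)
              * G (m + (k + 1)) (j + ((r + 1 : ℕ) : ℤ) + 1)
            + ∑ k ∈ range n', (((r + 1 + k).choose k : ℕ) : ℚ)
              * G (m + 1 + k) (j + ((r + 1 : ℕ) : ℤ) + 1) := by
          rw [← Finset.sum_add_distrib]
          apply Finset.sum_congr rfl
          intro k _
          have a1 : m + (k + 1) = m + 1 + k := by ring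
          have a2 : r + 1 + (k + 1) = (r + 1 + k) + 1 := by ring
          have a3 : r + (k + 1) = r + 1 + k := by ring
          rw [a1, a2, Nat.choose_succ_succ, a3]
          push_cast
          ring
        rw [h2]
        simp only [Nat.choose_zero_right, add_zero]
        ring

/-- the uniqueness theorem -/
theorem G_unique {G : ℕ → ℤ → ℚ} {n : ℕ} (hn : 1 ≤ n)
    (hG : ∀ m j, G m j = G m (j + 1) + G (m + 1) j)
    (h0 : ∀ m j, n ≤ m → G m j = 0)
    (h1 : ∀ (m : ℕ) (j : ℤ), G m j = (-1) ^ (n + 1 + m) * G m (2 * n + 2 - j - m))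
    (h2 : ∀ m, m < n → G m 2 = G (n - 1 - m) 2)
    (h3 : G 0 2 = 0) : ∀ m, G m 2 = 0 := by
  set v : ℕ → ℚ := fun p => G (p + 1) (n + 2) with hv
  -- the top entry
  have hconst : ∀ j, G (n - 1) j = G (n - 1) (j + 1) := by
    intro j
    have := hG (n - 1) j
    rw [h0 (n - 1 + 1) j (by omega)] at this
    linarith
  have hvtop : ∀ p, n ≤ p + 2 → v p = 0 := by
    intro p hp
    by_cases hp2 : n ≤ p + 1
    · exact h0 _ _ hp2
    · have hp3 : p + 1 = n - 1 := by omega
      simp only [hv]
      rw [hp3]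
      have hc : ∀ k : ℕ, G (n - 1) (2 + k) = G (n - 1) 2 := by
        intro k
        induction k with
        | zero => simp
        | succ k ih =>
          have e : (2 : ℤ) + ((k + 1 : ℕ) : ℤ) = 2 + k + 1 := by push_cast; ring
          rw [e, ← hconst, ih]
      have e2 : (n : ℤ) + 2 = 2 + (n : ℕ) := by ring
      rw [e2, hc n, ← Nat.sub_zero (n - 1), ← h2 0 (by omega), h3]
  -- lower relation
  have hL : ∀ p, p + 3 ≤ n → v p = (-1) ^ (n + 1) * ∑ q ∈ range (p + 1),
      (-1) ^ q * (p.choose q : ℚ) * v q := by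
    intro p hp
    obtain ⟨k, hk⟩ : ∃ k, n = p + 3 + k := ⟨n - (p + 3), by omega⟩
    have s1 : v p = (-1) ^ (n + 1 + (p + 1)) * G (p + 1) (2 + k) := by
      simp only [hv]
      rw [h1 (p + 1) (n + 2)]
      congr 2
      rw [hk]; push_cast; ring
    have s2 : G (p + 1) (2 + k) = ∑ i ∈ range (k + 1), (-1) ^ i * (k.choose i : ℚ) * G (p + 1 + i) 2 :=
      G_shift hG k (p + 1) 2
    have s3 : ∑ i ∈ range (k + 1), (-1 : ℚ) ^ i * (k.choose i : ℚ) * G (p + 1 + i) 2
        = (-1) ^ k * ∑ i ∈ range (k + 1), (-1 : ℚ) ^ i * (k.choose i : ℚ) * G (1 + i) 2 := by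
      rw [Finset.mul_sum, ← Finset.sum_range_reflect]
      apply Finset.sum_congr rfl
      intro i hi
      rw [mem_range] at hi
      have a1 : k + 1 - 1 - i = k - i := by omega
      rw [a1, h2 (p + 1 + (k - i)) (by omega)]
      have a2 : n - 1 - (p + 1 + (k - i)) = 1 + i := by omega
      rw [a2, Nat.choose_symm (by omega)]
      have a3 : (-1 : ℚ) ^ (k - i) = (-1) ^ k * (-1) ^ i := by
        have : (-1 : ℚ) ^ (k - i) * (-1) ^ i = (-1) ^ k := by rw [← pow_add]; congr 1; omega
        have h4 : (-1 : ℚ) ^ i * (-1) ^ i = 1 := by rw [← pow_add, Even.neg_one_pow ⟨i, rfl⟩]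
        calc (-1 : ℚ) ^ (k - i) = (-1 : ℚ) ^ (k - i) * ((-1) ^ i * (-1) ^ i) := by rw [h4, mul_one]
          _ = (-1) ^ k * (-1) ^ i := by rw [← mul_assoc, this]
      rw [a3]; ring
    have s4 : ∑ i ∈ range (k + 1), (-1 : ℚ) ^ i * (k.choose i : ℚ) * G (1 + i) 2 = G 1 (2 + k) :=
      (G_shift hG k 1 2).symm
    have s5 : G 1 (2 + k) = (-1) ^ (n + 1 + 1) * G 1 (n + 2 + p) := by
      rw [h1 1 (2 + k)]
      congr 2
      rw [hk]; push_cast; ring
    have s6 : G 1 ((n : ℤ) + 2 + p) = ∑ q ∈ range (p + 1), (-1) ^ q * (p.choose q : ℚ) * v q := by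
      rw [G_shift hG p 1 (n + 2)]
      apply Finset.sum_congr rfl
      intro q _
      simp only [hv]
      rw [add_comm 1 q]
    rw [s1, s2, s3, s4, s5, s6, ← mul_assoc, ← mul_assoc, ← pow_add, ← pow_add]
    congr 1
    have : n + 1 + (p + 1) + k + (n + 1 + 1) = (n + 1) + 2 * (n + 0) := by omega
    rw [this, pow_add, pow_mul]
    simp
  -- upper relation
  set u : ℕ → ℚ := fun p => ((p : ℚ) + 1) * (p + 2) * v p with hu
  have hU : ∀ p, p + 2 ≤ n → u p = (-1) ^ (n + p) * ∑ q ∈ range (n - 2), (q.choose p : ℚ) * u q := by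
    intro p hp
    have s1 : v p = (-1) ^ (n + 1 + (p + 1)) * G (p + 1) (n - 1 - p) := by
      simp only [hv]
      rw [h1 (p + 1) (n + 2)]
      congr 2
      push_cast; ring
    have s2 := G_back hG h0 (p + 2) n (p + 1) (by omega) ((n : ℤ) - 1 - p)
    have e1 : (n : ℤ) - 1 - p + ((p + 2 : ℕ) : ℤ) + 1 = n + 2 := by push_cast; ring
    rw [e1] at s2
    have s3 : u p = (-1) ^ (n + p) * ∑ k ∈ range n, ((p + k).choose p : ℚ) * u (p + k) := by
      simp only [hu]
      rw [s1, s2]
      have e2 : (-1 : ℚ) ^ (n + 1 + (p + 1)) = (-1) ^ (n + p) := by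
        have : n + 1 + (p + 1) = (n + p) + 2 := by ring
        rw [this, pow_add]; norm_num
      rw [e2, Finset.mul_sum, Finset.mul_sum, Finset.mul_sum]
      apply Finset.sum_congr rfl
      intro k _
      have e3 : p + 1 + k = p + k + 1 := by ring
      rw [e3]
      change _ = (-1) ^ (n + p) * (((p + k).choose p : ℚ) * (((((p + k : ℕ) : ℚ) + 1)
        * (((p + k : ℕ) : ℚ) + 2)) * G (p + k + 1) (n + 2)))
      have e4 : ((p : ℚ) + 1) * (p + 2) * ((p + 2 + k).choose k : ℚ)
          = ((p + k).choose p : ℚ) * ((((p + k : ℕ) : ℚ) + 1) * (((p + k : ℕ) : ℚ) + 2)) := by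
        have f1 : (p + 2 + k).choose k * (k.factorial * (p + 2).factorial) = (p + 2 + k).factorial := by
          have := Nat.add_choose_mul_factorial_mul_factorial (p + 2) k
          rw [← this]; ring
        have f2 : (p + k).choose p * (p.factorial * k.factorial) = (p + k).factorial := by
          have := Nat.add_choose_mul_factorial_mul_factorial p k
          rw [Nat.choose_symm_add, ← this]; ring
        have f3 : (p + 2).factorial = (p + 2) * ((p + 1) * p.factorial) := by
          rw [Nat.factorial_succ, Nat.factorial_succ]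
        have f4 : (p + 2 + k).factorial = (p + k + 2) * ((p + k + 1) * (p + k).factorial) := by
          have : p + 2 + k = (p + k) + 1 + 1 := by ring
          rw [this, Nat.factorial_succ, Nat.factorial_succ]
        have g1 : ((p + 2 + k).choose k : ℚ) * (k.factorial * (p + 2).factorial)
            = (p + 2 + k).factorial := by exact_mod_cast f1
        have g2 : ((p + k).choose p : ℚ) * (p.factorial * k.factorial) = (p + k).factorial := by
          exact_mod_cast f2
        rw [f3, f4, ] at g1
        push_cast at g1 ⊢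
        rw [← g2] at g1
        have hp0 : (p.factorial : ℚ) ≠ 0 := by positivity
        have hk0 : (k.factorial : ℚ) ≠ 0 := by positivity
        have : (p.factorial : ℚ) * k.factorial ≠ 0 := mul_ne_zero hp0 hk0
        apply mul_right_cancel₀ this
        linear_combination g1
      linear_combination ((-1) ^ (n + p) * G (p + k + 1) (n + 2)) * e4
    rw [s3]
    congr 1
    have hz : ∀ q, n - 2 ≤ q → u q = 0 := by
      intro q hq
      simp only [hu]
      rw [hvtop q (by omega), mul_zero]
    -- both sums equal the sum over a long range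
    have t1 : ∑ q ∈ range (n - 2), (q.choose p : ℚ) * u q = ∑ q ∈ range (p + n), (q.choose p : ℚ) * u q := by
      apply Finset.sum_subset
      · intro q hq; rw [mem_range] at hq ⊢; omega
      · intro q _ hq
        rw [mem_range] at hq
        rw [hz q (by omega), mul_zero]
    rw [t1, Finset.sum_range_add]
    have t2 : ∑ q ∈ range p, (q.choose p : ℚ) * u q = 0 := by
      apply Finset.sum_eq_zero
      intro q hq
      rw [mem_range] at hq
      rw [Nat.choose_eq_zero_of_lt hq]; simp
    rw [t2, zero_add]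
  -- orthogonality
  have hS : ∑ p ∈ range (n - 2), u p * v p = 0 := by
    have e1 : ∑ p ∈ range (n - 2), u p * v p
        = ∑ p ∈ range (n - 2), ∑ q ∈ range (n - 2), (-1) ^ (n + p) * (q.choose p : ℚ) * u q * v p := by
      apply Finset.sum_congr rfl
      intro p hp
      rw [mem_range] at hp
      conv_lhs => rw [hU p (by omega)]
      rw [Finset.mul_sum, Finset.sum_mul]
      apply Finset.sum_congr rfl
      intro q _
      ring
    have e2 : ∑ p ∈ range (n - 2), ∑ q ∈ range (n - 2), (-1) ^ (n + p) * (q.choose p : ℚ) * u q * v p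
        = ∑ q ∈ range (n - 2), -(u q * v q) := by
      rw [Finset.sum_comm]
      apply Finset.sum_congr rfl
      intro q hq
      rw [mem_range] at hq
      have h5 : ∑ p ∈ range (n - 2), (-1 : ℚ) ^ (n + p) * (q.choose p : ℚ) * u q * v p
          = (-1) ^ n * u q * ∑ p ∈ range (n - 2), (-1) ^ p * (q.choose p : ℚ) * v p := by
        rw [Finset.mul_sum]
        apply Finset.sum_congr rfl
        intro p _
        rw [pow_add]; ring
      have h6 : ∑ p ∈ range (n - 2), (-1 : ℚ) ^ p * (q.choose p : ℚ) * v p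
          = ∑ p ∈ range (q + 1), (-1 : ℚ) ^ p * (q.choose p : ℚ) * v p := by
        symm
        apply Finset.sum_subset
        · intro p hp; rw [mem_range] at hp ⊢; omega
        · intro p _ hp
          rw [mem_range] at hp
          rw [Nat.choose_eq_zero_of_lt (by omega)]; simp
      have h7 := hL q (by omega)
      have h8 : ∑ p ∈ range (q + 1), (-1 : ℚ) ^ p * (q.choose p : ℚ) * v p = (-1) ^ (n + 1) * v q := by
        rw [h7, ← mul_assoc, ← pow_add, Even.neg_one_pow ⟨n + 1, rfl⟩, one_mul]
      rw [h5, h6, h8]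
      have h9 : (-1 : ℚ) ^ n * (-1) ^ (n + 1) = -1 := by
        rw [← pow_add, Odd.neg_one_pow ⟨n, by ring⟩]
      linear_combination (u q * v q) * h9
    rw [e2, Finset.sum_neg_distrib] at e1
    linarith
  have hv0 : ∀ p, v p = 0 := by
    intro p
    by_cases hp : p < n - 2
    · have hnn : ∀ q ∈ range (n - 2), 0 ≤ u q * v q := by
        intro q _
        have : u q * v q = ((q : ℚ) + 1) * (q + 2) * (v q) ^ 2 := by simp only [hu]; ring
        rw [this]; positivity
      have h5 := (Finset.sum_eq_zero_iff_of_nonneg hnn).mp hS p (by rw [mem_range]; exact hp)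
      have h6 : ((p : ℚ) + 1) * (p + 2) * (v p) ^ 2 = 0 := by
        rw [← h5]; simp only [hu]; ring
      have h7 : ((p : ℚ) + 1) * (p + 2) ≠ 0 := by positivity
      exact pow_eq_zero_iff (two_ne_zero) |>.mp ((mul_eq_zero.mp h6).resolve_left h7)
    · exact hvtop p (by omega)
  intro m
  rcases Nat.eq_zero_or_pos m with hm | hm
  · rw [hm]; exact h3
  · have h5 := G_back hG h0 (n - 1) n m (by omega) 2
    rw [h5]
    apply Finset.sum_eq_zero
    intro k _
    have e1 : (2 : ℤ) + ((n - 1 : ℕ) : ℤ) + 1 = n + 2 := by omega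
    have e2 : m + k = (m + k - 1) + 1 := by omega
    rw [e1, e2]
    have := hv0 (m + k - 1)
    simp only [hv] at this
    rw [this, mul_zero]

end Pool.Agent.R730.MT
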