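import Pool.Agent.R730.MT.Count

/-!
Lists of integers used for the bottom rows.
-/

namespace Pool.Agent.R730.MT

@[simp] lemma up_zero (a : ℤ) : up a 0 = [] := rfl

lemma up_succ (a : ℤ) (m : ℕ) : up a (m + 1) = up a m ++ [a + m] := by
  simp [up, List.range_succ]

lemma up_succ' (a : ℤ) (m : ℕ) : up a (m + 1) = a :: up (a + 1) m := by
  simp only [up, List.range_succ_eq_map, List.map_cons, List.map_map]
  congr 1
  · simp
  · apply List.map_congr_left
    intro j _
    simp only [Function.comp]
    push_cast; ring

@[simp] lemma length_up (a : ℤ) (m : ℕ) : (up a m).length = m := by simp [up]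

@[simp] lemma length_dbl (l : List ℤ) : (dbl l).length = 2 * l.length := by
  induction l with
  | nil => simp [dbl]
  | cons j l ih =>
    have : dbl (j :: l) = j :: j :: dbl l := by simp [dbl]
    rw [this]; simp only [List.length_cons, ih]; ring

lemma dbl_cons (j : ℤ) (l : List ℤ) : dbl (j :: l) = j :: j :: dbl l := by simp [dbl]

lemma wd_up (a : ℤ) (m : ℕ) : wd (up a m) = run a m := by
  induction m with
  | zero => simp [run]
  | succ m ih => rw [up_succ, wd_append, ih, run_succ]; simp

lemma wd_dbl_up (a : ℤ) (m : ℕ) : wd (dbl (up a m).reverse) = T a m := by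
  induction m with
  | zero => simp [T, dbl]
  | succ m ih =>
    rw [up_succ, List.reverse_append, List.reverse_singleton, List.singleton_append, dbl_cons,
      wd_cons, wd_cons, ih, T_succ, mul_assoc]

end Pool.Agent.R730.MT
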