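import Pool.Agent.R730.MT.ASM3
import Pool.Agent.R730.MT.GG

/-!
The refined numbers as values of the functional.
-/

namespace Pool.Agent.R730.MT

open Finset

lemma IsASM.tr {n : ℕ} {M : Matrix (Fin n) (Fin n) ℤ} (h : IsASM M) :
    IsASM (fun i j => M j i : Matrix (Fin n) (Fin n) ℤ) := ⟨h.2, h.1⟩

lemma IsASM.flip {n : ℕ} {M : Matrix (Fin n) (Fin n) ℤ} (h : IsASM M) :
    IsASM (fun i j => M (Fin.rev i) j : Matrix (Fin n) (Fin n) ℤ) :=
  ⟨fun i => h.1 (Fin.rev i), fun j => (h.2 j).rev⟩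

/-- arrays with the 1 of the first column in row `c` -/
noncomputable def colEquiv (n : ℕ) (hn : 0 < n) (c : Fin n) :
    {f // PA n n (ind (k0 n)) f ∧ f c 0 = 1} ≃
      {M : Matrix (Fin n) (Fin n) ℤ // IsASM M ∧ M ⟨0, hn⟩ c = 1} where
  toFun f := ⟨fun i j => ((asmEquiv n).symm ⟨f.1, f.2.1⟩).1 j i,
    ((asmEquiv n).symm ⟨f.1, f.2.1⟩).2.tr, f.2.2⟩
  invFun M := ⟨(asmEquiv n ⟨fun i j => M.1 j i, M.2.1.tr⟩).1,
    (asmEquiv n ⟨fun i j => M.1 j i, M.2.1.tr⟩).2, by
      change mf (fun i j => M.1 j i) (c : ℕ) 0 = 1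
      unfold mf
      rw [dif_pos ⟨c.2, hn⟩]
      exact M.2.2⟩
  left_inv f := by
    apply Subtype.ext
    have := (asmEquiv n).apply_symm_apply ⟨f.1, f.2.1⟩
    have h2 := congrArg Subtype.val this
    exact h2
  right_inv M := by
    apply Subtype.ext
    have := (asmEquiv n).symm_apply_apply ⟨fun i j => M.1 j i, M.2.1.tr⟩
    have h2 := congrArg Subtype.val this
    funext i j
    exact congrFun (congrFun h2 j) i

/-- arrays with the 1 of the last row in column `c` -/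
noncomputable def rowEquiv (q : ℕ) (c : Fin (q + 1)) :
    {f // PA (q + 1) (q + 1) (ind (k0 (q + 1))) f ∧ f q c = 1} ≃
      {M : Matrix (Fin (q + 1)) (Fin (q + 1)) ℤ // IsASM M ∧ M ⟨0, Nat.succ_pos q⟩ c = 1} where
  toFun f := ⟨fun i j => ((asmEquiv (q + 1)).symm ⟨f.1, f.2.1⟩).1 (Fin.rev i) j,
    ((asmEquiv (q + 1)).symm ⟨f.1, f.2.1⟩).2.flip, by
      change f.1 ((Fin.rev (⟨0, Nat.succ_pos q⟩ : Fin (q + 1)) : Fin (q + 1)) : ℕ) c = 1
      rw [Fin.val_rev]
      exact f.2.2⟩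
  invFun M := ⟨(asmEquiv (q + 1) ⟨fun i j => M.1 (Fin.rev i) j, M.2.1.flip⟩).1,
    (asmEquiv (q + 1) ⟨fun i j => M.1 (Fin.rev i) j, M.2.1.flip⟩).2, by
      change mf (fun i j => M.1 (Fin.rev i) j) q (c : ℕ) = 1
      unfold mf
      rw [dif_pos ⟨Nat.lt_succ_self q, c.2⟩]
      have : Fin.rev (⟨q, Nat.lt_succ_self q⟩ : Fin (q + 1)) = ⟨0, Nat.succ_pos q⟩ := by
        ext; simp [Fin.val_rev]
      simp only [this]
      exact M.2.2⟩
  left_inv f := by
    apply Subtype.ext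
    have := (asmEquiv (q + 1)).apply_symm_apply ⟨f.1, f.2.1⟩
    have h2 := congrArg Subtype.val this
    simp only [Fin.rev_rev]
    exact h2
  right_inv M := by
    apply Subtype.ext
    have := (asmEquiv (q + 1)).symm_apply_apply ⟨fun i j => M.1 (Fin.rev i) j, M.2.1.flip⟩
    have h2 := congrArg Subtype.val this
    funext i j
    have h3 := congrFun (congrFun h2 (Fin.rev i)) j
    simp only [Fin.rev_rev] at h3
    exact h3

lemma ofFn_shift (a : ℤ) (m : ℕ) : List.ofFn (fun i : Fin m => a + (i : ℕ)) = up a m := by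
  unfold up
  rw [List.ofFn_eq_map, ← List.map_coe_finRange_eq_range, List.map_map]
  rfl

lemma k0_cons (s : ℕ) : (Fin.cons 1 (fun a : Fin s => (2 : ℤ) + (a : ℕ)) : Fin (s + 1) → ℤ)
    = k0 (s + 1) := by
  funext i
  refine Fin.cases ?_ (fun i => ?_) i
  · simp [k0]
  · simp [k0]; ring

theorem refASM_col (i0 d : ℕ) : (refASM (i0 + d + 1) ⟨i0, by omega⟩ : ℚ)
    = al (i0 + 1) (x 2 * (R ^ d) (run 2 (i0 + d))) := by
  have h := col_count (i0 + d + 1) i0 (by omega) d (fun a => (2 : ℤ) + (a : ℕ))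
    (by
      have := k0_cons (i0 + d)
      rw [this]; exact k0_mono _)
    (by
      have := k0_cons (i0 + d)
      rw [this]; exact k0_bd _)
  rw [k0_cons (i0 + d), ofFn_shift, wd_up] at h
  rw [← h]
  unfold refASM
  rw [Nat.card_congr (colEquiv (i0 + d + 1) (by omega) ⟨i0, by omega⟩)]

/-- the row `1, ..., q+1` without `c+1` -/
def lc (q c : ℕ) : Fin q → ℤ := fun a => if (a : ℕ) < c then (a : ℕ) + 1 else (a : ℕ) + 2

lemma lc_mono (q c : ℕ) : StrictMono (lc q c) := by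
  intro a b hab
  have h : (a : ℕ) < b := hab
  simp only [lc]
  split_ifs <;> omega

lemma lc_bd (q c : ℕ) (a : Fin q) : 1 ≤ lc q c a ∧ lc q c a ≤ ((q + 1 : ℕ) : ℤ) := by
  have := a.2
  simp only [lc]
  split_ifs <;> omega

lemma lc_mem (q c : ℕ) : lc q c ∈ F (k0 (q + 1)) := by
  rw [mem_F]
  refine ⟨fun a => ?_, lc_mono q c⟩
  simp only [lc, k0, Fin.val_castSucc, Fin.val_succ]
  split_ifs <;> constructor <;> omega

lemma ind_lc (q c : ℕ) : ind (lc q c) c = 0 := by
  rcases ind_eq (lc_mono q c) c with ⟨_, a, ha⟩ | ⟨h, _⟩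
  · exfalso
    simp only [lc] at ha
    split_ifs at ha <;> omega
  · exact h

lemma ind_of_miss {q c : ℕ} (hc : c < q + 1) {l : Fin q → ℤ} (hl : StrictMono l)
    (hb : ∀ a, 1 ≤ l a ∧ l a ≤ ((q + 1 : ℕ) : ℤ)) (h0 : ind l c = 0) (b : ℕ) :
    ind l b = if b < q + 1 ∧ b ≠ c then 1 else 0 := by
  by_cases hb1 : b < q + 1
  · by_cases hbc : b = c
    · subst hbc; rw [if_neg (by omega)]; exact h0
    · rw [if_pos ⟨hb1, hbc⟩]
      have h1 : ∑ b ∈ range (q + 1), (1 - ind l b) = 1 := by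
        rw [Finset.sum_sub_distrib, sum_ind l (fun a => (hb a).1), Nc_top l (q + 1) (fun a => (hb a).2)]
        simp
      rw [← Finset.add_sum_erase _ _ (mem_range.mpr hc), h0] at h1
      have h2 : ∑ x ∈ (range (q + 1)).erase c, (1 - ind l x) = 0 := by linarith
      have hnn : ∀ x ∈ (range (q + 1)).erase c, 0 ≤ 1 - ind l x := by
        intro x _
        rcases ind_eq hl x with ⟨h3, _⟩ | ⟨h3, _⟩ <;> rw [h3] <;> norm_num
      have h4 := (Finset.sum_eq_zero_iff_of_nonneg hnn).mp h2 b (by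
        rw [mem_erase, mem_range]; exact ⟨hbc, hb1⟩)
      linarith
  · rw [if_neg (by omega)]
    rcases ind_eq hl b with ⟨_, a, ha⟩ | ⟨h, _⟩
    · exfalso
      have := (hb a).2
      push_cast at this
      omega
    · exact h

lemma ofFn_lc (q c : ℕ) (hc : c < q + 1) : List.ofFn (lc q c) = up 1 c ++ up (c + 2) (q - c) := by
  apply List.ext_getElem
  · simp; omega
  · intro i h1 h2
    rw [List.getElem_ofFn]
    by_cases h : i < c
    · rw [List.getElem_append_left (by rw [length_up]; exact h)]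
      simp only [lc, up, List.getElem_map, List.getElem_range]
      rw [if_pos h]; ring
    · rw [List.getElem_append_right (by rw [length_up]; omega)]
      simp only [lc, up, List.getElem_map, List.getElem_range, List.length_map, List.length_range]
      rw [if_neg h]; push_cast [Nat.cast_sub (not_lt.mp h)]; ring

theorem refASM_row (q : ℕ) (c : Fin (q + 1)) : (refASM (q + 1) c : ℚ)
    = al q (run 1 (c : ℕ) * run ((c : ℕ) + 2) (q - (c : ℕ))) := by
  classical
  unfold refASM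
  rw [← Nat.card_congr (rowEquiv q c), PA_card_pred (k0_mono (q + 1)) (k0_bd (q + 1))
    (fun f => f q (c : ℕ) = 1)]
  simp only [if_true]
  have h1 : ind (k0 (q + 1)) (c : ℕ) = 1 := by rw [ind_k0, if_pos c.2]
  rw [Finset.sum_eq_single (lc q c)]
  · rw [h1, ind_lc]
    have h5 : Nat.card {f // PA (q + 1) q (ind (lc q (c : ℕ))) f ∧ (1 : ℤ) - 0 = 1}
        = Nat.card {f // PA (q + 1) q (ind (lc q (c : ℕ))) f} := by
      apply Nat.card_congr
      exact Equiv.subtypeEquivRight (fun f => by simp)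
    rw [h5, (PA_count (q + 1) q _ (lc_mono q c) (lc_bd q c)).2, (count q _ (lc_mono q c)).2,
      ofFn_lc q c c.2, wd_append, wd_up, wd_up]
  · intro l hl hne
    have hlm := ((mem_F _ _).mp hl).2
    have hlb := F_bd (k0_bd (q + 1)) hl
    rcases ind_eq hlm (c : ℕ) with ⟨h2, _⟩ | ⟨h2, _⟩
    · rw [h1, h2]
      have : IsEmpty {f // PA (q + 1) q (ind l) f ∧ (1 : ℤ) - 1 = 1} :=
        ⟨fun f => by have := f.2.2; omega⟩
      exact Nat.card_of_isEmpty
    · exfalso
      apply hne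
      apply ind_inj hlm (lc_mono q c) (fun a => (hlb a).1) (fun a => (lc_bd q c a).1)
      intro b
      rw [ind_of_miss c.2 hlm hlb h2 b, ind_of_miss c.2 (lc_mono q c) (lc_bd q c) (ind_lc q c) b]
  · intro h; exact absurd (lc_mem q c) h

/-! ### the table -/

/-- the table of differences of `j ↦ al n (x j * run 2 (n - 1))` -/
noncomputable def Gt (n m : ℕ) (j : ℤ) : ℚ := al n (io (te m j) * run 2 (n - 1))

lemma Gt_rec (n m : ℕ) (j : ℤ) : Gt n m j = Gt n m (j + 1) + Gt n (m + 1) j := by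
  unfold Gt
  rw [te_succ, map_sub, sub_mul, map_sub]
  ring

lemma Gt_ge {n m : ℕ} (h : n ≤ m) (j : ℤ) : Gt n m j = 0 := by
  unfold Gt te
  obtain ⟨d, rfl⟩ : ∃ d, m = n + d := ⟨m - n, by omega⟩
  rw [pow_add, Module.End.mul_apply]
  have := al_kill n 1 (run 2 (n - 1)) ((th ^ d) (e j))
  rwa [one_mul] at this

lemma al_th_pow (N m : ℕ) : ∀ (v : V) (a : A),
    al (N + m) (io ((th ^ m) v) * a) = al N (io v * (R ^ m) a) := by
  induction m with
  | zero => intro v a; simp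
  | succ m ih =>
    intro v a
    rw [← add_assoc, al_succ, pow_succ' th, Module.End.mul_apply, R_th_mul, ih, pow_succ R,
      Module.End.mul_apply]

lemma Gt_two (i0 d : ℕ) : Gt (i0 + d + 1) d 2 = (refASM (i0 + d + 1) ⟨i0, by omega⟩ : ℚ) := by
  rw [refASM_col]
  unfold Gt te
  have e1 : i0 + d + 1 = i0 + 1 + d := by ring
  have e2 : i0 + d + 1 - 1 = i0 + d := by omega
  rw [e2]
  conv_lhs => rw [e1]
  rw [al_th_pow]
  rfl

lemma Gt_two' {n m : ℕ} (h : m < n) : Gt n m 2 = (refASM n ⟨m, h⟩ : ℚ) := by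
  obtain ⟨i0, rfl⟩ : ∃ i0, n = i0 + m + 1 := ⟨n - m - 1, by omega⟩
  rw [Gt_two, ← refASM_rev]
  congr 2
  ext
  simp only [Fin.val_rev]
  omega

lemma Gt_pal {n m : ℕ} (h : m < n) : Gt n m 2 = Gt n (n - 1 - m) 2 := by
  rw [Gt_two' h, Gt_two' (by omega : n - 1 - m < n), ← refASM_rev]
  congr 2
  ext
  simp only [Fin.val_rev]
  omega

end Pool.Agent.R730.MT
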