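import Pool.Agent.R730.MT.Ref
import Pool.Agent.R730.MT.Expl
import Pool.Agent.R110.MT.Rot

/-!
Rotation of words (from the library of helper110) and the refined enumeration of alternating sign
matrices.
-/

namespace Pool.Agent.R730.MT

open Finset

lemma mtc_eq (n : ℕ) : ∀ k : Fin n → ℤ, StrictMono k → Pool.Agent.R110.MT.mtc n k = numMT n k := by
  induction n with
  | zero =>
    intro k hk
    rw [Pool.Agent.R110.MT.mtc_zero]
    have h := (count 0 k hk).2
    simp [al_zero] at h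
    exact_mod_cast h.symm
  | succ n ih =>
    intro k hk
    rw [Pool.Agent.R110.MT.mtc_succ' n k hk, numMT_succ k hk]
    have : Pool.Agent.R110.MT.IF k = F k := by
      ext l
      rw [Pool.Agent.R110.MT.mem_IF, mem_F]
    rw [this]
    apply Finset.sum_congr rfl
    intro l hl
    exact ih l ((mem_F _ _).mp hl).2

lemma al_eq_al (l : List ℕ) :
    al l.length (wd (l.map (fun j : ℕ => (j : ℤ)))) = Pool.Agent.R110.MT.al 0 l := by
  have hA : Pool.Agent.R110.MT.IsAlpha l.length (mtp l.length) := by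
    intro k hk
    rw [mtp_isMTPoly l.length k hk, mtc_eq _ k hk]
  have h := hA.eval (fun i => l.get i)
  have h2 := mtp_eval l.length (fun i => ((l.get i : ℕ) : ℤ))
  have e1 : List.ofFn (fun i => ((l.get i : ℕ) : ℤ)) = l.map (fun j : ℕ => (j : ℤ)) := by
    conv_rhs => rw [← List.ofFn_get l]
    rw [List.map_ofFn]; rfl
  rw [e1] at h2
  rw [List.ofFn_get] at h
  rw [← h2, ← h]
  simp

lemma rotate (q k : ℕ) : al (q + 1) (x ((k : ℤ) + q + 1) * run 2 q)
    = (-1) ^ q * al (q + 1) (run 2 q * x k) := by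
  set l : List ℕ := (List.range q).map (fun j => 2 + j) with hl
  have hlen : l.length = q := by simp [hl]
  have hw : wd (l.map (fun j : ℕ => (j : ℤ))) = run 2 q := by
    rw [← wd_up]
    congr 1
    rw [hl, List.map_map]
    unfold up
    apply List.map_congr_left
    intro j _
    simp [Function.comp]
  have h := Pool.Agent.R110.MT.al_rotate l k
  rw [← al_eq_al, ← al_eq_al] at h
  rw [List.length_cons, List.length_append, List.length_singleton, hlen] at h
  rw [List.map_cons, wd_cons, List.map_append, wd_append, hw] at h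
  simp only [List.map_cons, List.map_nil, wd_cons, wd_nil, mul_one] at h
  rw [← h]
  congr 3

lemma Gt_refl0 (n : ℕ) (hn : 1 ≤ n) (k : ℕ) :
    Gt n 0 (n + k) = (-1) ^ (n + 1) * Gt n 0 (n + 2 - k) := by
  obtain ⟨q, rfl⟩ : ∃ q, n = q + 1 := ⟨n - 1, by omega⟩
  unfold Gt
  simp only [te_zero]
  have h := rotate q k
  have e1 : ((q + 1 : ℕ) : ℤ) + k = k + q + 1 := by push_cast; ring
  change al (q + 1) (x (((q + 1 : ℕ) : ℤ) + k) * run 2 (q + 1 - 1))
    = (-1) ^ (q + 1 + 1) * al (q + 1) (x (((q + 1 : ℕ) : ℤ) + 2 - k) * run 2 (q + 1 - 1))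
  rw [e1, Nat.add_sub_cancel, h]
  have h2 := al_rr ((q : ℤ) + 3) (q + 1) (run 2 q * x k)
  rw [rr_mul, rr_x, rr_run] at h2
  have e2 : (q : ℤ) + 3 - 2 - q + 1 = 2 := by ring
  have e3 : (q : ℤ) + 3 - k = ((q + 1 : ℕ) : ℤ) + 2 - k := by push_cast; ring
  rw [e2, e3] at h2
  rw [h2]
  have e4 : (-1 : ℚ) ^ (q + 1 + 1) = (-1) ^ q := by
    rw [pow_succ, pow_succ]; ring
  rw [e4]

lemma Gt_refl {n : ℕ} (hn : 1 ≤ n) (m : ℕ) (j : ℤ) :
    Gt n m j = (-1) ^ (n + 1 + m) * Gt n m (2 * n + 2 - j - m) := by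
  set D : ℕ → ℤ → ℚ := fun m j => Gt n m j - (-1) ^ (n + 1 + m) * Gt n m (2 * n + 2 - j - m) with hD
  have hrec : ∀ m j, D m j = D m (j + 1) + D (m + 1) j := fun m j => refl_rec (Gt_rec n) m j
  have h0 : ∀ k : ℕ, D 0 (n + k) = 0 := by
    intro k
    simp only [hD]
    rw [Gt_refl0 n hn k]
    have : (2 * n + 2 - (n + k) - ((0 : ℕ) : ℤ) : ℤ) = n + 2 - k := by push_cast; ring
    rw [this, add_zero]
    ring
  have h := D_zero (D := D) (n := n) hrec
    (fun m j h => by simp only [hD]; rw [Gt_ge h, Gt_ge h]; ring) n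
    (fun m _ => by
      have := G_diff hrec m 0 n
      rw [zero_add] at this
      rw [this]
      apply Finset.sum_eq_zero
      intro i _
      rw [h0, mul_zero]) n m j (by omega)
  simp only [hD] at h
  linarith

/-- the refined enumeration -/
theorem refined {q : ℕ} {c : ℕ} (hc : c < q + 1) :
    Cx (q + 1) 0 * al q (run 1 c * run (c + 2) (q - c)) = al q (run 1 q) * Cx (q + 1) c := by
  have h := G_explicit (G := Gt (q + 1)) (Nat.succ_le_succ (Nat.zero_le q)) (Gt_rec (q + 1))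
    (fun m j h => Gt_ge h j) (fun m j => Gt_refl (by omega) m j) (fun m hm => Gt_pal hm) c
  rw [Gt_two' hc, Gt_two' (by omega : 0 < q + 1), refASM_row, refASM_row] at h
  simp only [run_zero, one_mul, Nat.cast_zero, zero_add, Nat.sub_zero] at h
  have h2 := al_rr ((q : ℤ) + 2) q (run 1 q)
  rw [rr_run] at h2
  have e2 : (q : ℤ) + 2 - 1 - q + 1 = 2 := by ring
  rw [e2] at h2
  rw [h2] at h
  exact h

end Pool.Agent.R730.MT
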