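import Pool.Agent.R730.MT.TT

/-!
Reversal, left killing, and the main row step for `run · T · run`.
-/

namespace Pool.Agent.R730.MT

open Finset MulOpposite

/-- reflection of the letters -/
noncomputable def rho (c : ℤ) : V →ₗ[ℚ] V := Finsupp.lmapDomain ℚ ℚ (fun j => c - j)

@[simp] lemma rho_e (c j : ℤ) : rho c (e j) = e (c - j) := by
  simp [rho, e, Finsupp.lmapDomain_apply, Finsupp.mapDomain_single]

lemma Es_rho_Es (c : ℤ) (v : V) : Es (rho c (Es v)) = rho c v := by
  have : (Es ∘ₗ rho c) ∘ₗ Es = rho c := V_ext (fun j => by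
    simp only [LinearMap.comp_apply, Es_e, rho_e]
    congr 1; ring)
  exact LinearMap.congr_fun this v

/-- the letters in the opposite algebra -/
noncomputable def opio (c : ℤ) : V →ₗ[ℚ] Aᵐᵒᵖ :=
  (opLinearEquiv ℚ).toLinearMap ∘ₗ io ∘ₗ rho c

lemma opio_apply (c : ℤ) (v : V) : opio c v = op (io (rho c v)) := rfl

/-- reversal anti-automorphism `x j ↦ x (c - j)` -/
noncomputable def rv (c : ℤ) : A →ₐ[ℚ] Aᵐᵒᵖ := lift (opio c)
  (fun w => by
    have h := quad (rho c (Es w))
    rw [Es_rho_Es] at h
    simp only [opio_apply, ← op_mul, ← op_add]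
    rw [h, add_comm])
  (fun w => by
    simp only [opio_apply, ← op_mul]
    rw [← mul_assoc, cube]; rfl)

@[simp] lemma rv_x (c j : ℤ) : rv c (x j) = op (x (c - j)) := by
  unfold x rv; rw [lift_io, opio_apply, rho_e]

lemma rv_T (c a : ℤ) (k : ℕ) : rv c (T a k) = op (T (c - a - k + 1) k) := by
  induction k with
  | zero => simp [T]
  | succ k ih =>
    rw [T_succ, map_mul, map_mul, ih, rv_x, T_right]
    simp only [← op_mul]
    have e1 : c - a - ((k + 1 : ℕ) : ℤ) + 1 = c - (a + k) := by push_cast; ring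
    have e2 : c - a - (k : ℤ) + 1 = c - (a + k) + 1 := by ring
    rw [e1, e2]

lemma rv_run (c a : ℤ) (n : ℕ) : rv c (run a n) = op (run (c - a - n + 1) n) := by
  induction n with
  | zero => simp [run]
  | succ n ih =>
    rw [run_succ, map_mul, ih, rv_x, run_left]
    simp only [← op_mul]
    have e1 : c - a - ((n + 1 : ℕ) : ℤ) + 1 = c - (a + n) := by push_cast; ring
    have e2 : c - a - (n : ℤ) + 1 = c - (a + n) + 1 := by ring
    rw [e1, e2]

lemma kill_T {a m : ℤ} {k : ℕ} (h1 : a ≤ m) (h2 : m < a + k) : x m * T a k = 0 := by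
  have h := T_kill (a := a) (m := 2 * a + k - 1 - m) (k := k) (by omega) (by omega)
  have h3 := congrArg (rv (2 * a + k - 1)) h
  rw [map_mul, rv_T, rv_x, map_zero, ← op_mul] at h3
  have e1 : 2 * a + (k : ℤ) - 1 - a - k + 1 = a := by ring
  have e2 : 2 * a + (k : ℤ) - 1 - (2 * a + k - 1 - m) = m := by ring
  rw [e1, e2] at h3
  exact op_eq_zero_iff _ |>.mp h3

/-- sums of killed letters -/
lemma T_kill_sum (a : ℤ) (k i : ℕ) (hi : i ≤ k) : T a k * (sg (a + i) - sg a) = 0 := by
  induction i with
  | zero => simp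
  | succ i ih =>
    have c : ((i + 1 : ℕ) : ℤ) = i + 1 := by push_cast; rfl
    rw [c, ← add_assoc, sg_succ]
    have e1 : T a k * (sg (a + i) + x (a + i) - sg a)
      = T a k * (sg (a + i) - sg a) + T a k * x (a + i) := by noncomm_ring
    rw [e1, ih (by omega), T_kill (by omega) (by omega), add_zero]

lemma kill_T_sum (a : ℤ) (k i : ℕ) (hi : i ≤ k) : (sg (a + i) - sg a) * T a k = 0 := by
  induction i with
  | zero => simp
  | succ i ih =>
    have c : ((i + 1 : ℕ) : ℤ) = i + 1 := by push_cast; rfl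
    rw [c, ← add_assoc, sg_succ]
    have e1 : (sg (a + i) + x (a + i) - sg a) * T a k
      = (sg (a + i) - sg a) * T a k + x (a + i) * T a k := by noncomm_ring
    rw [e1, ih (by omega), kill_T (by omega) (by omega), add_zero]

/-- quadratic relation for intervals: `S^2 - S v + v^2 = 0` -/
lemma quad_S (i j : ℤ) :
    (sg (j + 1) - sg (i + 1)) * (sg (j + 1) - sg (i + 1))
      - (sg (j + 1) - sg (i + 1)) * (x j - x i) + (x j - x i) * (x j - x i) = 0 := by
  have h := quad (sv j - sv i)
  have e1 : io (Es (sv j - sv i)) = sg (j + 1) - sg (i + 1) := by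
    rw [map_sub, Es_sv, Es_sv]
    unfold sg
    rw [sv_succ, sv_succ, ← map_sub]
    congr 1; abel
  have e2 : io (sv j - sv i) = (sg (j + 1) - sg (i + 1)) - (x j - x i) := by
    rw [map_sub]
    change sg j - sg i = _
    rw [sg_succ, sg_succ]; abel
  rw [e1, e2] at h
  set S := sg (j + 1) - sg (i + 1)
  set v := x j - x i
  have : S * S - S * v + v * v = (S - v) * (S - v) + S * S - (S - v) * S := by noncomm_ring
  rw [this, ← h, sub_self]

/-- `T x_j` kills `[a+1..j]` -/
lemma Tx_kill (a : ℤ) (k : ℕ) :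
    T a k * x (a + k) * (sg (a + k + 1) - sg (a + 1)) = 0 := by
  rcases Nat.eq_zero_or_pos k with h0 | h0
  · subst h0; simp
  · have q := quad_S a (a + k)
    have h1 : T a k * (sg (a + k + 1) - sg (a + 1)) = T a k * x (a + k) := by
      rw [sg_succ (a + k), sg_succ a]
      have e1 : T a k * (sg (a + k) + x (a + k) - (sg a + x a))
        = T a k * (sg (a + k) - sg a) + T a k * x (a + k) - T a k * x a := by noncomm_ring
      rw [e1, T_kill_sum a k k le_rfl, T_kill (le_refl a) (by omega), zero_add, sub_zero]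
    have h2 : T a k * (x (a + k) - x a) = T a k * x (a + k) := by
      rw [mul_sub, T_kill (le_refl a) (by omega), sub_zero]
    have q2 := congrArg (fun z => T a k * z) q
    simp only [mul_add, mul_sub (T a k), mul_zero] at q2
    rw [← mul_assoc (T a k), ← mul_assoc (T a k), ← mul_assoc (T a k), h1, h2] at q2
    have e3 : T a k * x (a + k) * (sg (a + k + 1) - sg (a + 1))
      = T a k * x (a + ↑k) * (sg (a + ↑k + 1) - sg (a + 1))
        - T a k * x (a + ↑k) * (x (a + ↑k) - x a) + T a k * x (a + ↑k) * (x (a + ↑k) - x a) := by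
      abel
    rw [e3, q2]

lemma R_run_x (a : ℤ) (r : ℕ) (j : ℤ) :
    R (run a r * x j) = run a r + R (run a r) * (sg (j + 1) - sg (a + r)) := by
  rw [R_mul_x_sub (run a r) (a + r) j, ← run_succ, R_run_succ, sg_succ (a + r)]
  noncomm_ring

lemma R_x_run (a : ℤ) (s : ℕ) (j : ℤ) :
    R (x j * run a s) = run a s + (sg a - sg j) * R (run a s) := by
  have h := R_run_left (a - 1) s
  rw [run_left, sub_add_cancel] at h
  rw [R_x_mul_sub (run a s) (a - 1) j, h]
  have h3 : sg a = sg (a - 1) + x (a - 1) := by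
    have := sg_succ (a - 1)
    rwa [sub_add_cancel] at this
  rw [h3]
  noncomm_ring

/-- the row step -/
theorem R_step (b : ℤ) (r k s : ℕ) :
    R (run b r * T (b + r) (k + 1) * run (b + r + (k + 1)) s)
      = run b r * T (b + r) k * run (b + r + k) (s + 1) := by
  set a : ℤ := b + r with ha
  set L' := run (a + (k + 1)) s with hL'
  have e1 : run b r * T a (k + 1) * L'
      = run b r * (x (a + k) * x (a + k)) * (T a k * L') := by rw [T_succ]; noncomm_ring
  have e2 : x (a + k) * x (a + k) * (T a k * L') = T a (k + 1) * L' := by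
    rw [T_succ]; noncomm_ring
  rw [e1, R_pull, e2, T_right, R_pull_right, ← T_right, R_T, hL', R_x_run, ← hL']
  rw [R_run_x b r (a + k - 1), sub_add_cancel, ← ha]
  have e3 : T a k * x (a + ↑k) * (L' + (sg (a + (↑k + 1)) - sg (a + 1)) * R L')
      = T a k * x (a + k) * L' := by
    have h := Tx_kill a k
    rw [mul_add, ← mul_assoc (T a k * x (a + ↑k)), ← add_assoc a (k : ℤ) 1, h, zero_mul, add_zero]
  rw [e3]
  have e4 : (run b r + R (run b r) * (sg (a + ↑k) - sg a)) * (T a k * x (a + ↑k) * L')
      = run b r * (T a k * x (a + k) * L')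
        + R (run b r) * ((sg (a + ↑k) - sg a) * T a k) * (x (a + k) * L') := by noncomm_ring
  rw [e4, kill_T_sum a k k le_rfl, mul_zero, zero_mul, add_zero, run_left (a + k) s]
  have e5 : a + (k : ℤ) + 1 = a + (k + 1) := by ring
  rw [e5]
  noncomm_ring

/-! ### The functional -/

/-- the augmentation -/
noncomputable def ep : A →ₐ[ℚ] ℚ := lift 0 (fun w => by simp) (fun w => by simp)

@[simp] lemma ep_x (j : ℤ) : ep (x j) = 0 := by unfold x ep; rw [lift_io]; rfl

/-- the value on elements of degree `n` -/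
noncomputable def al (n : ℕ) : A →ₗ[ℚ] ℚ := ep.toLinearMap ∘ₗ (R ^ n)

lemma al_zero (a : A) : al 0 a = ep a := rfl

lemma al_succ (n : ℕ) (a : A) : al (n + 1) a = al n (R a) := by
  simp [al, pow_succ]

/-- the evaluation at `run · T · run` -/
theorem al_T (b : ℤ) (r k s : ℕ) :
    al (r + 2 * k + s) (run b r * T (b + r) k * run (b + r + k) s)
      = al (r + k + s) (run b (r + k + s)) := by
  induction k generalizing s with
  | zero =>
    simp only [T_zero, mul_one, Nat.cast_zero, add_zero, mul_zero]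
    rw [run_append]
  | succ k ih =>
    have h := R_step b r k s
    have e1 : b + r + ((k + 1 : ℕ) : ℤ) = b + r + (k + 1) := by push_cast; ring
    have e2 : r + 2 * (k + 1) + s = (r + 2 * k + (s + 1)) + 1 := by ring
    rw [e1, e2, al_succ, h, ih (s + 1)]
    have e3 : r + k + (s + 1) = r + (k + 1) + s := by ring
    rw [e3]

end Pool.Agent.R730.MT
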