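import Pool.Agent.R730.MT.Theta

/-!
Runs, and the words `T a k = x_{a+k-1}^2 ⋯ x_a^2`.
-/

namespace Pool.Agent.R730.MT

open Finset MulOpposite

/-- the run `x a * x (a+1) * ⋯` with `n` letters -/
noncomputable def run (a : ℤ) : ℕ → A
  | 0 => 1
  | n + 1 => run a n * x (a + n)

lemma run_zero (a : ℤ) : run a 0 = 1 := rfl
lemma run_succ (a : ℤ) (n : ℕ) : run a (n + 1) = run a n * x (a + n) := rfl

lemma run_left (a : ℤ) (n : ℕ) : run a (n + 1) = x a * run (a + 1) n := by
  induction n with
  | zero => simp [run]
  | succ n ih =>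
    rw [run_succ, ih, mul_assoc, run_succ (a + 1)]
    congr 3
    push_cast; ring

lemma run_append (a : ℤ) (m n : ℕ) : run a (m + n) = run a m * run (a + m) n := by
  induction n with
  | zero => simp [run]
  | succ n ih =>
    rw [← add_assoc, run_succ, ih, run_succ, mul_assoc]
    congr 3
    push_cast; ring

/-- `T a k = x_{a+k-1}^2 ⋯ x_a^2` -/
noncomputable def T (a : ℤ) : ℕ → A
  | 0 => 1
  | k + 1 => x (a + k) * x (a + k) * T a k

lemma T_zero (a : ℤ) : T a 0 = 1 := rfl
lemma T_succ (a : ℤ) (k : ℕ) : T a (k + 1) = x (a + k) * x (a + k) * T a k := rfl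

lemma T_right (a : ℤ) (k : ℕ) : T a (k + 1) = T (a + 1) k * (x a * x a) := by
  induction k with
  | zero => simp [T]
  | succ k ih =>
    rw [T_succ, ih, ← mul_assoc, T_succ (a + 1)]
    have : (a + 1 + (k : ℤ)) = a + ((k + 1 : ℕ) : ℤ) := by push_cast; ring
    rw [this]

/-! ### Rules for the row operator -/

lemma R_xx (i j : ℤ) : R (x i * x j) = sg (j + 1) - sg i := by
  rw [R_mul_x, Th_x, R_x]
  simp
  abel

lemma R_dec (a : A) (j : ℤ) : R (a * x j) = R (a * x (j - 1)) + R a * x j := by
  rw [R_mul_x_sub a (j - 1) j]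
  have : sg (j + 1) - sg (j - 1 + 1) = x j := by
    rw [sub_add_cancel, sg_succ]; abel
  rw [this]

lemma R_inc (a : A) (j : ℤ) : R (x j * a) = R (x (j + 1) * a) + x j * R a := by
  rw [R_x_mul_sub a j (j + 1), sg_succ]
  noncomm_ring

lemma xxx (j : ℤ) : x j * x j * x j = 0 := cube (e j)

lemma xxx' (j : ℤ) (a : A) : x j * (x j * (x j * a)) = 0 := by
  rw [← mul_assoc, ← mul_assoc, xxx, zero_mul]

lemma R_sq (a : A) (j : ℤ) : R (a * (x j * x j)) = R (a * x (j - 1)) * x j := by
  have h := R_split a (x j) j
  have h2 : R (x j * x j) = x j := by rw [R_xx, sg_succ]; abel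
  rw [h2, R_x, mul_one, mul_assoc a (x j) (x j)] at h
  rw [h, R_dec a j]
  noncomm_ring

lemma R_sq_left (c : A) (j : ℤ) :
    R (x j * x j * c) = x j * R (x j * c) - x j * x j * R c := by
  have h2 : R (x j * x j) = x j := by rw [R_xx, sg_succ]; abel
  rw [R_split, h2, R_x, one_mul]

lemma R_pull (z c : A) (j : ℤ) :
    R (z * (x j * x j) * c) = R (z * x (j - 1)) * R (x j * x j * c) := by
  have e1 : z * (x j * x j) * c = z * x j * (x j * c) := by noncomm_ring
  rw [e1, R_split z (x j * c) j, R_dec z j, ← mul_assoc (x j) (x j) c, add_mul]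
  have e2 : x j * R (x j * x j * c) = x j * x j * R (x j * c) := by
    rw [R_sq_left, mul_sub]
    have : x j * (x j * x j * R c) = 0 := by
      rw [← mul_assoc, ← mul_assoc, xxx, zero_mul]
    rw [this, sub_zero, mul_assoc]
  have e3 : R z * x j * R (x j * x j * c) = R z * (x j * x j) * R (x j * c) := by
    rw [mul_assoc, e2]; noncomm_ring
  rw [e3]; abel

lemma R_pull_right (a z : A) (i : ℤ) :
    R (a * (x i * x i) * z) = R (a * (x i * x i)) * R (x (i + 1) * z) := by
  have e1 : a * (x i * x i) * z = (a * x i) * x i * z := by noncomm_ring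
  have e0 : a * (x i * x i) = a * x i * x i := by noncomm_ring
  rw [e1, R_split (a * x i) z i, R_inc z i, mul_add, ← e0]
  have e2 : R (a * (x i * x i)) * x i = R (a * x i) * (x i * x i) := by
    rw [R_sq a i, R_dec a i, add_mul]
    have : R a * x i * (x i * x i) = 0 := by
      have := xxx i
      rw [mul_assoc, ← mul_assoc (x i) (x i) (x i), this, mul_zero]
    rw [this, add_zero]; noncomm_ring
  have e3 : R (a * (x i * x i)) * (x i * R z) = R (a * x i) * (x i * x i) * R z := by
    rw [← mul_assoc, e2]
  rw [e3]; abel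

/-- run formulas -/
lemma R_run_succ (a : ℤ) (n : ℕ) : R (run a (n + 1)) = R (run a n) * x (a + n) + run a n := by
  induction n with
  | zero => simp [run, R_one, R_x]
  | succ n ih =>
    rw [run_succ, run_succ]
    rw [R_split, ← run_succ, ih, R_xx]
    have e1 : sg (a + ((n + 1 : ℕ) : ℤ) + 1) - sg (a + n) = x (a + n) + x (a + ((n+1 : ℕ) : ℤ)) := by
      have : a + ((n + 1 : ℕ) : ℤ) = a + n + 1 := by push_cast; ring
      rw [this, sg_succ, sg_succ]; abel
    rw [e1, R_x, mul_one]
    rw [run_succ]
    noncomm_ring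

lemma R_run_left (a : ℤ) (n : ℕ) :
    R (run a (n + 1)) = x a * R (run (a + 1) n) + run (a + 1) n := by
  induction n with
  | zero => simp [run, R_one, R_x]
  | succ n ih =>
    rw [R_run_succ, ih, R_run_succ (a + 1) n]
    have e1 : a + ((n + 1 : ℕ) : ℤ) = a + 1 + n := by push_cast; ring
    rw [e1, run_left a n, run_succ (a + 1) n]
    noncomm_ring

/-! ### Killing lemmas -/

/-- one step exchange -/
lemma exch (H : A) (a : ℤ) (r : ℕ) (hk : ∀ m, a < m → m ≤ a + r → H * x m = 0) :
    ∀ i : ℕ, i ≤ r → H * (x a * x (a + i)) = H * (x a * x a) := by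
  intro i
  induction i with
  | zero => intro _; simp
  | succ i ih =>
    intro hi
    have ih' := ih (by omega)
    have k1 : H * x (a + 1) = 0 := hk _ (by omega) (by push_cast at hi; omega)
    have c : ((i + 1 : ℕ) : ℤ) = i + 1 := by push_cast; rfl
    rw [c, ← add_assoc]
    rcases Nat.eq_zero_or_pos i with h0 | h0
    · subst h0
      have q := quad (e a)
      rw [Es_e] at q
      simp only [Nat.cast_zero, add_zero]
      change x a * x (a + 1) = x a * x a + x (a + 1) * x (a + 1) at q
      rw [q, mul_add, ← mul_assoc H (x (a + 1)), k1, zero_mul, add_zero]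
    · have k2 : H * x (a + i) = 0 := hk _ (by omega) (by omega)
      have k3 : H * x (a + i + 1) = 0 := hk _ (by omega) (by omega)
      have q := quad2 (e a) (e (a + i))
      rw [Es_e, Es_e] at q
      change x a * x (a + i + 1) + x (a + i) * x (a + 1) = x a * x (a + i) + x (a + i) * x a
        + x (a + 1) * x (a + i + 1) + x (a + i + 1) * x (a + 1) at q
      have q2 := congrArg (fun z => H * z) q
      simp only [mul_add] at q2
      rw [← mul_assoc H (x (a + i)), ← mul_assoc H (x (a + i)), ← mul_assoc H (x (a + 1)),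
        ← mul_assoc H (x (a + i + 1)), k1, k2, k3] at q2
      simp only [zero_mul, add_zero] at q2
      rw [q2, ih']

theorem TK (k : ℕ) : (∀ a : ℤ, R (T a (k + 1)) = T a k * x (a + k)) ∧
    (∀ a m : ℤ, a ≤ m → m < a + k → T a k * x m = 0) := by
  induction k using Nat.strong_induction_on with
  | _ k ih =>
  constructor
  · intro a
    rcases Nat.eq_zero_or_pos k with h0 | h0
    · subst h0
      simp only [T]
      simp [R_xx, sg_succ]
    · obtain ⟨k, rfl⟩ : ∃ k', k = k' + 1 := ⟨k - 1, by omega⟩
      have ihα := (ih k (by omega)).1 (a + 1)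
      have ihK := (ih k (by omega)).2 (a + 1)
      have e1 : T a (k + 1 + 1) = T (a + 1 + 1) k * (x (a + 1) * x (a + 1)) * (x a * x a) := by
        rw [T_right, T_right]
      have e2 : R (x (a + 1 + 1) * (x a * x a)) = -((x a + x (a + 1)) * x a) := by
        rw [R_sq, R_xx, sub_add_cancel, sg_succ, sg_succ]
        noncomm_ring
      rw [e1, R_pull_right, ← T_right, ihα, e2, T_right a k]
      have e3 : a + 1 + (k : ℤ) = a + ((k + 1 : ℕ) : ℤ) := by push_cast; ring
      rw [e3] at ihK ⊢
      set j : ℤ := a + ((k + 1 : ℕ) : ℤ) with hj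
      set H := T (a + 1) k with hH
      -- key
      have key : H * (x j * x (a + 1) - x a * x j) * x a = 0 := by
        rcases Nat.eq_zero_or_pos k with h0 | h0
        · subst h0
          have hj' : j = a + 1 := by rw [hj]; push_cast; ring
          rw [hj']
          have q := quad (e a)
          rw [Es_e] at q
          change x a * x (a + 1) = x a * x a + x (a + 1) * x (a + 1) at q
          rw [q, hH, T_zero, one_mul]
          have := xxx a
          have e4 : (x (a + 1) * x (a + 1) - (x a * x a + x (a + 1) * x (a + 1))) * x a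
            = -(x a * x a * x a) := by noncomm_ring
          rw [e4, this, neg_zero]
        · have k1 : H * x (a + 1) = 0 := ihK _ (by omega) (by omega)
          have k2 : H * x (j - 1) = 0 := ihK _ (by omega) (by omega)
          have q := quad2 (e a) (e (j - 1))
          rw [Es_e, Es_e, sub_add_cancel] at q
          change x a * x j + x (j - 1) * x (a + 1) = x a * x (j - 1) + x (j - 1) * x a
            + x (a + 1) * x j + x j * x (a + 1) at q
          have q2 := congrArg (fun z => H * z) q
          simp only [mul_add] at q2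
          rw [← mul_assoc H (x (j - 1)), ← mul_assoc H (x (j - 1)), ← mul_assoc H (x (a + 1)),
            k1, k2] at q2
          simp only [zero_mul, add_zero] at q2
          have m1 := exch H a k (fun m h1 h2 => ihK m (by omega) (by omega)) k le_rfl
          have hj1 : j - 1 = a + k := by rw [hj]; push_cast; ring
          rw [hj1, m1] at q2
          have : H * (x j * x (a + 1) - x a * x j) * x a = -(H * (x a * x a * x a)) := by
            rw [mul_sub, q2]; noncomm_ring
          rw [this, xxx, mul_zero, neg_zero]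
      have c := cube2' (e a) (e j)
      change x a * x a * x j = -(x a * x j * x a) - x j * x a * x a at c
      have e5 : H * (x a * x a) * x j = H * (x a * x a * x j) := by noncomm_ring
      rw [e5, c]
      have e6 : H * x j * -((x a + x (a + 1)) * x a)
        - H * (-(x a * x j * x a) - x j * x a * x a)
        = -(H * (x j * x (a + 1) - x a * x j) * x a) := by noncomm_ring
      rw [key, neg_zero] at e6
      exact sub_eq_zero.mp e6
  · intro a m h1 h2
    rcases Nat.eq_zero_or_pos k with h0 | h0
    · subst h0; push_cast at h2; omega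
    · obtain ⟨k, rfl⟩ : ∃ k', k = k' + 1 := ⟨k - 1, by omega⟩
      have ihα := (ih k (by omega)).1 a
      have ihK := (ih k (by omega)).2 a
      by_cases hm : m < a + k
      · rw [T_succ, mul_assoc, ihK m h1 hm, mul_zero]
      · have hm' : m = a + k := by push_cast at h2; omega
        subst hm'
        have e1 : T a (k + 1) * x (a + k) = x (a + k) * x (a + k) * R (T a (k + 1)) := by
          rw [ihα, T_succ, mul_assoc]
        rw [e1, T_succ, R_sq_left]
        have := xxx (a + k)
        rw [mul_sub]
        have e2 : x (a + k) * x (a + k) * (x (a + k) * R (x (a + k) * T a k))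
          = x (a + k) * x (a + k) * x (a + k) * R (x (a + k) * T a k) := by noncomm_ring
        have e3 : x (a + k) * x (a + k) * (x (a + k) * x (a + k) * R (T a k))
          = x (a + k) * x (a + k) * x (a + k) * (x (a + k) * R (T a k)) := by noncomm_ring
        rw [e2, e3, this, zero_mul, zero_mul, sub_zero]

lemma R_T (a : ℤ) (k : ℕ) : R (T a (k + 1)) = T a k * x (a + k) := (TK k).1 a

lemma T_kill {a m : ℤ} {k : ℕ} (h1 : a ≤ m) (h2 : m < a + k) : T a k * x m = 0 :=
  (TK k).2 a m h1 h2

end Pool.Agent.R730.MT
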