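import Pool.Agent.R730.MT.Alg

/-!
The `2 × 2` matrix representation of the word algebra over itself which encodes the
row operator `R`.
-/

namespace Pool.Agent.R730.MT

open Finset

abbrev M2 := Matrix (Fin 2) (Fin 2) A

lemma io_Es_Sm (v : V) : io (Es (Sm v)) = io (Sm v) + io v - ev v • x 0 := by
  rw [Es_Sm, map_sub, map_add, map_smul]
  rfl

/-- lower left entry -/
noncomputable def yy (v : V) : A :=
  ev v • (x 0 * x 0) - x 0 * (io (Sm v) + io v) - io v * x 0

/-- the matrices of the letters -/
noncomputable def Xm : V →ₗ[ℚ] M2 where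
  toFun v := !![-(io (Sm v)), ev v • (1 : A); yy v, io (Sm v) + io v]
  map_add' v w := by
    ext i j
    fin_cases i <;> fin_cases j <;> simp [yy, add_smul, mul_add, add_mul] <;> abel
  map_smul' c v := by
    ext i j
    fin_cases i <;> fin_cases j <;>
      simp [yy, smul_sub, smul_add, mul_smul, mul_add]

lemma Xm_apply (v : V) :
    Xm v = !![-(io (Sm v)), ev v • (1 : A); yy v, io (Sm v) + io v] := rfl

lemma yy_one {v : V} (hv : ev v = 1) :
    yy v = -(io (Sm v) * io (Sm v) + io v * io (Sm v) + io v * io v) := by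
  have h := quad (Sm v)
  rw [io_Es_Sm, hv, one_smul] at h
  unfold yy
  rw [hv, one_smul]
  have h2 : io (Sm v) * (io (Sm v) + io v - x 0) - (io (Sm v) * io (Sm v)
    + (io (Sm v) + io v - x 0) * (io (Sm v) + io v - x 0)) = 0 := by rw [h]; simp
  have h3 : x 0 * x 0 - x 0 * (io (Sm v) + io v) - io v * x 0
    - -(io (Sm v) * io (Sm v) + io v * io (Sm v) + io v * io v)
    = -(io (Sm v) * (io (Sm v) + io v - x 0) - (io (Sm v) * io (Sm v)
    + (io (Sm v) + io v - x 0) * (io (Sm v) + io v - x 0))) := by noncomm_ring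
  rw [h2, neg_zero] at h3
  exact sub_eq_zero.mp h3

lemma Xm_one {v : V} (hv : ev v = 1) :
    Xm v = !![-(io (Sm v)), 1;
      -(io (Sm v) * io (Sm v) + io v * io (Sm v) + io v * io v), io (Sm v) + io v] := by
  rw [Xm_apply, yy_one hv, hv, one_smul]

lemma Xm_one' {v : V} (hv : ev v = 1) :
    Xm (Es v) = !![-(io (Sm v) + io v), 1;
      -((io (Sm v) + io v) * (io (Sm v) + io v) + io (Es v) * (io (Sm v) + io v)
        + io (Es v) * io (Es v)), io (Sm v) + io v + io (Es v)] := by
  rw [Xm_one (by rw [ev_Es, hv]), Sm_Es, map_add]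

/-- polarised cubes in expanded form -/
lemma cube2' (a b : V) : io a * io a * io b = -(io a * io b * io a) - io b * io a * io a := by
  have h := cube2 a b
  have : io a * io a * io b = (io a * io a * io b + io a * io b * io a + io b * io a * io a)
    - io a * io b * io a - io b * io a * io a := by abel
  rw [this, h]; abel

lemma quad_one {v : V} (hv : ev v = 1) :
    Xm v * Xm (Es v) = Xm v * Xm v + Xm (Es v) * Xm (Es v) := by
  rw [Xm_one hv, Xm_one' hv]
  have c1 := cube (Sm v)
  have c2 := cube v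
  have c3 := cube2 (Sm v) v
  have c4 := cube2 v (Sm v)
  have c5 := cube (Es v)
  set S := io (Sm v)
  set u := io v
  set w := io (Es v)
  ext i j
  fin_cases i <;> fin_cases j
  · simp [Matrix.mul_apply, Fin.sum_univ_two]
    noncomm_ring
  · simp [Matrix.mul_apply, Fin.sum_univ_two]
    abel
  · simp only [Matrix.mul_apply, Fin.sum_univ_two, Fin.mk_one, Fin.zero_eta, Fin.isValue,
      Matrix.of_apply, Matrix.cons_val', Matrix.cons_val_zero, Matrix.cons_val_fin_one,
      Matrix.cons_val_one, Matrix.add_apply]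
    have key : (-(S * S + u * S + u * u) * -(S + u) + (S + u) * -((S + u) * (S + u)
        + w * (S + u) + w * w)) - (-(S * S + u * S + u * u) * -S
        + (S + u) * -(S * S + u * S + u * u)
        + (-((S + u) * (S + u) + w * (S + u) + w * w) * -(S + u)
        + (S + u + w) * -((S + u) * (S + u) + w * (S + u) + w * w)))
        = u * u * u + w * w * w := by noncomm_ring
    rw [c2, c5, add_zero] at key
    exact sub_eq_zero.mp key
  · simp [Matrix.mul_apply, Fin.sum_univ_two]
    noncomm_ring

lemma cube_one {v : V} (hv : ev v = 1) : Xm v * Xm v * Xm v = 0 := by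
  rw [Xm_one hv]
  have c1 := cube (Sm v)
  have c2 := cube v
  have c3 := cube2 (Sm v) v
  have c4 := cube2 v (Sm v)
  set S := io (Sm v)
  set u := io v
  ext i j
  fin_cases i <;> fin_cases j
  · simp only [Matrix.mul_apply, Fin.sum_univ_two, Fin.mk_one, Fin.zero_eta, Fin.isValue,
      Matrix.of_apply, Matrix.cons_val', Matrix.cons_val_zero, Matrix.cons_val_fin_one,
      Matrix.cons_val_one, Matrix.zero_apply]
    have key : (-S * -S + 1 * -(S * S + u * S + u * u)) * -S
        + (-S * 1 + 1 * (S + u)) * -(S * S + u * S + u * u) = -(u * u * u) := by noncomm_ring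
    rw [key, c2, neg_zero]
  · simp only [Matrix.mul_apply, Fin.sum_univ_two, Fin.mk_one, Fin.zero_eta, Fin.isValue,
      Matrix.of_apply, Matrix.cons_val', Matrix.cons_val_zero, Matrix.cons_val_fin_one,
      Matrix.cons_val_one, Matrix.zero_apply]
    noncomm_ring
  · simp only [Matrix.mul_apply, Fin.sum_univ_two, Fin.mk_one, Fin.zero_eta, Fin.isValue,
      Matrix.of_apply, Matrix.cons_val', Matrix.cons_val_zero, Matrix.cons_val_fin_one,
      Matrix.cons_val_one, Matrix.zero_apply]
    have key : (-(S * S + u * S + u * u) * -S + (S + u) * -(S * S + u * S + u * u)) * -S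
        + (-(S * S + u * S + u * u) * 1 + (S + u) * (S + u)) * -(S * S + u * S + u * u)
        = (u * u * u) * S - S * (u * u * u) := by
      noncomm_ring
    rw [key, c2]
    simp
  · simp only [Matrix.mul_apply, Fin.sum_univ_two, Fin.mk_one, Fin.zero_eta, Fin.isValue,
      Matrix.of_apply, Matrix.cons_val', Matrix.cons_val_zero, Matrix.cons_val_fin_one,
      Matrix.cons_val_one, Matrix.zero_apply]
    have key : (-(S * S + u * S + u * u) * -S + (S + u) * -(S * S + u * S + u * u)) * 1
        + (-(S * S + u * S + u * u) * 1 + (S + u) * (S + u)) * (S + u) = -(u * u * u) := by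
      noncomm_ring
    rw [key, c2, neg_zero]

lemma exists_scale {v : V} (hv : ev v ≠ 0) : ∃ (c : ℚ) (w : V), ev w = 1 ∧ v = c • w :=
  ⟨ev v, (ev v)⁻¹ • v, by rw [map_smul, smul_eq_mul, inv_mul_cancel₀ hv],
    by rw [smul_smul, mul_inv_cancel₀ hv, one_smul]⟩

lemma par_id {B : Type*} [Ring B] [Algebra ℚ B] (a b p q : B)
    (h1 : (a + p) * (b + q) = (a + p) * (a + p) + (b + q) * (b + q))
    (h2 : (a - p) * (b - q) = (a - p) * (a - p) + (b - q) * (b - q))
    (h3 : a * b = a * a + b * b) : p * q = p * p + q * q := by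
  have h4 : (2 : ℚ) • (p * q - (p * p + q * q)) = 0 := by
    have : (2 : ℚ) • (p * q - (p * p + q * q))
      = ((a + p) * (b + q) - ((a + p) * (a + p) + (b + q) * (b + q)))
      + ((a - p) * (b - q) - ((a - p) * (a - p) + (b - q) * (b - q)))
      - (a * b - (a * a + b * b)) - (a * b - (a * a + b * b)) := by
      rw [two_smul]; noncomm_ring
    rw [this, h1, h2, h3]; simp
  exact sub_eq_zero.mp ((smul_eq_zero.mp h4).resolve_left (by norm_num))

lemma quad_gen (v : V) :
    Xm v * Xm (Es v) = Xm v * Xm v + Xm (Es v) * Xm (Es v) := by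
  by_cases hv : ev v = 0
  · have h1 := quad_one (v := e 0 + v) (by rw [map_add, ev_e, hv, add_zero])
    have h2 := quad_one (v := e 0 - v) (by rw [map_sub, ev_e, hv, sub_zero])
    have h3 := quad_one (v := e 0) (ev_e 0)
    rw [map_add, map_add, map_add] at h1
    rw [map_sub, map_sub, map_sub] at h2
    exact par_id _ _ _ _ h1 h2 h3
  · obtain ⟨c, w, hw, rfl⟩ := exists_scale hv
    have h1 := quad_one hw
    rw [map_smul, map_smul, map_smul]
    simp only [smul_mul_assoc, mul_smul_comm]
    rw [h1]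
    simp only [smul_add]

lemma cube_ne {v : V} (hv : ev v ≠ 0) : Xm v * Xm v * Xm v = 0 := by
  obtain ⟨c, w, hw, rfl⟩ := exists_scale hv
  have h1 := cube_one hw
  rw [map_smul]
  simp only [smul_mul_assoc, mul_smul_comm]
  rw [h1]
  simp

lemma cube_gen (v : V) : Xm v * Xm v * Xm v = 0 := by
  by_cases hv : ev v = 0
  · have h1 := cube_ne (v := v + e 0) (by rw [map_add, ev_e, hv]; norm_num)
    have h2 := cube_ne (v := v - e 0) (by rw [map_sub, ev_e, hv]; norm_num)
    have h3 := cube_ne (v := v + (2 : ℚ) • e 0) (by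
      rw [map_add, map_smul, ev_e, hv]; norm_num)
    have h4 := cube_ne (v := v - (2 : ℚ) • e 0) (by
      rw [map_sub, map_smul, ev_e, hv]; norm_num)
    simp only [map_add, map_sub, map_smul] at h1 h2 h3 h4
    set X := Xm v
    set Z := Xm (e 0)
    have k1 : (2 : ℚ) • (X * X * X) + (2 : ℚ) • (X * Z * Z + Z * X * Z + Z * Z * X) = 0 := by
      have : (2 : ℚ) • (X * X * X) + (2 : ℚ) • (X * Z * Z + Z * X * Z + Z * Z * X)
        = (X + Z) * (X + Z) * (X + Z) + (X - Z) * (X - Z) * (X - Z) := by
        rw [two_smul, two_smul]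
        simp only [add_mul, mul_add, sub_mul, mul_sub]
        abel
      rw [this, h1, h2, add_zero]
    have k2 : (2 : ℚ) • (X * X * X) + (8 : ℚ) • (X * Z * Z + Z * X * Z + Z * Z * X) = 0 := by
      have : (2 : ℚ) • (X * X * X) + (8 : ℚ) • (X * Z * Z + Z * X * Z + Z * Z * X)
        = (X + (2 : ℚ) • Z) * (X + (2 : ℚ) • Z) * (X + (2 : ℚ) • Z)
          + (X - (2 : ℚ) • Z) * (X - (2 : ℚ) • Z) * (X - (2 : ℚ) • Z) := by
        simp only [add_mul, mul_add, sub_mul, mul_sub, smul_mul_assoc, mul_smul_comm, smul_smul]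
        module
      rw [this, h3, h4, add_zero]
    have k3 : (6 : ℚ) • (X * X * X) = 0 := by
      have : (6 : ℚ) • (X * X * X) = (4 : ℚ) • ((2 : ℚ) • (X * X * X)
          + (2 : ℚ) • (X * Z * Z + Z * X * Z + Z * Z * X)) - ((2 : ℚ) • (X * X * X)
          + (8 : ℚ) • (X * Z * Z + Z * X * Z + Z * Z * X)) := by
        module
      rw [this, k1, k2]
      simp
    exact (smul_eq_zero.mp k3).resolve_left (by norm_num)
  · exact cube_ne hv

/-- the matrix representation -/
noncomputable def Th : A →ₐ[ℚ] M2 := lift Xm quad_gen cube_gen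

@[simp] lemma Th_io (v : V) : Th (io v) = Xm v := by simp [Th]

/-- the row operator -/
noncomputable def R : A →ₗ[ℚ] A where
  toFun a := Th a 0 1
  map_add' a b := by simp
  map_smul' c a := by simp

lemma R_def (a : A) : R a = Th a 0 1 := rfl

/-- partial sums in the algebra -/
noncomputable def sg (j : ℤ) : A := io (sv j)

lemma sg_succ (j : ℤ) : sg (j + 1) = sg j + x j := by
  unfold sg x; rw [sv_succ, map_add]

lemma Th_x (j : ℤ) : Th (x j) = !![-(sg j), 1;
    -(sg j * sg j + x j * sg j + x j * x j), sg j + x j] := by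
  unfold x
  rw [Th_io, Xm_one (ev_e j), Sm_e]
  rfl

lemma R_one : R (1 : A) = 0 := by
  rw [R_def, map_one]; simp

lemma R_io (v : V) : R (io v) = ev v • (1 : A) := by
  rw [R_def, Th_io, Xm_apply]; simp

lemma R_x (j : ℤ) : R (x j) = 1 := by
  unfold x; rw [R_io, ev_e, one_smul]

lemma R_mul_x (a : A) (j : ℤ) : R (a * x j) = Th a 0 0 + R a * sg (j + 1) := by
  rw [R_def, map_mul, Th_x, Matrix.mul_apply, Fin.sum_univ_two, sg_succ, R_def]
  simp

lemma R_x_mul (a : A) (j : ℤ) : R (x j * a) = -(sg j * R a) + Th a 1 1 := by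
  rw [R_def, map_mul, Th_x, Matrix.mul_apply, Fin.sum_univ_two, R_def]
  simp

/-- difference formula on the right -/
lemma R_mul_x_sub (a : A) (i j : ℤ) :
    R (a * x j) = R (a * x i) + R a * (sg (j + 1) - sg (i + 1)) := by
  rw [R_mul_x, R_mul_x a i]; noncomm_ring

/-- difference formula on the left -/
lemma R_x_mul_sub (a : A) (i j : ℤ) :
    R (x j * a) = R (x i * a) - (sg j - sg i) * R a := by
  rw [R_x_mul, R_x_mul a i]; noncomm_ring

/-- the splitting formula -/
lemma R_split (a b : A) (j : ℤ) :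
    R (a * x j * b) = R (a * x j) * R (x j * b) - R a * (x j * x j) * R b := by
  rw [R_mul_x, R_x_mul, R_def (a * x j * b), map_mul, map_mul, Th_x, sg_succ, R_def, R_def]
  simp only [Matrix.mul_apply, Fin.sum_univ_two, Matrix.of_apply, Matrix.cons_val',
    Matrix.cons_val_zero, Matrix.cons_val_one, Matrix.cons_val_fin_one]
  noncomm_ring

/-- `R (a θ v) = - R a · E v` -/
lemma R_mul_th (a : A) (v : V) : R (a * io (th v)) = -(R a * io (Es v)) := by
  rw [R_def, map_mul, Th_io, Xm_apply, Matrix.mul_apply, Fin.sum_univ_two, R_def]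
  have h1 : ev (th v) = 0 := by rw [th_apply, map_sub, ev_Es, sub_self]
  have h2 : io (Sm (th v)) + io (th v) = -(io (Es v)) := by
    rw [← map_add, th_apply, map_sub, Sm_Es, ← map_neg]
    congr 1
    abel
  simp [h1, h2]

/-- `R (θ v · a) = v · R a` -/
lemma R_th_mul (a : A) (v : V) : R (io (th v) * a) = io v * R a := by
  rw [R_def, map_mul, Th_io, Xm_apply, Matrix.mul_apply, Fin.sum_univ_two, R_def]
  have h1 : ev (th v) = 0 := by rw [th_apply, map_sub, ev_Es, sub_self]
  have h2 : io (Sm (th v)) = -(io v) := by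
    rw [th_apply, map_sub, Sm_Es, ← map_neg]
    congr 1
    abel
  simp [h1, h2]

end Pool.Agent.R730.MT
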