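import Pool.Agent.R730.MT.Rot

/-!
The rows `(1, ..., k-3, k-1, k, k-1, k, k+1, ..., n)`.
-/

namespace Pool.Agent.R730.MT

open Finset

lemma aab (i : ℤ) : x i * (x (i + 1) * x (i + 1)) = x i * x i * x (i + 1) := by
  have h1 : x i * (x (i + 1) * x (i + 1)) = (x i * x (i + 1)) * x (i + 1) := by noncomm_ring
  have h2 : x i * x i * x (i + 1) = x i * (x i * x (i + 1)) := by noncomm_ring
  rw [h1, h2, q1]
  have h3 : (x i * x i + x (i + 1) * x (i + 1)) * x (i + 1)
    = x i * x i * x (i + 1) + x (i + 1) * x (i + 1) * x (i + 1) := by noncomm_ring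
  have h4 : x i * (x i * x i + x (i + 1) * x (i + 1))
    = x i * x i * x i + x i * x (i + 1) * x (i + 1) := by noncomm_ring
  have h5 : x i * x (i + 1) * x (i + 1) = x i * x i * x (i + 1) + x (i + 1) * x (i + 1) * x (i + 1) := by
    rw [q1]; noncomm_ring
  rw [h3, h4, h5, xxx, xxx]
  abel

/-- doubled letter after a hole -/
noncomputable def bb (p r : ℕ) : ℚ :=
  al (p + 2 + r) (run 1 p * (x (p + 2) * x (p + 2)) * run (p + 3) r)

/-- auxiliary value -/
noncomputable def DD (p r : ℕ) : ℚ :=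
  al (p + 2 + r) (R (run 1 p) * x (p + 1) * (x (p + 2) * x (p + 2)) * run (p + 3) r)

lemma DD_zero (r : ℕ) : DD 0 r = 0 := by
  unfold DD; rw [run_zero, R_one]; simp

lemma DD_succ (p r : ℕ) : DD (p + 1) r = DD p (r + 1) + bb p (r + 1) := by
  unfold DD bb
  have e0 : p + 1 + 2 + r = p + 2 + (r + 1) := by ring
  rw [e0, ← map_add]
  congr 1
  set i : ℤ := (p : ℤ) + 2 with hi
  have a1 : ((p + 1 : ℕ) : ℤ) + 1 = i := by rw [hi]; push_cast; ring
  have a2 : ((p + 1 : ℕ) : ℤ) + 2 = i + 1 := by rw [hi]; push_cast; ring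
  have a3 : ((p + 1 : ℕ) : ℤ) + 3 = i + 2 := by rw [hi]; push_cast; ring
  have a4 : (p : ℤ) + 3 = i + 1 := by rw [hi]; ring
  have a5 : (1 : ℤ) + (p : ℤ) = p + 1 := by ring
  rw [a1, a2, a3, a4, R_run_succ, a5, run_left (i + 1) r]
  have a6 : i + 1 + 1 = i + 2 := by ring
  rw [a6]
  have h := aab i
  have e1 : (R (run 1 p) * x ((p : ℤ) + 1) + run 1 p) * x i * (x (i + 1) * x (i + 1)) * run (i + 2) r
      = (R (run 1 p) * x ((p : ℤ) + 1) + run 1 p) * (x i * (x (i + 1) * x (i + 1)))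
        * run (i + 2) r := by noncomm_ring
  rw [e1, h]
  noncomm_ring

lemma DD_eq (p : ℕ) : ∀ r : ℕ, DD p r = ∑ j ∈ range p, bb j (p - 1 - j + r + 1) := by
  induction p with
  | zero => intro r; rw [DD_zero]; simp
  | succ p ih =>
    intro r
    rw [DD_succ, ih, Finset.sum_range_succ]
    congr 1
    · apply Finset.sum_congr rfl
      intro j hj
      rw [mem_range] at hj
      congr 1
      omega
    · congr 1
      omega

/-- hole numbers -/
noncomputable def AA (q c : ℕ) : ℚ := al q (run 1 c * run (c + 2) (q - c))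

/-- partial sums -/
noncomputable def ee (q j : ℕ) : ℚ := al q (R (run 1 j) * run (j + 1) (q + 1 - j))

lemma ee_eq (q : ℕ) : ∀ j, j ≤ q + 1 → ee q j = ∑ c ∈ range j, AA q c := by
  intro j
  induction j with
  | zero => intro _; unfold ee; rw [run_zero, R_one]; simp
  | succ j ih =>
    intro hj
    rw [Finset.sum_range_succ, ← ih (by omega)]
    unfold ee AA
    rw [← map_add]
    congr 1
    obtain ⟨s, hs⟩ : ∃ s, q = j + s := ⟨q - j, by omega⟩
    have a1 : q + 1 - (j + 1) = s := by omega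
    have a2 : q + 1 - j = s + 1 := by omega
    have a3 : q - j = s := by omega
    have a4 : (1 : ℤ) + (j : ℤ) = j + 1 := by ring
    have a5 : ((j + 1 : ℕ) : ℤ) + 1 = j + 2 := by push_cast; ring
    have a6 : (j : ℤ) + 1 + 1 = j + 2 := by ring
    rw [a1, a2, a3, R_run_succ, a4, a5, run_left _ s, a6]
    noncomm_ring

lemma bb_eq (p r : ℕ) : bb p r = ∑ c ∈ range (p + 1), AA (p + 1 + r) c := by
  rw [← ee_eq _ _ (by omega)]
  unfold bb ee
  have e0 : p + 2 + r = (p + 1 + r) + 1 := by ring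
  have e1 : p + 1 + r + 1 - (p + 1) = r + 1 := by omega
  rw [e0, al_succ, e1]
  congr 1
  have h := R_step ((p : ℤ) + 2) 0 0 r
  simp only [run_zero, T_zero, one_mul, Nat.cast_zero, add_zero, zero_add] at h
  have h2 : T ((p : ℤ) + 2) 1 = x (p + 2) * x (p + 2) := by
    simp [T]
  rw [h2] at h
  have a1 : (p : ℤ) + 2 + 1 = p + 3 := by ring
  rw [a1] at h
  rw [R_pull, h]
  have a2 : (p : ℤ) + 2 - 1 = 1 + p := by ring
  have a3 : ((p + 1 : ℕ) : ℤ) + 1 = p + 2 := by push_cast; ring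
  rw [a2, ← run_succ, a3]

/-- the value at the special rows -/
theorem al_Tk (p s : ℕ) :
    al (p + 4 + s) (run 1 p * (x (p + 2) * x (p + 3) * x (p + 2) * x (p + 3)) * run (p + 4) s)
      = ∑ j ∈ range (p + 1), ∑ c ∈ range (j + 1), AA (p + 2 + s) c := by
  have h1 := abab ((p : ℤ) + 2)
  have a0 : (p : ℤ) + 2 + 1 = p + 3 := by ring
  rw [a0] at h1
  rw [h1]
  have h2 : run 1 p * (x ((p : ℤ) + 3) * x ((p : ℤ) + 3) * (x ((p : ℤ) + 2) * x ((p : ℤ) + 2)))
      * run ((p : ℤ) + 4) s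
      = run 1 p * (x ((p : ℤ) + 3) * x ((p : ℤ) + 3)) * (x ((p : ℤ) + 2) * x ((p : ℤ) + 2)
        * run ((p : ℤ) + 4) s) := by noncomm_ring
  have e0 : p + 4 + s = (p + 3 + s) + 1 := by ring
  rw [h2, e0, al_succ, R_pull]
  have h3 := R_step ((p : ℤ) + 2) 0 1 s
  simp only [run_zero, one_mul, Nat.cast_zero, add_zero, zero_add] at h3
  have h4 : T ((p : ℤ) + 2) (1 + 1) = x (p + 3) * x (p + 3) * (x (p + 2) * x (p + 2)) := by
    simp only [T, Nat.cast_zero, add_zero, mul_one]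
    have : (p : ℤ) + 2 + ((0 + 1 : ℕ) : ℤ) = p + 3 := by push_cast; ring
    rw [this]
  have h5 : T ((p : ℤ) + 2) 1 = x (p + 2) * x (p + 2) := by simp [T]
  have a1 : (p : ℤ) + 2 + (((1 : ℕ) : ℤ) + 1) = p + 4 := by push_cast; ring
  have a2 : (p : ℤ) + 2 + ((1 : ℕ) : ℤ) = p + 3 := by push_cast; ring
  rw [h4, h5, a1, a2] at h3
  have h6 : x ((p : ℤ) + 3) * x ((p : ℤ) + 3) * (x ((p : ℤ) + 2) * x ((p : ℤ) + 2)
        * run ((p : ℤ) + 4) s) = x ((p : ℤ) + 3) * x ((p : ℤ) + 3) * (x ((p : ℤ) + 2)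
        * x ((p : ℤ) + 2)) * run ((p : ℤ) + 4) s := by noncomm_ring
  rw [h6, h3]
  have a3 : (p : ℤ) + 3 - 1 = p + 2 := by ring
  rw [a3, R_run_x]
  have a4 : sg ((p : ℤ) + 2 + 1) - sg (1 + (p : ℤ)) = x (p + 1) + x (p + 2) := by
    have : (p : ℤ) + 2 = (1 + p) + 1 := by ring
    rw [this, sg_succ, sg_succ]
    have : (p : ℤ) + 1 = 1 + p := by ring
    rw [this]; abel
  rw [a4]
  have h7 : (run 1 p + R (run 1 p) * (x ((p : ℤ) + 1) + x ((p : ℤ) + 2)))
      * (x ((p : ℤ) + 2) * x ((p : ℤ) + 2) * run ((p : ℤ) + 3) (s + 1))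
      = run 1 p * (x ((p : ℤ) + 2) * x ((p : ℤ) + 2)) * run ((p : ℤ) + 3) (s + 1)
        + R (run 1 p) * x ((p : ℤ) + 1) * (x ((p : ℤ) + 2) * x ((p : ℤ) + 2))
          * run ((p : ℤ) + 3) (s + 1)
        + R (run 1 p) * (x ((p : ℤ) + 2) * x ((p : ℤ) + 2) * x ((p : ℤ) + 2))
          * run ((p : ℤ) + 3) (s + 1) := by noncomm_ring
  rw [h7, xxx, mul_zero, zero_mul, add_zero, map_add]
  have h8 : al (p + 3 + s) (run 1 p * (x ((p : ℤ) + 2) * x ((p : ℤ) + 2)) * run ((p : ℤ) + 3) (s + 1))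
      = bb p (s + 1) := by
    unfold bb; congr 2; ring
  have h9 : al (p + 3 + s) (R (run 1 p) * x ((p : ℤ) + 1) * (x ((p : ℤ) + 2) * x ((p : ℤ) + 2))
          * run ((p : ℤ) + 3) (s + 1)) = DD p (s + 1) := by
    unfold DD; congr 2; ring
  rw [h8, h9, DD_eq, Finset.sum_range_succ, add_comm]
  congr 1
  · apply Finset.sum_congr rfl
    intro j hj
    rw [mem_range] at hj
    rw [bb_eq]
    have : j + 1 + (p - 1 - j + (s + 1) + 1) = p + 2 + s := by omega
    rw [this]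
  · rw [bb_eq]
    have : p + 1 + (s + 1) = p + 2 + s := by ring
    rw [this]

/-! ### rational functions -/

lemma Cx_succ {n c : ℕ} (hc : c < n) :
    Cx n (c + 1) * (((c : ℚ) + 1) * (2 * n - 2 - c)) = Cx n c * ((n + c) * (n - 1 - c)) := by
  by_cases hc1 : c + 1 < n
  · unfold Cx
    rw [if_pos hc, if_pos hc1]
    obtain ⟨d, rfl⟩ : ∃ d, n = c + 2 + d := ⟨n - c - 2, by omega⟩
    have a1 : c + 2 + d - 1 + (c + 1) = (2 * c + 1 + d) + 1 := by omega
    have a2 : c + 2 + d - 1 = c + 1 + d := by omega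
    have a3 : 2 * (c + 2 + d) - 2 - (c + 1) = c + 1 + 2 * d := by omega
    have a4 : c + 2 + d - 1 + c = 2 * c + 1 + d := by omega
    have a5 : 2 * (c + 2 + d) - 2 - c = (c + 1 + 2 * d) + 1 := by omega
    rw [a1, a4, a2, a3, a5]
    have b1 := Nat.choose_mul_succ_eq (2 * c + 1 + d) (c + 1 + d)
    have b2 := Nat.choose_mul_succ_eq (c + 1 + 2 * d) (c + 1 + d)
    have a6 : 2 * c + 1 + d + 1 - (c + 1 + d) = c + 1 := by omega
    have a7 : c + 1 + 2 * d + 1 - (c + 1 + d) = d + 1 := by omega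
    rw [a6] at b1
    rw [a7] at b2
    have c1 : ((2 * c + 1 + d).choose (c + 1 + d) : ℚ) * (2 * c + 1 + d + 1)
        = ((2 * c + 1 + d + 1).choose (c + 1 + d) : ℚ) * (c + 1) := by exact_mod_cast b1
    have c2 : ((c + 1 + 2 * d).choose (c + 1 + d) : ℚ) * (c + 1 + 2 * d + 1)
        = ((c + 1 + 2 * d + 1).choose (c + 1 + d) : ℚ) * (d + 1) := by exact_mod_cast b2
    have d1 : 2 * ((c + 2 + d : ℕ) : ℚ) - 2 - c = c + 1 + 2 * d + 1 := by push_cast; ring
    have d2 : ((c + 2 + d : ℕ) : ℚ) + c = 2 * c + 1 + d + 1 := by push_cast; ring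
    have d3 : ((c + 2 + d : ℕ) : ℚ) - 1 - c = d + 1 := by push_cast; ring
    rw [d1, d2, d3]
    calc ((2 * c + 1 + d + 1).choose (c + 1 + d) : ℚ) * ((c + 1 + 2 * d).choose (c + 1 + d) : ℚ)
          * (((c : ℚ) + 1) * (c + 1 + 2 * d + 1))
        = (((2 * c + 1 + d + 1).choose (c + 1 + d) : ℚ) * (c + 1))
          * (((c + 1 + 2 * d).choose (c + 1 + d) : ℚ) * (c + 1 + 2 * d + 1)) := by ring
      _ = (((2 * c + 1 + d).choose (c + 1 + d) : ℚ) * (2 * c + 1 + d + 1))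
          * (((c + 1 + 2 * d + 1).choose (c + 1 + d) : ℚ) * (d + 1)) := by rw [c1, c2]
      _ = _ := by ring
  · have hcn : n = c + 1 := by omega
    subst hcn
    rw [Cx_ge (le_refl _)]
    push_cast
    ring

open Polynomial in
/-- numerators -/
noncomputable def PN : ℕ → ℚ[X]
  | 0 => 1
  | c + 1 => PN c * (C ((c : ℚ) + 1)⁻¹ * ((X + C (c : ℚ)) * (X - C ((c : ℚ) + 1))))

open Polynomial in
/-- denominators -/
noncomputable def PQ : ℕ → ℚ[X]
  | 0 => 1
  | c + 1 => PQ c * (C 2 * X - C ((c : ℚ) + 2))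

open Polynomial in
/-- numerators of the partial sums -/
noncomputable def PT : ℕ → ℚ[X]
  | 0 => 1
  | c + 1 => PT c * (C 2 * X - C ((c : ℚ) + 2)) + PN (c + 1)

open Polynomial in
/-- numerators of the double partial sums -/
noncomputable def PS : ℕ → ℚ[X]
  | 0 => 1
  | c + 1 => PS c * (C 2 * X - C ((c : ℚ) + 2)) + PT (c + 1)

open Polynomial in
lemma deg_fac (c : ℕ) : natDegree (C (2 : ℚ) * X - C ((c : ℚ) + 2)) = 1 := by
  have := natDegree_linear (a := (2 : ℚ)) (b := -((c : ℚ) + 2)) (by norm_num)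
  rw [C_neg, ← sub_eq_add_neg] at this
  exact this

open Polynomial in
lemma PQ_deg (c : ℕ) : PQ c ≠ 0 ∧ natDegree (PQ c) = c := by
  induction c with
  | zero => simp [PQ]
  | succ c ih =>
    have h1 : (C (2 : ℚ) * X - C ((c : ℚ) + 2)) ≠ 0 := by
      intro h; have := deg_fac c; rw [h] at this; simp at this
    exact ⟨mul_ne_zero ih.1 h1, by rw [PQ, natDegree_mul ih.1 h1, ih.2, deg_fac]⟩

open Polynomial in
lemma PN_deg (c : ℕ) : PN c ≠ 0 ∧ natDegree (PN c) = 2 * c := by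
  induction c with
  | zero => simp [PN]
  | succ c ih =>
    have h1 : natDegree (X + C (c : ℚ)) = 1 := natDegree_X_add_C _
    have h2 : natDegree (X - C ((c : ℚ) + 1)) = 1 := natDegree_X_sub_C _
    have n1 : (X + C (c : ℚ)) ≠ 0 := X_add_C_ne_zero _
    have n2 : (X - C ((c : ℚ) + 1)) ≠ 0 := X_sub_C_ne_zero _
    have h3 : ((c : ℚ) + 1)⁻¹ ≠ 0 := inv_ne_zero (by positivity)
    have n3 : C ((c : ℚ) + 1)⁻¹ ≠ 0 := by rw [Ne, C_eq_zero]; exact h3
    have n4 : C ((c : ℚ) + 1)⁻¹ * ((X + C (c : ℚ)) * (X - C ((c : ℚ) + 1))) ≠ 0 :=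
      mul_ne_zero n3 (mul_ne_zero n1 n2)
    refine ⟨mul_ne_zero ih.1 n4, ?_⟩
    rw [PN, natDegree_mul ih.1 n4, ih.2, natDegree_C_mul h3, natDegree_mul n1 n2, h1, h2]
    ring

open Polynomial in
lemma PT_deg (c : ℕ) : natDegree (PT c) = 2 * c := by
  induction c with
  | zero => simp [PT]
  | succ c ih =>
    rw [PT, natDegree_add_eq_right_of_natDegree_lt, (PN_deg (c + 1)).2]
    rw [(PN_deg (c + 1)).2]
    calc natDegree (PT c * (C 2 * X - C ((c : ℚ) + 2))) ≤ natDegree (PT c) + 1 := by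
          have := natDegree_mul_le (p := PT c) (q := C 2 * X - C ((c : ℚ) + 2))
          rwa [deg_fac] at this
      _ < 2 * (c + 1) := by rw [ih]; omega

open Polynomial in
lemma PS_deg (c : ℕ) : natDegree (PS c) = 2 * c := by
  induction c with
  | zero => simp [PS]
  | succ c ih =>
    rw [PS, natDegree_add_eq_right_of_natDegree_lt, PT_deg (c + 1)]
    rw [PT_deg (c + 1)]
    calc natDegree (PS c * (C 2 * X - C ((c : ℚ) + 2))) ≤ natDegree (PS c) + 1 := by
          have := natDegree_mul_le (p := PS c) (q := C 2 * X - C ((c : ℚ) + 2))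
          rwa [deg_fac] at this
      _ < 2 * (c + 1) := by rw [ih]; omega

open Polynomial in
lemma PQ_pos {n : ℕ} : ∀ c : ℕ, c < n → 0 < (PQ c).eval (n : ℚ) := by
  intro c
  induction c with
  | zero => intro _; simp [PQ]
  | succ c ih =>
    intro h
    rw [PQ, eval_mul]
    apply mul_pos (ih (by omega))
    simp only [eval_sub, eval_mul, eval_C, eval_X]
    have : ((c + 1 : ℕ) : ℚ) + 1 ≤ n := by exact_mod_cast h
    push_cast at this
    have hc0 : (0 : ℚ) ≤ c := by positivity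
    linarith

open Polynomial in
lemma Cx_PN {n : ℕ} : ∀ c : ℕ, c < n →
    Cx n c * (PQ c).eval (n : ℚ) = Cx n 0 * (PN c).eval (n : ℚ) := by
  intro c
  induction c with
  | zero => intro _; simp [PQ, PN]
  | succ c ih =>
    intro h
    have h1 := ih (by omega)
    have h2 := Cx_succ (n := n) (c := c) (by omega)
    rw [PQ, PN, eval_mul, eval_mul]
    simp only [eval_sub, eval_mul, eval_C, eval_X, eval_add]
    have h3 : ((c : ℚ) + 1) ≠ 0 := by positivity
    have h4 : Cx n (c + 1) * (2 * (n : ℚ) - (c + 2)) = Cx n c * ((c : ℚ) + 1)⁻¹ * ((n + c) * (n - 1 - c)) := by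
      field_simp
      linarith
    calc Cx n (c + 1) * ((PQ c).eval (n : ℚ) * (2 * (n : ℚ) - ((c : ℚ) + 2)))
        = (Cx n (c + 1) * (2 * (n : ℚ) - (c + 2))) * (PQ c).eval (n : ℚ) := by ring
      _ = (Cx n c * (PQ c).eval (n : ℚ)) * (((c : ℚ) + 1)⁻¹ * ((n + c) * (n - 1 - c))) := by
          rw [h4]; ring
      _ = _ := by rw [h1]; ring

open Polynomial in
lemma sum_PT {n : ℕ} : ∀ c : ℕ, c < n →
    (∑ i ∈ range (c + 1), Cx n i) * (PQ c).eval (n : ℚ) = Cx n 0 * (PT c).eval (n : ℚ) := by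
  intro c
  induction c with
  | zero => intro _; simp [PQ, PT]
  | succ c ih =>
    intro h
    have h1 := ih (by omega)
    have h2 := Cx_PN (n := n) (c + 1) h
    rw [Finset.sum_range_succ, add_mul, h2, PQ, PT, eval_mul, eval_add, eval_mul, ← mul_assoc, h1]
    ring

open Polynomial in
lemma sum_PS {n : ℕ} : ∀ c : ℕ, c < n →
    (∑ j ∈ range (c + 1), ∑ i ∈ range (j + 1), Cx n i) * (PQ c).eval (n : ℚ)
      = Cx n 0 * (PS c).eval (n : ℚ) := by
  intro c
  induction c with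
  | zero => intro _; simp [PQ, PS]
  | succ c ih =>
    intro h
    have h1 := ih (by omega)
    have h2 := sum_PT (n := n) (c + 1) h
    rw [Finset.sum_range_succ, add_mul, h2, PQ, PS, eval_mul, eval_add, eval_mul, ← mul_assoc, h1]
    ring

lemma Cx_zero_pos {n : ℕ} (hn : 1 ≤ n) : 0 < Cx n 0 := by
  unfold Cx
  rw [if_pos (by omega)]
  apply mul_pos
  · exact_mod_cast Nat.choose_pos (by omega)
  · exact_mod_cast Nat.choose_pos (by omega)

theorem al_Tk_eq (p s : ℕ) :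
    al (p + 4 + s) (run 1 p * (x (p + 2) * x (p + 3) * x (p + 2) * x (p + 3)) * run (p + 4) s)
      = (PS p).eval ((p + 3 + s : ℕ) : ℚ) / (PQ p).eval ((p + 3 + s : ℕ) : ℚ)
        * al (p + 2 + s) (run 1 (p + 2 + s)) := by
  rw [al_Tk]
  set n := p + 3 + s with hn
  have hC := Cx_zero_pos (n := n) (by omega)
  have hQ := PQ_pos (n := n) p (by omega)
  have hS := sum_PS (n := n) p (by omega)
  have h1 : ∀ c, c < n → AA (p + 2 + s) c = al (p + 2 + s) (run 1 (p + 2 + s)) * Cx n c / Cx n 0 := by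
    intro c hc
    have := refined (q := p + 2 + s) (c := c) (by omega)
    have e : p + 2 + s + 1 = n := by omega
    rw [e] at this
    unfold AA
    rw [eq_div_iff hC.ne', mul_comm]
    exact this
  have h2 : ∑ j ∈ range (p + 1), ∑ c ∈ range (j + 1), AA (p + 2 + s) c
      = al (p + 2 + s) (run 1 (p + 2 + s)) / Cx n 0 *
        ∑ j ∈ range (p + 1), ∑ c ∈ range (j + 1), Cx n c := by
    rw [Finset.mul_sum]
    apply Finset.sum_congr rfl
    intro j hj
    rw [mem_range] at hj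
    rw [Finset.mul_sum]
    apply Finset.sum_congr rfl
    intro c hc
    rw [mem_range] at hc
    rw [h1 c (by omega)]
    ring
  rw [h2]
  have h3 : ∑ j ∈ range (p + 1), ∑ c ∈ range (j + 1), Cx n c
      = Cx n 0 * (PS p).eval (n : ℚ) / (PQ p).eval (n : ℚ) := by
    rw [eq_div_iff hQ.ne', hS]
  rw [h3]
  field_simp

end Pool.Agent.R730.MT
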